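import Pool.Agent.W5h80.AP.NB

set_option autoImplicit false

/-! Resonances: all frequencies together. -/

namespace Pool.Agent.W5h80.AP

open Finset Filter Topology
open Pool.Agent.H306R2 Pool.Agent.R311.BS

noncomputable section

lemma exp_neg_le_lam {c : ℝ} (hc : 0 < c) (m : ℤ) (hm : m ≠ 0) :
    Real.exp (-(c * |(m:ℝ)|)) ≤ 2 / c ^ 2 * lam m := by
  have h1 : (0:ℝ) < |(m:ℝ)| := by rw [abs_pos]; exact_mod_cast hm
  have hy : 0 < c * |(m:ℝ)| := by positivity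
  have h2 : (c * |(m:ℝ)|) ^ 2 / 2 ≤ Real.exp (c * |(m:ℝ)|) := by
    have := Real.quadratic_le_exp_of_nonneg hy.le
    nlinarith
  have e1 : lam m = 1 / (m:ℝ) ^ 2 := by unfold lam; rw [if_neg hm]
  rw [e1, Real.exp_neg, ← one_div]
  have h3 : 1 / Real.exp (c * |(m:ℝ)|) ≤ 1 / ((c * |(m:ℝ)|) ^ 2 / 2) :=
    one_div_le_one_div_of_le (by positivity) h2
  refine h3.trans (le_of_eq ?_)
  rw [mul_pow, sq_abs]
  field_simp

lemma coprime_large {B : ℕ} {a : ℕ} (ha : 1 ≤ a)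
    (hc : a.Coprime (∏ p ∈ (range (B + 1)).filter Nat.Prime, p)) : a = 1 ∨ B < a := by
  by_cases h : a = 1
  · exact Or.inl h
  · right
    have hp := Nat.minFac_prime h
    have hd := Nat.minFac_dvd a
    have hle : a.minFac ≤ a := Nat.le_of_dvd (by omega) hd
    by_contra hcon
    rw [not_lt] at hcon
    have hmem : a.minFac ∈ (range (B + 1)).filter Nat.Prime := by
      rw [mem_filter, mem_range]
      exact ⟨by omega, hp⟩
    have hdP : a.minFac ∣ ∏ p ∈ (range (B + 1)).filter Nat.Prime, p := dvd_prod_of_mem _ hmem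
    have := Nat.dvd_gcd hd hdP
    rw [Nat.Coprime] at hc
    rw [hc] at this
    exact hp.one_lt.ne' (Nat.dvd_one.mp this)

theorem NS_bound {κ : ℝ} (hκ : 1 ≤ κ) {A : ℝ} (hA : 0 < A) {ε : ℝ} (hε : 0 < ε) :
    ∃ s : Finset ℕ, (∀ p ∈ s, p.Prime) ∧ ∀ α : ℝ, 0 < α → α ≤ A → ∀ (M : ℕ) (f g : ℕ → ℝ)
      (X Y Z ρ L0 C e : ℝ), 1 ≤ C → 0 < e → e ≤ 1 / 4 → 1 ≤ X → 1 ≤ Y → 0 < ρ → ρ ≤ 1 → ρ ≤ Real.pi / A →
      Y * Real.exp (L0 + 1) ≤ Z → 2 * ρ ≤ 1 / (Z * Y) → Real.log Y + 1 ≤ L0 →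
      (∀ n : ℕ, (n:ℝ) ≤ Z → |f n| ≤ dv κ n ∧ (f n ≠ 0 → n.Coprime (∏ p ∈ s, p))) →
      (∀ l : ℕ, |g l| ≤ dv κ l ∧ (g l ≠ 0 → l.Coprime (∏ p ∈ s, p))) →
      (∀ n : ℕ, |f n| ≤ C * (n:ℝ) ^ e) → (∀ n : ℕ, |g n| ≤ C * (n:ℝ) ^ e) →
      NS α ρ M f g X Y ≤ ε * SP κ (∏ p ∈ s, p) ⌊Y⌋₊ +
        2 * M * (Y * (C * C * (16 * ρ * X ^ (1 / 2 + e) + 2 * Real.exp (-(L0 / 4))))) := by
  have hκ0 : 0 ≤ κ := by linarith
  have hπ := Real.pi_pos
  have hπ3 := Real.pi_gt_three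
  have hLam := Lam_ge_one
  obtain ⟨C4, hC4, hdv⟩ := dv_eps hκ0 (e := 1 / 4) (by norm_num)
  obtain ⟨B, hB⟩ := exists_nat_ge ((8 * A ^ 2 * C4 ^ 2 * Lam / ε) ^ 8 + 1)
  have hBpos : (0:ℝ) < B := by
    have : 0 ≤ (8 * A ^ 2 * C4 ^ 2 * Lam / ε) ^ 8 := by positivity
    linarith
  obtain ⟨K, hK⟩ : ∃ K : ℝ, K = 8 * A ^ 2 * C4 ^ 2 * (B:ℝ) ^ (-(1 / 8) : ℝ) := ⟨_, rfl⟩
  have hK0 : 0 ≤ K := by rw [hK]; positivity
  have hKL : K * Lam ≤ ε := by
    have h1 : 8 * A ^ 2 * C4 ^ 2 * Lam / ε ≤ (B:ℝ) ^ (1 / 8 : ℝ) := by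
      have h2 : (8 * A ^ 2 * C4 ^ 2 * Lam / ε) ^ 8 ≤ B := by linarith
      have h3 : ((8 * A ^ 2 * C4 ^ 2 * Lam / ε) ^ 8) ^ (1 / 8 : ℝ) = 8 * A ^ 2 * C4 ^ 2 * Lam / ε := by
        rw [← Real.rpow_natCast, ← Real.rpow_mul (by positivity)]
        norm_num
      rw [← h3]
      exact Real.rpow_le_rpow (by positivity) h2 (by norm_num)
    rw [div_le_iff₀ hε] at h1
    have h4 : (B:ℝ) ^ (-(1 / 8) : ℝ) * (B:ℝ) ^ (1 / 8 : ℝ) = 1 := by
      rw [← Real.rpow_add hBpos]; norm_num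
    rw [hK]
    calc 8 * A ^ 2 * C4 ^ 2 * (B:ℝ) ^ (-(1 / 8) : ℝ) * Lam =
        (8 * A ^ 2 * C4 ^ 2 * Lam) * (B:ℝ) ^ (-(1 / 8) : ℝ) := by ring
      _ ≤ ((B:ℝ) ^ (1 / 8 : ℝ) * ε) * (B:ℝ) ^ (-(1 / 8) : ℝ) := by gcongr
      _ = ((B:ℝ) ^ (-(1 / 8) : ℝ) * (B:ℝ) ^ (1 / 8 : ℝ)) * ε := by ring
      _ = ε := by rw [h4, one_mul]
  refine ⟨(range (B + 1)).filter Nat.Prime, fun p hp => (mem_filter.mp hp).2, ?_⟩
  intro α hα hαA M f g X Y Z ρ L0 C e hC he he4 hX hY hρ hρ1 hρA hZ hρ2 hL0 hf hg hfC hgC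
  obtain ⟨U, hU⟩ : ∃ U : ℝ, U = SP κ (∏ p ∈ (range (B + 1)).filter Nat.Prime, p) ⌊Y⌋₊ := ⟨_, rfl⟩
  have hU0 : 0 ≤ U := by rw [hU]; exact SP_nonneg _ _ _
  obtain ⟨W, hW⟩ : ∃ W : ℝ, W = Y * (C * C * (16 * ρ * X ^ (1 / 2 + e) + 2 * Real.exp (-(L0 / 4)))) := ⟨_, rfl⟩
  have hW0 : 0 ≤ W := by rw [hW]; positivity
  rw [← hU, ← hW]
  have hlogY : 0 ≤ Real.log Y := Real.log_nonneg hY
  have key : ∀ m ∈ (Icc (-(M:ℤ)) M).erase 0, NN f g X Y ρ (2 * Real.pi * m / α) ≤ K * lam m * U + W := by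
    intro m hm
    rw [mem_erase] at hm
    have hlam := lam_nonneg m
    have hKlU : 0 ≤ K * lam m * U := by positivity
    by_cases h1 : |2 * Real.pi * m / α| ≤ L0
    · have h2 := near_bound' κ hκ0 (dv_submul hκ) (∏ p ∈ (range (B + 1)).filter Nat.Prime, p) f g X Y Z ρ
        (2 * Real.pi * m / α) (K * lam m) hY hρ1 (by
          refine le_trans ?_ hZ
          gcongr) hρ2 hf hg (by positivity) (by
        intro a b ha hb hab haP hbP hlt
        have hmabs : |2 * Real.pi * (m:ℝ) / α| = 2 * Real.pi / α * |(m:ℝ)| := by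
          rw [abs_div, abs_mul, abs_of_pos (by positivity : (0:ℝ) < 2 * Real.pi), abs_of_pos hα]
          ring
        have hm1 : (1:ℝ) ≤ |(m:ℝ)| := by
          rw [← Int.cast_abs]
          exact_mod_cast Int.one_le_abs hm.1
        have hθ : 2 * Real.pi / A * |(m:ℝ)| ≤ |2 * Real.pi * (m:ℝ) / α| := by
          rw [hmabs]; gcongr
        have hθ2 : 2 * ρ ≤ |2 * Real.pi * (m:ℝ) / α| := by
          have : 2 * Real.pi / A ≤ 2 * Real.pi / A * |(m:ℝ)| := by
            have : 0 < 2 * Real.pi / A := by positivity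
            nlinarith
          have h3 : 2 * ρ ≤ 2 * Real.pi / A := by
            calc 2 * ρ ≤ 2 * (Real.pi / A) := by linarith
              _ = _ := by ring
          linarith
        have ha0 : (0:ℝ) < a := by exact_mod_cast ha
        have hb0 : (0:ℝ) < b := by exact_mod_cast hb
        have ha1 : (1:ℝ) ≤ a := by exact_mod_cast ha
        have hb1 : (1:ℝ) ≤ b := by exact_mod_cast hb
        have hla : 0 ≤ Real.log a := Real.log_nonneg ha1
        have hlb : 0 ≤ Real.log b := Real.log_nonneg hb1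
        -- the product a b is large
        have hab1 : (B:ℝ) ≤ (a:ℝ) * b := by
          rcases coprime_large ha haP with h | h
          · rcases coprime_large hb hbP with h' | h'
            · exfalso
              rw [h, h'] at hlt
              simp only [Nat.cast_one, Real.log_one, sub_zero, add_zero] at hlt
              linarith
            · have : (B:ℝ) ≤ b := by exact_mod_cast h'.le
              nlinarith
          · have : (B:ℝ) ≤ a := by exact_mod_cast h.le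
            nlinarith
        have hab2 : Real.exp (|2 * Real.pi * (m:ℝ) / α| - 1) ≤ (a:ℝ) * b := by
          rw [← Real.log_le_log_iff (Real.exp_pos _) (by positivity), Real.log_exp,
            Real.log_mul ha0.ne' hb0.ne']
          have h4 : |2 * Real.pi * (m:ℝ) / α| ≤ |2 * Real.pi * (m:ℝ) / α - Real.log a + Real.log b| +
              |Real.log a - Real.log b| := by
            have e1 : 2 * Real.pi * (m:ℝ) / α = (2 * Real.pi * (m:ℝ) / α - Real.log a + Real.log b) +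
              (Real.log a - Real.log b) := by ring
            calc _ = |(2 * Real.pi * (m:ℝ) / α - Real.log a + Real.log b) +
              (Real.log a - Real.log b)| := by rw [← e1]
              _ ≤ _ := abs_add_le _ _
          have h5 : |Real.log a - Real.log b| ≤ Real.log a + Real.log b := by
            rw [abs_le]; constructor <;> linarith
          linarith
        have hdec : ∀ c : ℕ, 1 ≤ c → dv κ c * (Real.sqrt c)⁻¹ ≤ C4 * (c:ℝ) ^ (-(1 / 4) : ℝ) := by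
          intro c hc
          have hc0 : (0:ℝ) < c := by exact_mod_cast hc
          have e1 : (c:ℝ) ^ (-(1 / 4) : ℝ) = (c:ℝ) ^ (1 / 4 : ℝ) * (Real.sqrt c)⁻¹ := by
            rw [Real.sqrt_eq_rpow, ← Real.rpow_neg hc0.le, ← Real.rpow_add hc0]
            congr 1; norm_num
          rw [e1, ← mul_assoc]
          have := hdv c
          gcongr
        have hsplit : ((a:ℝ) * b) ^ (-(1 / 4) : ℝ) ≤ (B:ℝ) ^ (-(1 / 8) : ℝ) *
            (Real.exp (|2 * Real.pi * (m:ℝ) / α| - 1)) ^ (-(1 / 8) : ℝ) := by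
          have e1 : ((a:ℝ) * b) ^ (-(1 / 4) : ℝ) = ((a:ℝ) * b) ^ (-(1 / 8) : ℝ) * ((a:ℝ) * b) ^ (-(1 / 8) : ℝ) := by
            rw [← Real.rpow_add (by positivity)]; norm_num
          rw [e1]
          have k1 := Real.rpow_le_rpow_of_nonpos hBpos hab1 (by norm_num : (-(1 / 8) : ℝ) ≤ 0)
          have k2 := Real.rpow_le_rpow_of_nonpos (Real.exp_pos _) hab2 (by norm_num : (-(1 / 8) : ℝ) ≤ 0)
          gcongr
        have hexp : (Real.exp (|2 * Real.pi * (m:ℝ) / α| - 1)) ^ (-(1 / 8) : ℝ) ≤ 8 * A ^ 2 * lam m := by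
          rw [← Real.exp_mul]
          have h6 := exp_neg_le_lam (c := 2 * Real.pi / (8 * A)) (by positivity) m hm.1
          have h7 : (|2 * Real.pi * (m:ℝ) / α| - 1) * (-(1 / 8)) ≤ 1 / 8 + -(2 * Real.pi / (8 * A) * |(m:ℝ)|) := by
            have : 2 * Real.pi / (8 * A) * |(m:ℝ)| = (2 * Real.pi / A * |(m:ℝ)|) / 8 := by
              field_simp
            rw [this]
            linarith
          have h8 : Real.exp (1 / 8) ≤ 2 := by
            have e2 := Real.exp_one_lt_d9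
            have e3 : Real.exp (1 / 8) ^ 8 = Real.exp 1 := by
              rw [← Real.exp_nat_mul]; norm_num
            by_contra hc
            rw [not_le] at hc
            have : (2:ℝ) ^ 8 < Real.exp (1 / 8) ^ 8 := pow_lt_pow_left₀ hc (by norm_num) (by norm_num)
            rw [e3] at this
            linarith
          have h9 : 2 / (2 * Real.pi / (8 * A)) ^ 2 ≤ 4 * A ^ 2 := by
            have e4 : 2 / (2 * Real.pi / (8 * A)) ^ 2 = 32 * A ^ 2 / Real.pi ^ 2 := by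
              field_simp
              norm_num
            rw [e4, div_le_iff₀ (by positivity)]
            have : 9 ≤ Real.pi ^ 2 := by nlinarith
            have hA2 : 0 ≤ A ^ 2 := by positivity
            nlinarith
          calc Real.exp ((|2 * Real.pi * (m:ℝ) / α| - 1) * (-(1 / 8))) ≤
              Real.exp (1 / 8 + -(2 * Real.pi / (8 * A) * |(m:ℝ)|)) := Real.exp_le_exp.mpr h7
            _ = Real.exp (1 / 8) * Real.exp (-(2 * Real.pi / (8 * A) * |(m:ℝ)|)) := Real.exp_add _ _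
            _ ≤ 2 * (2 / (2 * Real.pi / (8 * A)) ^ 2 * lam m) := by gcongr
            _ ≤ 2 * (4 * A ^ 2 * lam m) := by gcongr
            _ = _ := by ring
        have h10 := hdec a ha
        have h11 := hdec b hb
        have n1 : 0 ≤ dv κ a * (Real.sqrt a)⁻¹ := mul_nonneg (dv_nonneg hκ0 a) (by positivity)
        have n2 : 0 ≤ dv κ b * (Real.sqrt b)⁻¹ := mul_nonneg (dv_nonneg hκ0 b) (by positivity)
        calc dv κ a * dv κ b * (Real.sqrt a)⁻¹ * (Real.sqrt b)⁻¹ =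
            (dv κ a * (Real.sqrt a)⁻¹) * (dv κ b * (Real.sqrt b)⁻¹) := by ring
          _ ≤ (C4 * (a:ℝ) ^ (-(1 / 4) : ℝ)) * (C4 * (b:ℝ) ^ (-(1 / 4) : ℝ)) := by gcongr
          _ = C4 ^ 2 * ((a:ℝ) * b) ^ (-(1 / 4) : ℝ) := by
              rw [Real.mul_rpow ha0.le hb0.le]; ring
          _ ≤ C4 ^ 2 * ((B:ℝ) ^ (-(1 / 8) : ℝ) * (8 * A ^ 2 * lam m)) := by
              gcongr
              exact hsplit.trans (by gcongr)
          _ = K * lam m := by rw [hK]; ring)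
      rw [← hU] at h2
      linarith
    · rw [not_le] at h1
      rcases le_or_gt 0 (2 * Real.pi * (m:ℝ) / α) with h2 | h2
      · rw [abs_of_nonneg h2] at h1
        have h3 := NN_crude f g X Y ρ (2 * Real.pi * m / α) C e hC he he4 hX hY hρ hρ1 (by linarith) hfC hgC
        have h4 : Real.exp (-(2 * Real.pi * m / α / 4)) ≤ Real.exp (-(L0 / 4)) :=
          Real.exp_le_exp.mpr (by linarith)
        have h5 : Y * (C * C * (16 * ρ * X ^ (1 / 2 + e) + 2 * Real.exp (-(2 * Real.pi * m / α / 4)))) ≤ W := by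
          rw [hW]; gcongr
        linarith
      · rw [abs_of_neg h2] at h1
        rw [NN_neg f g X Y ρ _ hY hρ1 (by linarith)]
        linarith
  unfold NS
  refine (sum_le_sum key).trans ?_
  rw [sum_add_distrib, sum_const, nsmul_eq_mul, ← sum_mul, ← mul_sum]
  have h1 : ∑ m ∈ (Icc (-(M:ℤ)) M).erase 0, lam m ≤ Lam := sum_lam_le _
  have h2 : (((Icc (-(M:ℤ)) M).erase 0).card : ℝ) = 2 * M := by
    rw [card_erase_of_mem (by rw [mem_Icc]; constructor <;> omega), Int.card_Icc]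
    have : ((M:ℤ) + 1 - -(M:ℤ)).toNat - 1 = 2 * M := by omega
    rw [this]; push_cast; ring
  rw [h2]
  have h3 : K * (∑ m ∈ (Icc (-(M:ℤ)) M).erase 0, lam m) * U ≤ ε * U := by
    have : K * (∑ m ∈ (Icc (-(M:ℤ)) M).erase 0, lam m) ≤ ε := by
      calc _ ≤ K * Lam := by gcongr
        _ ≤ ε := hKL
    gcongr
  linarith

end
end Pool.Agent.W5h80.AP
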