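import Pool.Agent.R311.BS.WC
import Pool.Agent.W5h80.AP.R

set_option autoImplicit false

/-! The polynomials for rational exponents `a / b`. -/

namespace Pool.Agent.W5h80.AP

open Finset Filter Topology
open Pool.Agent.H306R2 Pool.Agent.R311.BS

noncomputable section

/-- the exponent `1 / (2 b)` -/
def hb (b : ℕ) : ℝ := 1 / (2 * b)

lemma hb_nonneg (b : ℕ) : 0 ≤ hb b := by unfold hb; positivity

lemma hb_le_one {b : ℕ} (h : 1 ≤ b) : hb b ≤ 1 := by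
  unfold hb
  have : (1:ℝ) ≤ b := by exact_mod_cast h
  rw [div_le_one (by positivity)]
  linarith

lemma hb_mul {a b : ℕ} (h : 1 ≤ b) : (a:ℝ) * hb b = (a:ℝ) / (2 * b) := by
  unfold hb; ring

lemma hb_sub {a b : ℕ} (h : 1 ≤ b) (hab : 2 * b ≤ a) : ((a - 2 * b : ℕ) : ℝ) * hb b + 1 = (a:ℝ) / (2 * b) := by
  have hb0 : (b:ℝ) ≠ 0 := by exact_mod_cast (by omega : b ≠ 0)
  unfold hb
  rw [Nat.cast_sub hab]
  push_cast
  field_simp
  ring

/-- the polynomial standing for `ζ^{1/(2b)}` to the power `a - 2b` times `ζ` -/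
def Bq (a b P : ℕ) (N X : ℝ) : ArithmeticFunction ℝ := cA P N (hb b) ^ (a - 2 * b) * zP P X

lemma Bq_le (a b : ℕ) (h : 1 ≤ b) (hab : 2 * b ≤ a) (P : ℕ) (N X : ℝ) (n : ℕ) (hn : (n:ℝ) ≤ X) :
    |Bq a b P N X n| ≤ dv ((a:ℝ) / (2 * b)) n ∧ (Bq a b P N X n ≠ 0 → n.Coprime P) := by
  have h1 := mul_mono_le X (f := cA P N (hb b) ^ (a - 2 * b)) (f' := xA P (((a - 2 * b : ℕ) : ℝ) * hb b))
    (g := zP P X) (g' := xA P 1) (fun m _ => cA_pow_le P N (hb_nonneg b) (a - 2 * b) m)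
    (fun m hm => by
      rw [zP_eq P X m hm]
      exact ⟨xA_nonneg P zero_le_one m, le_refl _⟩) n hn
  rw [xA_mul, hb_sub h hab] at h1
  have h2 : 0 ≤ (a:ℝ) / (2 * b) := by positivity
  constructor
  · unfold Bq
    rw [abs_of_nonneg h1.1]
    exact h1.2.trans (xA_le P h2 n)
  · intro h0
    apply xA_coprime (P := P) (α := (a:ℝ) / (2 * b))
    intro h3
    rw [h3] at h1
    exact h0 (le_antisymm h1.2 h1.1)

lemma Bq_eq (a b : ℕ) (h : 1 ≤ b) (hab : 2 * b ≤ a) (P : ℕ) (N X : ℝ) (hNX : N ≤ X) (n : ℕ)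
    (hn : (n:ℝ) ≤ N) : Bq a b P N X n = xA P ((a:ℝ) / (2 * b)) n := by
  have h1 := mul_congr_le N (f := cA P N (hb b) ^ (a - 2 * b)) (f' := xA P (((a - 2 * b : ℕ) : ℝ) * hb b))
    (g := zP P X) (g' := xA P 1) (fun m hm => cA_pow_eq P (hb b) (a - 2 * b) m hm)
    (fun m hm => zP_eq P X m (hm.trans hNX)) n hn
  rw [xA_mul, hb_sub h hab] at h1
  exact h1

lemma Bq_Dp (a b P : ℕ) (hP : 1 ≤ P) (N X : ℝ) (hN : 1 ≤ N) (hX : 0 ≤ X) (s : ℂ) :
    Dp (Bq a b P N X) (N ^ (a - 2 * b) * (P * X)) s =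
      Dp (cA P N (hb b)) N s ^ (a - 2 * b) * (Dp (muP P) P s * Dp (cA 1 X 1) X s) := by
  have h1 := Dp_pow (cA P N (hb b)) N hN (cA_supp P N (hb b)) s (a - 2 * b)
  have h2 := Dp_mul (muP P) (cA 1 X 1) P X (Nat.cast_nonneg P) hX (muP_supp P hP) (cA_supp 1 X 1) s
  have h3 := Dp_mul (cA P N (hb b) ^ (a - 2 * b)) (muP P * cA 1 X 1) (N ^ (a - 2 * b)) (P * X)
    (by positivity) (by positivity) h1.1 h2.1 s
  rw [h1.2, h2.2] at h3
  exact h3.2

lemma PB_Bq (a b P : ℕ) (hb1 : 1 ≤ b) (N X : ℝ) : PB (Bq a b P N X) (a + 2) := by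
  unfold Bq zP
  have h1 := (PB_cA_one P N (hb_nonneg b) (hb_le_one hb1)).pow (a - 2 * b)
  have h2 := (PB_muP P).mul (PB_cA_one 1 X (α := 1) (by norm_num) (by norm_num))
  refine (h1.mul h2).mono ?_
  simp

lemma BqC_sum (a b : ℕ) (h : 1 ≤ b) (hab : 2 * b ≤ a) (P : ℕ) (N X Y : ℝ) (hN : 1 ≤ N) (hNX : N ≤ X)
    (hNY : N ≤ Y) :
    ∑ n ∈ Icc 1 ⌊Y⌋₊, Bq a b P N X n * cA P N ((a:ℝ) / (2 * b)) n / n = SP ((a:ℝ) / (2 * b)) P ⌊N⌋₊ := by
  unfold SP
  rw [sum_filter]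
  have hsub : Icc 1 ⌊N⌋₊ ⊆ Icc 1 ⌊Y⌋₊ := Icc_subset_Icc_right (Nat.floor_le_floor hNY)
  symm
  rw [← sum_subset hsub]
  · refine sum_congr rfl fun n hn => ?_
    rw [mem_Icc] at hn
    have hnN : (n:ℝ) ≤ N := (Nat.cast_le.mpr hn.2).trans (Nat.floor_le (by linarith))
    rw [Bq_eq a b h hab P N X hNX n hnN, cA_eq P _ hnN, xA_apply]
    split_ifs
    · ring
    · ring
  · intro n _ hn
    rw [mem_Icc, not_and_or] at hn
    rename_i hn2
    rw [mem_Icc] at hn2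
    have : N < n := by
      apply Nat.lt_of_floor_lt
      rcases hn with h | h
      · exact absurd hn2.1 h
      · omega
    rw [cA_supp P N _ n this]
    simp

lemma abs_mul_le {f g : ArithmeticFunction ℝ} {u v : ℝ} (hu : 0 ≤ u)
    (hf : ∀ n, |f n| ≤ dv u n) (hg : ∀ n, |g n| ≤ dv v n) (n : ℕ) : |(f * g) n| ≤ dv (u + v) n := by
  rw [← dA_apply, ← dA_mul, ArithmeticFunction.mul_apply, ArithmeticFunction.mul_apply]
  refine (abs_sum_le_sum_abs _ _).trans (sum_le_sum fun x _ => ?_)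
  rw [abs_mul, dA_apply, dA_apply]
  exact mul_le_mul (hf _) (hg _) (abs_nonneg _) (dv_nonneg hu _)

lemma Bq_any (a b : ℕ) (h : 1 ≤ b) (P : ℕ) (N X : ℝ) (n : ℕ) :
    |Bq a b P N X n| ≤ dv (((a - 2 * b : ℕ) : ℝ) * hb b + 2) n := by
  have hz : ∀ n, |zP P X n| ≤ dv 2 n := by
    intro n
    have h1 : ∀ n, |muP P n| ≤ dv 1 n := by
      intro n
      rcases Nat.eq_zero_or_pos n with h0 | h0
      · subst h0; simp [dv]
      · rw [dv_one_left h0.ne', muP_apply]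
        split_ifs
        · exact_mod_cast ArithmeticFunction.abs_moebius_le_one (n := n)
        · simp
    have h2 : ∀ n, |cA 1 X 1 n| ≤ dv 1 n := by
      intro n
      rw [abs_of_nonneg (cA_nonneg 1 X zero_le_one n)]
      exact (cA_le 1 X zero_le_one n).trans (xA_le 1 zero_le_one n)
    have h3 := abs_mul_le zero_le_one h1 h2 n
    rw [show (1:ℝ) + 1 = 2 by norm_num] at h3
    exact h3
  have hh := hb_nonneg b
  refine abs_mul_le (u := ((a - 2 * b : ℕ) : ℝ) * hb b) (by positivity) (fun n => ?_) hz n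
  have h1 := cA_pow_le P N hh (a - 2 * b) n
  rw [abs_of_nonneg h1.1]
  exact h1.2.trans (xA_le P (by positivity) n)

/-- the elementary inequality replacing Hölder's inequality -/
lemma young_rat (a b : ℕ) (hb1 : 1 ≤ b) (hab : 2 * b ≤ a) (x y z μ : ℝ) (hx : 0 ≤ x) (hy : 0 ≤ y) (hz : 0 ≤ z)
    (hμ : 0 < μ) :
    x * y ^ (a - 2 * b) * z ≤ μ * (y ^ (2 * a) + z ^ 2) + (μ⁻¹) ^ ((a:ℝ) / b - 1) * x ^ ((a:ℝ) / b) := by
  set V := y ^ (2 * a) + z ^ 2 with hV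
  have hV0 : 0 ≤ V := by positivity
  have hb0 : (0:ℝ) < b := by exact_mod_cast (by omega : 0 < b)
  have ha0 : (0:ℝ) < a := by exact_mod_cast (by omega : 0 < a)
  set u := V ^ (1 / (2 * (a:ℝ))) with hu
  have hu0 : 0 ≤ u := Real.rpow_nonneg hV0 _
  have hu2 : u ^ (2 * a) = V := by
    rw [hu, ← Real.rpow_natCast, ← Real.rpow_mul hV0]
    push_cast
    rw [one_div, inv_mul_cancel₀ (by positivity), Real.rpow_one]
  have hyu : y ≤ u := by
    have : y ^ (2 * a) ≤ u ^ (2 * a) := by rw [hu2]; nlinarith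
    exact le_of_pow_le_pow_left₀ (by omega) hu0 this
  have hzu : z ≤ u ^ a := by
    have : z ^ 2 ≤ (u ^ a) ^ 2 := by
      rw [← pow_mul, mul_comm a 2, hu2]
      have : 0 ≤ y ^ (2 * a) := by positivity
      linarith
    exact le_of_pow_le_pow_left₀ (by norm_num) (by positivity) this
  set w := u ^ (2 * b) with hw
  have hw0 : 0 ≤ w := by positivity
  have h1 : x * y ^ (a - 2 * b) * z ≤ x * w ^ ((a:ℝ) / b - 1) := by
    have e : w ^ ((a:ℝ) / b - 1) = u ^ (a - 2 * b) * u ^ a := by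
      rw [hw, ← Real.rpow_natCast, ← Real.rpow_mul hu0, ← pow_add, ← Real.rpow_natCast]
      congr 1
      rw [Nat.cast_add, Nat.cast_sub hab]
      push_cast
      field_simp
      ring
    rw [e, mul_assoc]
    gcongr
  have hVw : V = w * w ^ ((a:ℝ) / b - 1) := by
    rcases hw0.eq_or_lt with h0 | h0
    · have hu' : u = 0 := by
        rw [hw] at h0
        exact pow_eq_zero_iff (by omega) |>.mp h0.symm
      rw [← hu2, hu', ← h0, zero_mul, zero_pow (by omega)]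
    · have e1 := Real.rpow_add h0 1 ((a:ℝ) / b - 1)
      rw [Real.rpow_one] at e1
      rw [← e1, ← hu2, hw, ← Real.rpow_natCast, ← Real.rpow_natCast, ← Real.rpow_mul hu0]
      congr 1
      push_cast
      field_simp
      ring
  refine h1.trans ?_
  have hq1 : 0 ≤ (a:ℝ) / b - 1 := by
    rw [sub_nonneg, le_div_iff₀ hb0, one_mul]
    exact_mod_cast (by omega : b ≤ a)
  rcases le_or_gt x (μ * w) with h | h
  · have h2 : x * w ^ ((a:ℝ) / b - 1) ≤ μ * V := by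
      rw [hVw, ← mul_assoc]
      gcongr
    have : 0 ≤ (μ⁻¹) ^ ((a:ℝ) / b - 1) * x ^ ((a:ℝ) / b) := by positivity
    linarith
  · have hx0 : 0 < x := lt_of_le_of_lt (by positivity) h
    have h2 : w ≤ μ⁻¹ * x := by
      rw [inv_mul_eq_div, le_div_iff₀ hμ]
      linarith
    have h3 : x * w ^ ((a:ℝ) / b - 1) ≤ (μ⁻¹) ^ ((a:ℝ) / b - 1) * x ^ ((a:ℝ) / b) := by
      have e1 := Real.rpow_add hx0 1 ((a:ℝ) / b - 1)
      rw [Real.rpow_one, show 1 + ((a:ℝ) / b - 1) = (a:ℝ) / b by ring] at e1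
      calc x * w ^ ((a:ℝ) / b - 1) ≤ x * (μ⁻¹ * x) ^ ((a:ℝ) / b - 1) := by gcongr
        _ = x * ((μ⁻¹) ^ ((a:ℝ) / b - 1) * x ^ ((a:ℝ) / b - 1)) := by
            rw [Real.mul_rpow (by positivity) hx0.le]
        _ = (μ⁻¹) ^ ((a:ℝ) / b - 1) * (x * x ^ ((a:ℝ) / b - 1)) := by ring
        _ = _ := by rw [e1]
    have : 0 ≤ μ * V := by positivity
    linarith

end
end Pool.Agent.W5h80.AP
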