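import Pool.Agent.R311.BS.WD
import Pool.Agent.W5h80.AP.B

set_option autoImplicit false

/-! The core inequality for one Gaussian window of an arithmetic progression of heights. -/

namespace Pool.Agent.W5h80.AP

open Finset Filter Topology
open Pool.Agent.H306R2 Pool.Agent.R311.BS

noncomputable section

lemma gw_split (τ H R t : ℝ) (hH : 0 < H) (hR : 0 ≤ R) (ht : R ≤ |t - τ|) :
    gw τ H t ≤ 2 * Real.exp (-(R ^ 2 / (2 * H ^ 2))) * gw τ (Real.sqrt 2 * H) t := by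
  have hs : Real.sqrt 2 ^ 2 = 2 := Real.sq_sqrt (by norm_num)
  have hs0 : 0 < Real.sqrt 2 := by positivity
  have hs2 : Real.sqrt 2 ≤ 2 := by nlinarith
  have h1 : R ^ 2 ≤ (t - τ) ^ 2 := by
    rw [← sq_abs (t - τ)]; exact pow_le_pow_left₀ hR ht 2
  unfold gw
  have e1 : -((t - τ) ^ 2 / H ^ 2) = -((t - τ) ^ 2 / (2 * H ^ 2)) + -((t - τ) ^ 2 / (Real.sqrt 2 * H) ^ 2) := by
    rw [mul_pow, hs]
    field_simp
    ring
  rw [e1, Real.exp_add]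
  have h2 : Real.exp (-((t - τ) ^ 2 / (2 * H ^ 2))) ≤ Real.exp (-(R ^ 2 / (2 * H ^ 2))) := by
    apply Real.exp_le_exp.mpr
    apply neg_le_neg
    gcongr
  have h3 : 0 < H * Real.sqrt Real.pi := by
    have := Real.pi_pos
    positivity
  set E1 := Real.exp (-((t - τ) ^ 2 / (2 * H ^ 2)))
  set E2 := Real.exp (-((t - τ) ^ 2 / (Real.sqrt 2 * H) ^ 2))
  set E3 := Real.exp (-(R ^ 2 / (2 * H ^ 2)))
  have hE2 : 0 ≤ E2 := (Real.exp_pos _).le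
  have hE3 : 0 ≤ E3 := (Real.exp_pos _).le
  have e2 : 2 * E3 * (E2 / (Real.sqrt 2 * H * Real.sqrt Real.pi)) =
      (2 / Real.sqrt 2) * (E3 * E2) / (H * Real.sqrt Real.pi) := by
    field_simp
  rw [e2]
  have h4 : 1 ≤ 2 / Real.sqrt 2 := by rw [le_div_iff₀ hs0]; linarith
  apply div_le_div_of_nonneg_right _ h3.le
  have h5 : 0 ≤ E3 * E2 := by positivity
  calc E1 * E2 ≤ E3 * E2 := by gcongr
    _ ≤ (2 / Real.sqrt 2) * (E3 * E2) := by nlinarith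

lemma gw_total (α β τ H ρ : ℝ) (hα : 0 < α) (hH : 0 < H) (hρ : 0 ≤ ρ) (hρα : ρ ≤ 2 * Real.pi / α) :
    α * ∑' k : ℤ, gw τ H (α * k + β) ≤ 1 + far α H ρ := by
  have h := SA_zero α β τ H ρ hα hH hρ hρα
  have e : SA α β τ H 0 = ((α * ∑' k : ℤ, gw τ H (α * k + β) : ℝ) : ℂ) := by
    unfold SA
    push_cast
    congr 1
    refine tsum_congr fun k => ?_
    have : ex 0 (α * k + β) = 1 := by unfold ex; simp
    rw [this, one_mul]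
  rw [e] at h
  have h2 : ((α * ∑' k : ℤ, gw τ H (α * k + β) : ℝ) : ℂ) - 1 =
      ((α * ∑' k : ℤ, gw τ H (α * k + β) - 1 : ℝ) : ℂ) := by push_cast; ring
  rw [h2, Complex.norm_real, Real.norm_eq_abs] at h
  linarith [(abs_le.mp h).2]

lemma sq_sum_le {κ : ℝ} {P : ℕ} {f : ℕ → ℝ} (hf : ∀ n, |f n| ≤ dv κ n)
    (hc : ∀ n : ℕ, f n ≠ 0 → n.Coprime P) (Y : ℝ) :
    ∑ n ∈ Icc 1 ⌊Y⌋₊, f n ^ 2 / n ≤ SP κ P ⌊Y⌋₊ := by
  unfold SP
  rw [sum_filter]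
  refine sum_le_sum fun n _ => ?_
  by_cases h0 : f n = 0
  · rw [h0]
    split_ifs
    · have : 0 ≤ dv κ n ^ 2 / (n:ℝ) := by positivity
      simpa using this
    · simp
  · rw [if_pos (hc n h0)]
    have h1 : f n ^ 2 ≤ dv κ n ^ 2 := by
      rw [← sq_abs (f n)]
      exact pow_le_pow_left₀ (abs_nonneg _) (hf n) 2
    gcongr

theorem core (a b : ℕ) (hb1 : 1 ≤ b) (hab : 2 * b ≤ a) (P : ℕ) (hP : 1 ≤ P)
    (N X ρ τ H R e₁ μ V L Q α β : ℝ) (M : ℕ) (K : Finset ℤ)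
    (hN : 1 ≤ N) (hNX : N ^ a ≤ X) (hα : 0 < α) (hH : 0 < H) (hR : 0 ≤ R) (hρ : 0 ≤ ρ)
    (hρα : 2 * ρ ≤ 2 * Real.pi / α) (he₁ : 0 ≤ e₁) (hμ : 0 < μ)
    (hgap : ∀ n l : ℕ, 1 ≤ n → (n:ℝ) ≤ N ^ (a - 2 * b) * (P * X) → 1 ≤ l → (l:ℝ) ≤ N ^ a → n ≠ l →
      ρ ≤ |Real.log n - Real.log l|)
    (hM : ∀ m : ℤ, m ∉ Icc (-(M:ℤ)) M → ∀ n l : ℕ, 1 ≤ n → (n:ℝ) ≤ N ^ (a - 2 * b) * (P * X) →
      1 ≤ l → (l:ℝ) ≤ N ^ a → ρ ≤ |2 * Real.pi * m / α - Real.log n + Real.log l|)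
    (hfar : far α H ρ ≤ 1 / 2) (hfar2 : far α (Real.sqrt 2 * H) ρ ≤ 1 / 2)
    (hV1 : NS α ρ M (Bq a b P N X) (cA P N ((a:ℝ) / (2 * b))) (N ^ (a - 2 * b) * (P * X)) (N ^ a) ≤ V)
    (hV2 : NS α ρ M (cA P N (hb b) ^ a : ArithmeticFunction ℝ) (cA P N (hb b) ^ a : ArithmeticFunction ℝ)
      (N ^ a) (N ^ a) ≤ V)
    (hV3 : NS α ρ M (cA P N ((a:ℝ) / (2 * b))) (cA P N ((a:ℝ) / (2 * b))) (N ^ a) (N ^ a) ≤ V)
    (hL1 : l1 (Bq a b P N X) (N ^ (a - 2 * b) * (P * X)) * l1 (cA P N ((a:ℝ) / (2 * b))) (N ^ a) ≤ L)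
    (hL2 : l1 (cA P N (hb b) ^ a : ArithmeticFunction ℝ) (N ^ a) *
      l1 (cA P N (hb b) ^ a : ArithmeticFunction ℝ) (N ^ a) ≤ L)
    (hL3 : l1 (cA P N ((a:ℝ) / (2 * b))) (N ^ a) * l1 (cA P N ((a:ℝ) / (2 * b))) (N ^ a) ≤ L)
    (hQ : N ^ (a - 2 * b) * P * l1 (cA P N ((a:ℝ) / (2 * b))) (N ^ a) ≤ Q)
    (hK : ∀ k ∈ K, ‖zl (α * k + β) - zX X (α * k + β)‖ ≤ e₁)
    (hK' : ∀ k : ℤ, k ∉ K → R ≤ |α * k + β - τ|) :
    SP ((a:ℝ) / (2 * b)) P ⌊N⌋₊ - 2 * V - 2 * far α H ρ * L -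
      L * (4 * Real.exp (-(R ^ 2 / (2 * H ^ 2)))) - 2 * (e₁ * Q) ≤
    μ * (2 * SP ((a:ℝ) / (2 * b)) P ⌊N ^ a⌋₊ + 4 * V + 4 * far α H ρ * L) +
      (μ⁻¹) ^ ((a:ℝ) / b - 1) * (P:ℝ) ^ ((a:ℝ) / b) *
        (α * ∑ k ∈ K, ‖zl (α * k + β)‖ ^ ((a:ℝ) / b) * gw τ H (α * k + β)) := by
  obtain ⟨κ, hκdef⟩ : ∃ κ : ℝ, κ = (a:ℝ) / (2 * b) := ⟨_, rfl⟩
  rw [← hκdef] at hV1 hV3 hL1 hL3 hQ ⊢
  have hκ0 : 0 ≤ κ := by rw [hκdef]; positivity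
  have hfar0 := far_nonneg α H ρ
  have hfar20 := far_nonneg α (Real.sqrt 2 * H) ρ
  have hNN : N ≤ N ^ a := by
    calc N = N ^ 1 := (pow_one N).symm
      _ ≤ N ^ a := pow_le_pow_right₀ hN (by omega)
  have hX1 : 1 ≤ X := hN.trans (hNN.trans hNX)
  have hNX' : N ≤ X := hNN.trans hNX
  have hPr : (1:ℝ) ≤ P := by exact_mod_cast hP
  obtain ⟨Y, hY⟩ : ∃ Y : ℝ, Y = N ^ a := ⟨_, rfl⟩
  obtain ⟨Xf, hXf⟩ : ∃ Xf : ℝ, Xf = N ^ (a - 2 * b) * (P * X) := ⟨_, rfl⟩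
  rw [← hY] at hNX hgap hM hV1 hV2 hV3 hL1 hL2 hL3 hQ hNN ⊢
  rw [← hXf] at hgap hM hV1 hL1
  have hXXf : X ≤ Xf := by
    rw [hXf]
    have h1 : 1 ≤ N ^ (a - 2 * b) := one_le_pow₀ hN
    have h2 : X ≤ (P:ℝ) * X := by nlinarith
    calc X ≤ (P:ℝ) * X := h2
      _ ≤ N ^ (a - 2 * b) * (P * X) := by
          have : 0 ≤ (P:ℝ) * X := by positivity
          nlinarith
  have hYXf : Y ≤ Xf := hNX.trans hXXf
  obtain ⟨B, hB⟩ : ∃ B : ArithmeticFunction ℝ, B = Bq a b P N X := ⟨_, rfl⟩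
  obtain ⟨C, hC⟩ : ∃ C : ArithmeticFunction ℝ, C = cA P N κ := ⟨_, rfl⟩
  obtain ⟨A, hA⟩ : ∃ A : ArithmeticFunction ℝ, A = cA P N (hb b) := ⟨_, rfl⟩
  rw [← hB] at hV1 hL1
  rw [← hC] at hV1 hV3 hL1 hL3 hQ
  rw [← hA] at hV2 hL2
  have hCle : ∀ n : ℕ, |C n| ≤ dv κ n := by
    intro n
    rw [hC, abs_of_nonneg (cA_nonneg P N hκ0 n)]
    exact (cA_le P N hκ0 n).trans (xA_le P hκ0 n)
  have hAle : ∀ n : ℕ, |(A ^ a : ArithmeticFunction ℝ) n| ≤ dv κ n := by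
    intro n
    have h1 := cA_pow_le P N (hb_nonneg b) a n
    rw [hb_mul hb1, ← hκdef, ← hA] at h1
    rw [abs_of_nonneg h1.1]
    exact h1.2.trans (xA_le P hκ0 n)
  have hCc : ∀ n : ℕ, C n ≠ 0 → n.Coprime P := by
    intro n hn
    by_contra h
    apply hn
    rw [hC, cA_apply, if_neg fun h' => h h'.2]
  have hAc : ∀ n : ℕ, (A ^ a : ArithmeticFunction ℝ) n ≠ 0 → n.Coprime P := by
    intro n hn
    by_contra h
    apply hn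
    have h1 := cA_pow_le P N (hb_nonneg b) a n
    rw [← hA, xA_apply, if_neg h] at h1
    exact le_antisymm h1.2 h1.1
  have hgapY : ∀ n l : ℕ, 1 ≤ n → (n:ℝ) ≤ Y → 1 ≤ l → (l:ℝ) ≤ Y → n ≠ l → ρ ≤ |Real.log n - Real.log l| :=
    fun n l h1 h2 h3 h4 h5 => hgap n l h1 (h2.trans hYXf) h3 h4 h5
  have hMY : ∀ m : ℤ, m ∉ Icc (-(M:ℤ)) M → ∀ n l : ℕ, 1 ≤ n → (n:ℝ) ≤ Y →
      1 ≤ l → (l:ℝ) ≤ Y → ρ ≤ |2 * Real.pi * m / α - Real.log n + Real.log l| :=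
    fun m hm n l h1 h2 h3 h4 => hM m hm n l h1 (h2.trans hYXf) h3 h4
  obtain ⟨U, hU⟩ : ∃ U : ℝ, U = SP κ P ⌊Y⌋₊ := ⟨_, rfl⟩
  rw [← hU]
  have hNS1 := NS_nonneg α ρ M B C Xf Y
  have hV0 : 0 ≤ V := hNS1.trans hV1
  have hL0 : 0 ≤ L := le_trans (mul_nonneg (l1_nonneg _ _) (l1_nonneg _ _)) hL1
  have hgw0 : ∀ t, 0 ≤ gw τ H t := fun t => gw_nonneg τ H t hH
  -- the main term
  obtain ⟨hs1, hs2⟩ := DS_expand α β τ H ρ Xf Y M B C hα hH hρ hρα hYXf hgap hM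
  obtain ⟨G, hG⟩ : ∃ G : ℝ → ℂ, G = fun t : ℝ => Dp B Xf (1 / 2 + t * Complex.I) *
    (starRingEnd ℂ) (Dp C Y (1 / 2 + t * Complex.I)) := ⟨_, rfl⟩
  obtain ⟨F, hF⟩ : ∃ F : ℤ → ℂ, F = fun k : ℤ => G (α * k + β) * (gw τ H (α * k + β) : ℂ) := ⟨_, rfl⟩
  have hFs : Summable F := by
    rw [hF, hG]
    refine hs1.congr fun k => ?_
    push_cast
    rfl
  have hmain : SP κ P ⌊N⌋₊ - 2 * V - 2 * far α H ρ * L ≤ ‖(α:ℂ) * ∑' k, F k‖ := by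
    have e1 : DS α β τ H (fun t => Dp B Xf (1 / 2 + t * Complex.I) *
        (starRingEnd ℂ) (Dp C Y (1 / 2 + t * Complex.I))) = (α:ℂ) * ∑' k, F k := by
      unfold DS
      rw [hF, hG]
    rw [e1] at hs2
    have e2 := BqC_sum a b hb1 hab P N X Y hN hNX' hNN
    rw [← hκdef, ← hB, ← hC] at e2
    rw [e2] at hs2
    have h2 : ‖((SP κ P ⌊N⌋₊ : ℝ) : ℂ)‖ = SP κ P ⌊N⌋₊ := by
      rw [Complex.norm_real, Real.norm_of_nonneg (SP_nonneg _ _ _)]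
    have h3 := norm_sub_norm_le ((SP κ P ⌊N⌋₊ : ℝ) : ℂ) ((α:ℂ) * ∑' k, F k)
    rw [h2, norm_sub_rev] at h3
    have h4 : (1 + 2 * far α H ρ) * NS α ρ M B C Xf Y ≤ 2 * V := by nlinarith
    have h5 : 2 * far α H ρ * (l1 B Xf * l1 C Y) ≤ 2 * far α H ρ * L := by gcongr
    linarith
  -- norms
  have hGn : ∀ t, ‖G t‖ ≤ L := by
    intro t
    rw [hG]
    simp only
    rw [norm_mul, RCLike.norm_conj]
    refine le_trans (mul_le_mul (Dp_line_norm _ _ _) (Dp_line_norm _ _ _) (norm_nonneg _) (l1_nonneg _ _)) hL1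
  -- splitting
  obtain ⟨F1, hF1⟩ : ∃ F1 : ℤ → ℂ, F1 = fun k => if k ∈ K then F k else 0 := ⟨_, rfl⟩
  obtain ⟨F2, hF2⟩ : ∃ F2 : ℤ → ℂ, F2 = fun k => if k ∈ K then 0 else F k := ⟨_, rfl⟩
  have hF1s : Summable F1 := by
    refine summable_of_ne_finset_zero (s := K) fun k hk => ?_
    rw [hF1]; simp only; rw [if_neg hk]
  have hF2e : ∀ k, F k = F1 k + F2 k := by
    intro k
    rw [hF1, hF2]; simp only
    split_ifs <;> simp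
  have hF2s : Summable F2 := by
    have : F2 = fun k => F k - F1 k := by
      funext k
      rw [hF2e k]; ring
    rw [this]
    exact hFs.sub hF1s
  have hF1t : ∑' k, F1 k = ∑ k ∈ K, F k := by
    rw [tsum_eq_sum (s := K) fun k hk => by rw [hF1]; simp only; rw [if_neg hk]]
    refine sum_congr rfl fun k hk => ?_
    rw [hF1]; simp only; rw [if_pos hk]
  have hsplit : ∑' k, F k = (∑ k ∈ K, F k) + ∑' k, F2 k := by
    rw [← hF1t, ← hF1s.tsum_add hF2s]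
    exact tsum_congr hF2e
  have hs2pos : 0 < Real.sqrt 2 * H := by positivity
  have hgt1 := gw_total α β τ H ρ hα hH hρ (by linarith)
  have hgt2 := gw_total α β τ (Real.sqrt 2 * H) ρ hα hs2pos hρ (by linarith)
  have hout : ‖(α:ℂ) * ∑' k, F2 k‖ ≤ L * (4 * Real.exp (-(R ^ 2 / (2 * H ^ 2)))) := by
    have hE := Real.exp_pos (-(R ^ 2 / (2 * H ^ 2)))
    have hb2 : ∀ k : ℤ, ‖F2 k‖ ≤ L * (2 * Real.exp (-(R ^ 2 / (2 * H ^ 2)))) *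
        gw τ (Real.sqrt 2 * H) (α * k + β) := by
      intro k
      have hg2 := gw_nonneg τ (Real.sqrt 2 * H) (α * k + β) hs2pos
      rw [hF2]; simp only
      split_ifs with hk
      · rw [norm_zero]; positivity
      · rw [hF]
        simp only
        rw [norm_mul, Complex.norm_real, Real.norm_of_nonneg (hgw0 _)]
        have h1 := gw_split τ H R (α * k + β) hH hR (hK' k hk)
        calc ‖G (α * k + β)‖ * gw τ H (α * k + β) ≤ L * (2 * Real.exp (-(R ^ 2 / (2 * H ^ 2))) *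
            gw τ (Real.sqrt 2 * H) (α * k + β)) := by
              refine mul_le_mul (hGn _) h1 (hgw0 _) hL0
          _ = _ := by ring
    have hsum := (gw_summable α β τ (Real.sqrt 2 * H) hα hs2pos).mul_left
      (L * (2 * Real.exp (-(R ^ 2 / (2 * H ^ 2)))))
    have h3 := tsum_of_norm_bounded hsum.hasSum hb2
    rw [tsum_mul_left] at h3
    rw [norm_mul, Complex.norm_real, Real.norm_of_nonneg hα.le]
    calc α * ‖∑' k, F2 k‖ ≤ α * (L * (2 * Real.exp (-(R ^ 2 / (2 * H ^ 2)))) *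
          ∑' k : ℤ, gw τ (Real.sqrt 2 * H) (α * k + β)) := by gcongr
      _ = L * (2 * Real.exp (-(R ^ 2 / (2 * H ^ 2)))) * (α * ∑' k : ℤ, gw τ (Real.sqrt 2 * H) (α * k + β)) := by
          ring
      _ ≤ L * (2 * Real.exp (-(R ^ 2 / (2 * H ^ 2)))) * 2 := by
          gcongr
          linarith
      _ = _ := by ring
  -- replacing the truncated zeta function
  obtain ⟨x, hx⟩ : ∃ x : ℤ → ℝ, x = fun k : ℤ => ‖zl (α * k + β)‖ := ⟨_, rfl⟩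
  obtain ⟨y, hy⟩ : ∃ y : ℤ → ℝ, y = fun k : ℤ => ‖Dp A N (1 / 2 + (α * k + β : ℝ) * Complex.I)‖ := ⟨_, rfl⟩
  obtain ⟨z, hz⟩ : ∃ z : ℤ → ℝ, z = fun k : ℤ => ‖Dp C Y (1 / 2 + (α * k + β : ℝ) * Complex.I)‖ := ⟨_, rfl⟩
  have hlA : l1 A N ≤ N := by
    have := l1_PB (PB_cA_one P N (hb_nonneg b) (hb_le_one hb1)) hN
    rw [zero_add, pow_one, ← hA] at this
    exact this
  have hlM : l1 (muP P) P ≤ P := by
    have := l1_PB (PB_muP P) hPr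
    rw [zero_add, pow_one] at this
    exact this
  have hy0 : ∀ k, 0 ≤ y k := fun k => by rw [hy]; exact norm_nonneg _
  have hz0 : ∀ k, 0 ≤ z k := fun k => by rw [hz]; exact norm_nonneg _
  have hx0 : ∀ k, 0 ≤ x k := fun k => by rw [hx]; exact norm_nonneg _
  have hyN : ∀ k, y k ≤ N := fun k => by rw [hy]; exact (Dp_line_norm _ _ _).trans hlA
  have hzC : ∀ k, z k ≤ l1 C Y := fun k => by rw [hz]; exact Dp_line_norm _ _ _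
  have hpt : ∀ k ∈ K, ‖F k‖ ≤ (e₁ * Q + (μ * (y k ^ (2 * a) + z k ^ 2) + (μ⁻¹) ^ ((a:ℝ) / b - 1) *
      ((P:ℝ) ^ ((a:ℝ) / b) * x k ^ ((a:ℝ) / b)))) * gw τ H (α * k + β) := by
    intro k hk
    rw [hF]
    simp only
    rw [norm_mul, Complex.norm_real, Real.norm_of_nonneg (hgw0 _)]
    refine mul_le_mul_of_nonneg_right ?_ (hgw0 _)
    obtain ⟨w, hw⟩ : ∃ w : ℝ, w = ‖Dp (muP P) P (1 / 2 + (α * k + β : ℝ) * Complex.I)‖ := ⟨_, rfl⟩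
    have hw0 : 0 ≤ w := by rw [hw]; exact norm_nonneg _
    have hwP : w ≤ P := by rw [hw]; exact (Dp_line_norm _ _ _).trans hlM
    have e1 : ‖G (α * k + β)‖ = y k ^ (a - 2 * b) * (w * ‖zX X (α * k + β)‖) * z k := by
      rw [hG, hy, hz, hw]
      simp only
      rw [norm_mul, RCLike.norm_conj]
      have h1 := Bq_Dp a b P hP N X hN (by linarith) (1 / 2 + (α * k + β : ℝ) * Complex.I)
      rw [← hXf, ← hA, ← hB] at h1
      rw [h1, norm_mul, norm_mul, norm_pow]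
      rfl
    rw [e1]
    have h2 : ‖zX X (α * k + β)‖ ≤ x k + e₁ := by
      have h3 := norm_sub_norm_le (zX X (α * k + β)) (zl (α * k + β))
      have h4 := hK k hk
      rw [norm_sub_rev] at h4
      have h5 : x k = ‖zl (α * k + β)‖ := by rw [hx]
      linarith
    have h6 := young_rat a b hb1 hab (w * x k) (y k) (z k) μ (mul_nonneg hw0 (hx0 k)) (hy0 k) (hz0 k) hμ
    have h7 : (w * x k) ^ ((a:ℝ) / b) ≤ (P:ℝ) ^ ((a:ℝ) / b) * x k ^ ((a:ℝ) / b) := by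
      rw [Real.mul_rpow hw0 (hx0 k)]
      have : w ^ ((a:ℝ) / b) ≤ (P:ℝ) ^ ((a:ℝ) / b) := Real.rpow_le_rpow hw0 hwP (by positivity)
      have := Real.rpow_nonneg (hx0 k) ((a:ℝ) / b)
      gcongr
    have h8 : y k ^ (a - 2 * b) * (w * e₁) * z k ≤ e₁ * Q := by
      have k1 : y k ^ (a - 2 * b) ≤ N ^ (a - 2 * b) := pow_le_pow_left₀ (hy0 k) (hyN k) _
      have k2 := hzC k
      have k3 := hz0 k
      calc y k ^ (a - 2 * b) * (w * e₁) * z k ≤ N ^ (a - 2 * b) * (P * e₁) * l1 C Y := by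
            have := pow_nonneg (hy0 k) (a - 2 * b)
            gcongr
        _ = e₁ * (N ^ (a - 2 * b) * P * l1 C Y) := by ring
        _ ≤ e₁ * Q := by gcongr
    have hμ1 : 0 ≤ (μ⁻¹) ^ ((a:ℝ) / b - 1) := by positivity
    calc y k ^ (a - 2 * b) * (w * ‖zX X (α * k + β)‖) * z k ≤ y k ^ (a - 2 * b) * (w * (x k + e₁)) * z k := by
          have := pow_nonneg (hy0 k) (a - 2 * b)
          have := hz0 k
          gcongr
      _ = y k ^ (a - 2 * b) * (w * e₁) * z k + (w * x k) * y k ^ (a - 2 * b) * z k := by ring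
      _ ≤ e₁ * Q + (μ * (y k ^ (2 * a) + z k ^ 2) + (μ⁻¹) ^ ((a:ℝ) / b - 1) * (w * x k) ^ ((a:ℝ) / b)) :=
          add_le_add h8 h6
      _ ≤ _ := by gcongr
  -- the mean squares
  obtain ⟨hA1, hA2⟩ := DS_sq α β τ H ρ Y M (A ^ a : ArithmeticFunction ℝ) hα hH hρ hρα hgapY hMY
  obtain ⟨hC1, hC2⟩ := DS_sq α β τ H ρ Y M C hα hH hρ hρα hgapY hMY
  have hDAq : ∀ s : ℂ, Dp (A ^ a : ArithmeticFunction ℝ) Y s = Dp A N s ^ a := by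
    intro s
    rw [hA, hY]
    exact (Dp_pow (cA P N (hb b)) N hN (cA_supp P N (hb b)) s a).2
  have e3 : ∀ k : ℤ, ‖Dp (A ^ a : ArithmeticFunction ℝ) Y (1 / 2 + (α * k + β : ℝ) * Complex.I)‖ ^ 2 =
      y k ^ (2 * a) := by
    intro k
    rw [hDAq, norm_pow, ← pow_mul, mul_comm a 2, hy]
  have e4 : ∀ k : ℤ, ‖Dp C Y (1 / 2 + (α * k + β : ℝ) * Complex.I)‖ ^ 2 = z k ^ 2 := by
    intro k
    rw [hz]
  simp only [e3] at hA1 hA2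
  simp only [e4] at hC1 hC2
  have hQ0 : 0 ≤ Q := by
    refine le_trans ?_ hQ
    have := l1_nonneg C Y
    positivity
  have hKA : ∑ k ∈ K, y k ^ (2 * a) * gw τ H (α * k + β) ≤ ∑' k : ℤ, y k ^ (2 * a) * gw τ H (α * k + β) :=
    hA1.sum_le_tsum K fun k _ => mul_nonneg (pow_nonneg (hy0 k) _) (hgw0 _)
  have hKC : ∑ k ∈ K, z k ^ 2 * gw τ H (α * k + β) ≤ ∑' k : ℤ, z k ^ 2 * gw τ H (α * k + β) :=
    hC1.sum_le_tsum K fun k _ => mul_nonneg (pow_nonneg (hz0 k) _) (hgw0 _)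
  have hKg : ∑ k ∈ K, gw τ H (α * k + β) ≤ ∑' k : ℤ, gw τ H (α * k + β) :=
    (gw_summable α β τ H hα hH).sum_le_tsum K fun k _ => hgw0 _
  have hin : ‖(α:ℂ) * ∑ k ∈ K, F k‖ ≤ 2 * (e₁ * Q) + μ * (2 * U + 4 * V + 4 * far α H ρ * L) +
      (μ⁻¹) ^ ((a:ℝ) / b - 1) * (P:ℝ) ^ ((a:ℝ) / b) *
        (α * ∑ k ∈ K, x k ^ ((a:ℝ) / b) * gw τ H (α * k + β)) := by
    rw [norm_mul, Complex.norm_real, Real.norm_of_nonneg hα.le]
    have h1 : ‖∑ k ∈ K, F k‖ ≤ e₁ * Q * (∑ k ∈ K, gw τ H (α * k + β)) +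
        μ * ((∑ k ∈ K, y k ^ (2 * a) * gw τ H (α * k + β)) + ∑ k ∈ K, z k ^ 2 * gw τ H (α * k + β)) +
        (μ⁻¹) ^ ((a:ℝ) / b - 1) * (P:ℝ) ^ ((a:ℝ) / b) * ∑ k ∈ K, x k ^ ((a:ℝ) / b) * gw τ H (α * k + β) := by
      refine (norm_sum_le_of_le K hpt).trans (le_of_eq ?_)
      rw [mul_sum, mul_add, mul_sum, mul_sum, mul_sum, ← sum_add_distrib, ← sum_add_distrib, ← sum_add_distrib]
      refine sum_congr rfl fun k _ => ?_
      ring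
    have h2 : α * (e₁ * Q * (∑ k ∈ K, gw τ H (α * k + β))) ≤ 2 * (e₁ * Q) := by
      have : α * ∑ k ∈ K, gw τ H (α * k + β) ≤ 2 := by
        calc _ ≤ α * ∑' k : ℤ, gw τ H (α * k + β) := by gcongr
          _ ≤ 2 := by linarith
      calc _ = e₁ * Q * (α * ∑ k ∈ K, gw τ H (α * k + β)) := by ring
        _ ≤ e₁ * Q * 2 := by gcongr
        _ = _ := by ring
    have h3 : α * ((∑ k ∈ K, y k ^ (2 * a) * gw τ H (α * k + β)) + ∑ k ∈ K, z k ^ 2 * gw τ H (α * k + β)) ≤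
        2 * U + 4 * V + 4 * far α H ρ * L := by
      have s1 := sq_sum_le hAle hAc Y
      have s2 := sq_sum_le hCle hCc Y
      rw [← hU] at s1 s2
      have s3 : (1 + 2 * far α H ρ) * NS α ρ M (A ^ a : ArithmeticFunction ℝ) (A ^ a : ArithmeticFunction ℝ) Y Y ≤
        2 * V := by
        have := NS_nonneg α ρ M (A ^ a : ArithmeticFunction ℝ) (A ^ a : ArithmeticFunction ℝ) Y Y
        nlinarith
      have s4 : (1 + 2 * far α H ρ) * NS α ρ M C C Y Y ≤ 2 * V := by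
        have := NS_nonneg α ρ M C C Y Y
        nlinarith
      have s5 : 2 * far α H ρ * (l1 (A ^ a : ArithmeticFunction ℝ) Y * l1 (A ^ a : ArithmeticFunction ℝ) Y) ≤
        2 * far α H ρ * L := by gcongr
      have s6 : 2 * far α H ρ * (l1 C Y * l1 C Y) ≤ 2 * far α H ρ * L := by gcongr
      have s7 : α * (∑ k ∈ K, y k ^ (2 * a) * gw τ H (α * k + β)) ≤
        α * ∑' k : ℤ, y k ^ (2 * a) * gw τ H (α * k + β) := by gcongr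
      have s8 : α * (∑ k ∈ K, z k ^ 2 * gw τ H (α * k + β)) ≤
        α * ∑' k : ℤ, z k ^ 2 * gw τ H (α * k + β) := by gcongr
      rw [mul_add]
      linarith
    calc α * ‖∑ k ∈ K, F k‖ ≤ α * (e₁ * Q * (∑ k ∈ K, gw τ H (α * k + β)) +
        μ * ((∑ k ∈ K, y k ^ (2 * a) * gw τ H (α * k + β)) + ∑ k ∈ K, z k ^ 2 * gw τ H (α * k + β)) +
        (μ⁻¹) ^ ((a:ℝ) / b - 1) * (P:ℝ) ^ ((a:ℝ) / b) * ∑ k ∈ K, x k ^ ((a:ℝ) / b) * gw τ H (α * k + β)) := by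
          gcongr
      _ = α * (e₁ * Q * (∑ k ∈ K, gw τ H (α * k + β))) +
        μ * (α * ((∑ k ∈ K, y k ^ (2 * a) * gw τ H (α * k + β)) + ∑ k ∈ K, z k ^ 2 * gw τ H (α * k + β))) +
        (μ⁻¹) ^ ((a:ℝ) / b - 1) * (P:ℝ) ^ ((a:ℝ) / b) *
          (α * ∑ k ∈ K, x k ^ ((a:ℝ) / b) * gw τ H (α * k + β)) := by ring
      _ ≤ _ := by gcongr
  have hxk : ∑ k ∈ K, x k ^ ((a:ℝ) / b) * gw τ H (α * k + β) =
      ∑ k ∈ K, ‖zl (α * k + β)‖ ^ ((a:ℝ) / b) * gw τ H (α * k + β) := by rw [hx]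
  rw [hxk] at hin
  have htri : ‖(α:ℂ) * ∑' k, F k‖ ≤ ‖(α:ℂ) * ∑ k ∈ K, F k‖ + ‖(α:ℂ) * ∑' k, F2 k‖ := by
    rw [hsplit, mul_add]
    exact norm_add_le _ _
  linarith

end
end Pool.Agent.W5h80.AP
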