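import Pool.Agent.R311.BS.WE
import Pool.Agent.W5h80.AP.W

set_option autoImplicit false

/-! Choice of the parameters. -/

namespace Pool.Agent.W5h80.AP

open Finset Filter Topology
open Pool.Agent.H306R2 Pool.Agent.R311.BS

noncomputable section

/-- the indices of the progression in `[u, v]` -/
def KI (α β u v : ℝ) : Finset ℤ := Icc ⌈(u - β) / α⌉ ⌊(v - β) / α⌋

lemma mem_KI {α β u v : ℝ} (hα : 0 < α) (k : ℤ) : k ∈ KI α β u v ↔ u ≤ α * k + β ∧ α * k + β ≤ v := by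
  unfold KI
  rw [mem_Icc, Int.ceil_le, Int.le_floor, div_le_iff₀ hα, le_div_iff₀ hα]
  constructor
  · rintro ⟨h1, h2⟩; constructor <;> linarith
  · rintro ⟨h1, h2⟩; constructor <;> linarith

lemma far_le {α A H ρ : ℝ} (hα : 0 < α) (hαA : α ≤ A) (hH : 1 ≤ H) :
    far α H ρ ≤ (1 + A ^ 2) * Lam * Real.exp (-(H ^ 2 * ρ ^ 2 / 8)) := by
  have hπ := Real.pi_pos
  have hπ3 := Real.pi_gt_three
  have hLam := Lam_nonneg
  have h1 : 4 / (H ^ 2 * (2 * Real.pi / α) ^ 2 / 8) ≤ A ^ 2 := by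
    have e1 : 4 / (H ^ 2 * (2 * Real.pi / α) ^ 2 / 8) = 8 * α ^ 2 / (H ^ 2 * Real.pi ^ 2) := by
      field_simp
      norm_num
    rw [e1, div_le_iff₀ (by positivity)]
    have h2 : 9 ≤ Real.pi ^ 2 := by nlinarith
    have h3 : 1 ≤ H ^ 2 := one_le_pow₀ hH
    have h4 : α ^ 2 ≤ A ^ 2 := pow_le_pow_left₀ hα.le hαA 2
    have h5 : 0 ≤ A ^ 2 := by positivity
    have h6 : 8 ≤ H ^ 2 * Real.pi ^ 2 := by nlinarith
    nlinarith
  unfold far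
  have hE := Real.exp_pos (-(H ^ 2 * ρ ^ 2 / 8))
  calc Real.exp (-(H ^ 2 * ρ ^ 2 / 8)) * ((1 + 4 / (H ^ 2 * (2 * Real.pi / α) ^ 2 / 8)) * Lam) ≤
      Real.exp (-(H ^ 2 * ρ ^ 2 / 8)) * ((1 + A ^ 2) * Lam) := by gcongr
    _ = _ := by ring

lemma fin_arith2 {S U V W ε c₂ μ f1 f2 f3 f4 G : ℝ}
    (h : S - 2 * V - f1 - f2 - f3 ≤ μ * (2 * U + 4 * V + f4) + G)
    (hV : V = ε * U + W) (hW : W ≤ 1) (hε : ε ≤ c₂ / 16) (hε1 : ε ≤ 1) (hU : 1 ≤ U)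
    (hμ : μ = c₂ / 48) (hc : 0 < c₂) (hcU : c₂ * U ≤ S) (h1 : f1 ≤ 1) (h2 : f2 ≤ 1) (h3 : f3 ≤ 1) (h4 : f4 ≤ 2)
    (hS : 100 ≤ S) : S / 4 ≤ G := by
  have hV1 : 2 * V ≤ S / 8 + 2 := by
    rw [hV]
    have : ε * U ≤ S / 16 := by
      calc ε * U ≤ c₂ / 16 * U := by gcongr
        _ = c₂ * U / 16 := by ring
        _ ≤ S / 16 := by linarith
    linarith
  have hV2 : V ≤ U + 1 := by
    rw [hV]
    have : ε * U ≤ 1 * U := by gcongr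
    linarith
  have hμ0 : 0 < μ := by rw [hμ]; positivity
  have h5 : μ * (2 * U + 4 * V + f4) ≤ S / 4 := by
    calc μ * (2 * U + 4 * V + f4) ≤ μ * (12 * U) := by
          apply mul_le_mul_of_nonneg_left _ hμ0.le
          linarith
      _ = c₂ * U / 4 := by rw [hμ]; ring
      _ ≤ S / 4 := by linarith
  linarith

lemma le_abs_shift {θ x y L1 ρ : ℝ} (hx0 : 0 ≤ x) (hy0 : 0 ≤ y) (h1 : x + y + 1 ≤ L1) (h2 : L1 ≤ |θ|)
    (hρ : ρ ≤ 1) : ρ ≤ |θ - x + y| := by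
  have h3 : |θ| ≤ |θ - x + y| + |x - y| := by
    calc |θ| = |(θ - x + y) + (x - y)| := by ring_nf
      _ ≤ _ := abs_add_le _ _
  have h4 : |x - y| ≤ x + y := by
    rw [abs_le]; constructor <;> linarith
  linarith

lemma L1_small {A K1 η T Xf Y P : ℝ} (hA : 0 < A) (hη : 0 < η) (hη1 : η ≤ 1) (hT1 : 1 ≤ T) (hP : 1 ≤ P)
    (hK1 : K1 = Real.log (10 * P) + 1) (h4 : A * K1 + 6 * A / η ≤ T ^ (η / 2)) (hXf1 : 1 ≤ Xf)
    (hXfT2 : Xf ≤ 10 * P * T ^ 2) (hY1 : 1 ≤ Y) (hYT : Y ≤ T ^ η) :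
    A * (Real.log Xf + Real.log Y + 1) ≤ T ^ η := by
  have hT0 : 0 < T := by linarith
  have hlog : 0 ≤ Real.log T := Real.log_nonneg hT1
  have hK10 : 0 ≤ K1 := by
    rw [hK1]
    have := Real.log_nonneg (by linarith : (1:ℝ) ≤ 10 * P)
    linarith
  have e1 : Real.log Xf ≤ Real.log (10 * P) + 2 * Real.log T := by
    have : Real.log Xf ≤ Real.log (10 * P * T ^ 2) := Real.log_le_log (by linarith) hXfT2
    rw [Real.log_mul (by positivity) (by positivity), Real.log_pow] at this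
    exact_mod_cast this
  have e2 : Real.log Y ≤ Real.log T := by
    have : Real.log Y ≤ η * Real.log T := by
      rw [← Real.log_rpow hT0]
      exact Real.log_le_log (by linarith) hYT
    nlinarith
  have e3 : Real.log T ≤ T ^ (η / 2) / (η / 2) := Real.log_le_rpow_div hT0.le (by positivity)
  have e4 : 1 ≤ T ^ (η / 2) := Real.one_le_rpow hT1 (by positivity)
  have e5 : T ^ (η / 2) * T ^ (η / 2) = T ^ η := by rw [← Real.rpow_add hT0]; congr 1; ring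
  have e6 : K1 ≤ K1 * T ^ (η / 2) := by nlinarith
  calc A * (Real.log Xf + Real.log Y + 1) ≤ A * (K1 * T ^ (η / 2) + 3 * (T ^ (η / 2) / (η / 2))) := by
        apply mul_le_mul_of_nonneg_left _ hA.le
        linarith
    _ = (A * K1 + 6 * A / η) * T ^ (η / 2) := by
        field_simp
        ring
    _ ≤ T ^ (η / 2) * T ^ (η / 2) := by gcongr
    _ = T ^ η := e5

lemma gap_fact {Xf Y Z ρ : ℝ} (hY1 : 1 ≤ Y) (hYZ : Y * Real.exp 1 ≤ Z) (hρ0 : 0 < ρ) (hρ1 : ρ ≤ 1)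
    (hρ2 : 2 * ρ ≤ 1 / (Z * Y)) : ∀ n l : ℕ, 1 ≤ n → (n:ℝ) ≤ Xf → 1 ≤ l → (l:ℝ) ≤ Y → n ≠ l →
      ρ ≤ |Real.log n - Real.log l| := by
  intro n l hn _ hl hlY hne
  have hYZ' : Y ≤ Z := by
    refine le_trans ?_ hYZ
    have : 1 ≤ Real.exp 1 := Real.one_le_exp (by norm_num)
    nlinarith
  have hZpos : 0 < Z := by linarith
  have hl0 : (0:ℝ) < l := by exact_mod_cast hl
  by_cases hnZ : (n:ℝ) ≤ Z
  · have g1 := log_gap hn hl hne Z hnZ (hlY.trans hYZ')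
    refine le_trans ?_ g1
    have g2 : 1 / (Z * Y) ≤ 1 / Z := one_div_le_one_div_of_le hZpos (by nlinarith)
    linarith
  · rw [not_le] at hnZ
    have g1 : Real.log l + 1 ≤ Real.log n := by
      rw [← Real.log_exp 1, ← Real.log_mul hl0.ne' (Real.exp_ne_zero _)]
      apply Real.log_le_log (by positivity)
      have : l * Real.exp 1 ≤ Y * Real.exp 1 := by gcongr
      linarith
    rw [abs_of_nonneg (by linarith)]
    linarith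

lemma M_fact {α A Xf Y ρ L : ℝ} {M : ℕ} (hα : 0 < α) (hαA : α ≤ A) (hρ1 : ρ ≤ 1)
    (hL1 : A * (Real.log Xf + Real.log Y + 1) ≤ L) (hM1 : L ≤ M) (hL : 0 ≤ L) :
    ∀ m : ℤ, m ∉ Icc (-(M:ℤ)) M → ∀ n l : ℕ, 1 ≤ n → (n:ℝ) ≤ Xf →
      1 ≤ l → (l:ℝ) ≤ Y → ρ ≤ |2 * Real.pi * m / α - Real.log n + Real.log l| := by
  intro m hm n l hn hnX hl hlY
  have hπ3 := Real.pi_gt_three
  have hA : 0 < A := by linarith
  have hn1 : (1:ℝ) ≤ n := by exact_mod_cast hn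
  have hl1 : (1:ℝ) ≤ l := by exact_mod_cast hl
  have hmM : (M:ℝ) ≤ |(m:ℝ)| := by
    have : (M:ℤ) ≤ |m| := by
      rw [mem_Icc, not_and_or, not_le, not_le] at hm
      rcases hm with h | h
      · have := neg_le_abs m; omega
      · have := le_abs_self m; omega
    rw [← Int.cast_abs]
    exact_mod_cast this
  refine le_abs_shift (Real.log_nonneg hn1) (Real.log_nonneg hl1)
    (L1 := Real.log Xf + Real.log Y + 1) ?_ ?_ hρ1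
  · have e1 : Real.log n ≤ Real.log Xf := Real.log_le_log (by linarith) hnX
    have e2 : Real.log l ≤ Real.log Y := Real.log_le_log (by linarith) hlY
    linarith
  · have e1 : |2 * Real.pi * (m:ℝ) / α| = 2 * Real.pi / α * |(m:ℝ)| := by
      rw [abs_div, abs_mul, abs_of_pos (by positivity : (0:ℝ) < 2 * Real.pi), abs_of_pos hα]
      ring
    rw [e1]
    have e2 : Real.log Xf + Real.log Y + 1 ≤ L / A := by
      rw [le_div_iff₀ hA, mul_comm]; exact hL1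
    refine e2.trans ?_
    calc L / A ≤ L / α := by gcongr
      _ = 1 / α * L := by ring
      _ ≤ 2 * Real.pi / α * |(m:ℝ)| := by
          have : L ≤ |(m:ℝ)| := hM1.trans hmM
          gcongr
          linarith

lemma app_fact {T τ R : ℝ} {X₀ : ℕ} (hT : 10 ≤ T) (hτ1 : T ≤ τ) (hτ2 : τ ≤ 3 * T) (hRT : R ≤ T / 4)
    (hX3 : 3 * τ ≤ X₀) (hX4 : (X₀:ℝ) ≤ 3 * τ + 1) :
    ∀ t : ℝ, τ - R ≤ t → t ≤ τ + R → ‖zl t - zX X₀ t‖ ≤ 1575 * (Real.sqrt 2 * T ^ (-(1 / 2) : ℝ)) := by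
  intro t ht1' ht2'
  have hT0 : 0 < T := by linarith
  have ht1 : T / 2 ≤ t := by linarith
  have ht2 : t ≤ τ + T / 4 := by linarith
  have ht3 : τ - T / 4 ≤ t := by linarith
  have h := Pool.Agent.Y210.R9.zap0 t X₀ (by linarith) (by linarith) (by linarith)
  unfold zl
  rw [zX_eq]
  refine h.trans ?_
  have h5 : t ^ (-(1 / 2) : ℝ) ≤ (T / 2) ^ (-(1 / 2) : ℝ) :=
    Real.rpow_le_rpow_of_nonpos (by linarith) ht1 (by norm_num)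
  have h6 : (T / 2) ^ (-(1 / 2) : ℝ) = Real.sqrt 2 * T ^ (-(1 / 2) : ℝ) := by
    rw [Real.div_rpow hT0.le (by norm_num), Real.rpow_neg (by norm_num : (0:ℝ) ≤ 2), div_inv_eq_mul,
      Real.sqrt_eq_rpow, mul_comm]
  rw [h6] at h5
  gcongr

lemma W_small {C P T η ρ Xf Y L0 : ℝ} {M : ℕ} (hη : 0 < η) (hη64 : η ≤ 1 / 64) (hT1 : 1 ≤ T) (hP : 1 ≤ P)
    (hC : 0 ≤ C) (hρ : ρ = T ^ (-(1 / 2 + 6 * η))) (hXf0 : 0 ≤ Xf) (hXfT : Xf ≤ 10 * P * T ^ (1 + η))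
    (hL0 : L0 = 12 * η * Real.log T) (hM2 : (M:ℝ) ≤ 2 * T ^ η) (hY0 : 0 ≤ Y) (hYT : Y ≤ T ^ η) :
    2 * M * (Y * (C * C * (16 * ρ * Xf ^ (1 / 2 + η) + 2 * Real.exp (-(L0 / 4))))) ≤
      4 * C ^ 2 * (160 * P + 2) * T ^ (-η) := by
  have hT0 : 0 < T := by linarith
  have hρ0 : 0 < ρ := by rw [hρ]; positivity
  have e1 : ρ * Xf ^ (1 / 2 + η) ≤ 10 * P * T ^ (-(4 * η)) := by
    calc ρ * Xf ^ (1 / 2 + η) ≤ ρ * (10 * P * T ^ (1 + η)) ^ (1 / 2 + η) := by gcongr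
      _ = ρ * ((10 * P) ^ (1 / 2 + η) * T ^ ((1 + η) * (1 / 2 + η))) := by
          rw [Real.mul_rpow (by positivity) (by positivity), ← Real.rpow_mul hT0.le]
      _ ≤ ρ * ((10 * P) ^ (1:ℝ) * T ^ (1 / 2 + 2 * η)) := by
          have g1 : (10 * P) ^ (1 / 2 + η) ≤ (10 * P) ^ (1:ℝ) :=
            Real.rpow_le_rpow_of_exponent_le (by linarith) (by linarith)
          have g2 : T ^ ((1 + η) * (1 / 2 + η)) ≤ T ^ (1 / 2 + 2 * η) :=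
            Real.rpow_le_rpow_of_exponent_le hT1 (by nlinarith)
          gcongr
      _ = 10 * P * (T ^ (-(1 / 2 + 6 * η)) * T ^ (1 / 2 + 2 * η)) := by
          rw [Real.rpow_one, hρ]; ring
      _ = _ := by rw [← Real.rpow_add hT0]; congr 2; ring
  have e2 : Real.exp (-(L0 / 4)) = T ^ (-(3 * η)) := by
    rw [hL0, Real.rpow_def_of_pos hT0]; congr 1; ring
  have e3 : T ^ (-(4 * η)) ≤ T ^ (-(3 * η)) := Real.rpow_le_rpow_of_exponent_le hT1 (by linarith)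
  have e4 : ρ * Xf ^ (1 / 2 + η) ≤ 10 * P * T ^ (-(3 * η)) := by
    refine e1.trans ?_
    gcongr
  calc 2 * M * (Y * (C * C * (16 * ρ * Xf ^ (1 / 2 + η) + 2 * Real.exp (-(L0 / 4))))) =
      2 * M * (Y * (C * C * (16 * (ρ * Xf ^ (1 / 2 + η)) + 2 * T ^ (-(3 * η))))) := by
        rw [e2]; ring
    _ ≤ 2 * (2 * T ^ η) * (T ^ η * (C * C * (16 * (10 * P * T ^ (-(3 * η))) + 2 * T ^ (-(3 * η))))) := by
        gcongr
    _ = 4 * C ^ 2 * (160 * P + 2) * (T ^ η * T ^ η * T ^ (-(3 * η))) := by ring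
    _ = 4 * C ^ 2 * (160 * P + 2) * T ^ (-η) := by
        rw [← Real.rpow_add hT0, ← Real.rpow_add hT0]; congr 2; ring

lemma Z_facts {T η Y ρ L0 Z : ℝ} (hη : 0 < η) (hη64 : η ≤ 1 / 64) (hT1 : 1 ≤ T)
    (hρ : ρ = T ^ (-(1 / 2 + 6 * η))) (hL0 : L0 = 12 * η * Real.log T) (hY1 : 1 ≤ Y) (hYT : Y ≤ T ^ η)
    (hZdef : Z = Y * Real.exp (L0 + 1)) (h12 : 6 * T ^ (-(1 / 2 - 8 * η)) ≤ 1)
    (h11 : 1 ≤ η * Real.log T) :
    Z ≤ 3 * T ∧ Y * Real.exp 1 ≤ Z ∧ Y ≤ Z ∧ 2 * ρ ≤ 1 / (Z * Y) ∧ Real.log Y + 1 ≤ L0 := by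
  have hT0 : 0 < T := by linarith
  have hlog : 0 ≤ Real.log T := Real.log_nonneg hT1
  have hexp : Real.exp (L0 + 1) ≤ 3 * T ^ (12 * η) := by
    rw [hL0, Real.exp_add]
    have e1 : Real.exp (12 * η * Real.log T) = T ^ (12 * η) := by
      rw [Real.rpow_def_of_pos hT0]; congr 1; ring
    have e2 : Real.exp 1 ≤ 3 := by have := Real.exp_one_lt_d9; linarith
    rw [e1]
    calc T ^ (12 * η) * Real.exp 1 ≤ T ^ (12 * η) * 3 := by gcongr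
      _ = _ := by ring
  have hZ1 : Z ≤ 3 * T ^ (13 * η) := by
    rw [hZdef]
    calc _ ≤ T ^ η * (3 * T ^ (12 * η)) := by gcongr
      _ = 3 * (T ^ η * T ^ (12 * η)) := by ring
      _ = _ := by rw [← Real.rpow_add hT0]; congr 2; ring
  have hL0pos : 0 ≤ L0 := by rw [hL0]; positivity
  have hYZ : Y * Real.exp 1 ≤ Z := by
    rw [hZdef]
    gcongr
    linarith
  have hYZ' : Y ≤ Z := by
    refine le_trans ?_ hYZ
    have : 1 ≤ Real.exp 1 := Real.one_le_exp (by norm_num)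
    nlinarith
  have hZpos : 0 < Z := by linarith
  have hZT : Z ≤ 3 * T := by
    have e1 : T ^ (13 * η) ≤ T := by
      calc T ^ (13 * η) ≤ T ^ (1:ℝ) := Real.rpow_le_rpow_of_exponent_le hT1 (by linarith)
        _ = T := Real.rpow_one T
    linarith
  have hρ0 : 0 < ρ := by rw [hρ]; positivity
  refine ⟨hZT, hYZ, hYZ', ?_, ?_⟩
  · rw [le_div_iff₀ (by positivity)]
    calc 2 * ρ * (Z * Y) ≤ 2 * ρ * ((3 * T ^ (13 * η)) * T ^ η) := by gcongr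
      _ = 6 * (T ^ (-(1 / 2 + 6 * η)) * (T ^ (13 * η) * T ^ η)) := by rw [hρ]; ring
      _ = 6 * T ^ (-(1 / 2 - 8 * η)) := by
          rw [← Real.rpow_add hT0, ← Real.rpow_add hT0]; congr 2; ring
      _ ≤ 1 := h12
  · have e1 : Real.log Y ≤ η * Real.log T := by
      rw [← Real.log_rpow hT0]
      exact Real.log_le_log (by linarith) hYT
    rw [hL0]
    linarith

lemma cA_fact (P : ℕ) (N : ℝ) {κ : ℝ} (hκ0 : 0 ≤ κ) (n : ℕ) :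
    |cA P N κ n| ≤ dv κ n ∧ (cA P N κ n ≠ 0 → n.Coprime P) := by
  constructor
  · rw [abs_of_nonneg (cA_nonneg P N hκ0 n)]
    exact (cA_le P N hκ0 n).trans (xA_le P hκ0 n)
  · intro hn
    by_contra h
    apply hn
    rw [cA_apply, if_neg fun h' => h h'.2]

lemma cApow_fact (P : ℕ) (N : ℝ) {a b : ℕ} (hb1 : 1 ≤ b) {κ : ℝ} (hκdef : κ = (a:ℝ) / (2 * b)) (n : ℕ) :
    |(cA P N (hb b) ^ a : ArithmeticFunction ℝ) n| ≤ dv κ n ∧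
      ((cA P N (hb b) ^ a : ArithmeticFunction ℝ) n ≠ 0 → n.Coprime P) := by
  have hκ0 : 0 ≤ κ := by rw [hκdef]; positivity
  have h1 := cA_pow_le P N (hb_nonneg b) a n
  rw [hb_mul hb1, ← hκdef] at h1
  constructor
  · rw [abs_of_nonneg h1.1]
    exact h1.2.trans (xA_le P hκ0 n)
  · intro hn
    by_contra h
    apply hn
    rw [xA_apply, if_neg h] at h1
    exact le_antisymm h1.2 h1.1

/-- the property of the excluded primes -/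
def NSP (κ A ε : ℝ) (P : ℕ) : Prop := ∀ α : ℝ, 0 < α → α ≤ A → ∀ (M : ℕ) (f g : ℕ → ℝ)
      (X Y Z ρ L0 C e : ℝ), 1 ≤ C → 0 < e → e ≤ 1 / 4 → 1 ≤ X → 1 ≤ Y → 0 < ρ → ρ ≤ 1 → ρ ≤ Real.pi / A →
      Y * Real.exp (L0 + 1) ≤ Z → 2 * ρ ≤ 1 / (Z * Y) → Real.log Y + 1 ≤ L0 →
      (∀ n : ℕ, (n:ℝ) ≤ Z → |f n| ≤ dv κ n ∧ (f n ≠ 0 → n.Coprime P)) →
      (∀ l : ℕ, |g l| ≤ dv κ l ∧ (g l ≠ 0 → l.Coprime P)) →
      (∀ n : ℕ, |f n| ≤ C * (n:ℝ) ^ e) → (∀ n : ℕ, |g n| ≤ C * (n:ℝ) ^ e) →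
      NS α ρ M f g X Y ≤ ε * SP κ P ⌊Y⌋₊ +
        2 * M * (Y * (C * C * (16 * ρ * X ^ (1 / 2 + e) + 2 * Real.exp (-(L0 / 4)))))

/-- the three sums over near pairs -/
lemma V_facts {a b : ℕ} (hb1 : 1 ≤ b) (hab : 2 * b ≤ a) {κ A ε : ℝ} (hκdef : κ = (a:ℝ) / (2 * b))
    {P : ℕ} (hNS : NSP κ A ε P) {C η : ℝ} (hC1 : 1 ≤ C) (hη : 0 < η) (hη64 : η ≤ 1 / 64)
    (hdvC : ∀ (θ : ℝ), 0 ≤ θ → θ ≤ κ + 2 → ∀ n : ℕ, dv θ n ≤ C * (n:ℝ) ^ η)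
    {α : ℝ} (hα : 0 < α) (hαA : α ≤ A) {M : ℕ} {N X₀ Xf Y Z ρ L0 W : ℝ} (hXf1 : 1 ≤ Xf) (hY1 : 1 ≤ Y)
    (hρ0 : 0 < ρ) (hρ1 : ρ ≤ 1) (hρA : ρ ≤ Real.pi / A) (hZdef : Z = Y * Real.exp (L0 + 1))
    (hρ2 : 2 * ρ ≤ 1 / (Z * Y)) (hlogY : Real.log Y + 1 ≤ L0) (hZX : Z ≤ X₀) (hYXf : Y ≤ Xf)
    (hW : W = 2 * M * (Y * (C * C * (16 * ρ * Xf ^ (1 / 2 + η) + 2 * Real.exp (-(L0 / 4)))))) :
    NS α ρ M (Bq a b P N X₀) (cA P N κ) Xf Y ≤ ε * SP κ P ⌊Y⌋₊ + W ∧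
    NS α ρ M (cA P N (hb b) ^ a : ArithmeticFunction ℝ) (cA P N (hb b) ^ a : ArithmeticFunction ℝ)
      Y Y ≤ ε * SP κ P ⌊Y⌋₊ + W ∧
    NS α ρ M (cA P N κ) (cA P N κ) Y Y ≤ ε * SP κ P ⌊Y⌋₊ + W := by
  have hκ0 : 0 ≤ κ := by rw [hκdef]; positivity
  have hCle := fun n => cA_fact P N hκ0 n
  have hAle := fun n => cApow_fact P N hb1 hκdef n
  have hBC : ∀ n : ℕ, |Bq a b P N X₀ n| ≤ C * (n:ℝ) ^ η := by
    intro n
    refine (Bq_any a b hb1 P N X₀ n).trans (hdvC _ ?_ ?_ n)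
    · have := hb_nonneg b
      positivity
    · have := hb_sub hb1 hab
      rw [← hκdef] at this
      linarith
  have hWmono : 2 * M * (Y * (C * C * (16 * ρ * Y ^ (1 / 2 + η) + 2 * Real.exp (-(L0 / 4))))) ≤ W := by
    rw [hW]
    gcongr
  have hη4 : η ≤ 1 / 4 := by linarith
  refine ⟨?_, ?_, ?_⟩
  · rw [hW]
    exact hNS α hα hαA M (Bq a b P N X₀) (cA P N κ) Xf Y Z ρ L0 C η hC1 hη hη4 hXf1 hY1 hρ0 hρ1
      hρA (le_of_eq hZdef.symm) hρ2 hlogY (fun n hn => by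
        have := Bq_le a b hb1 hab P N X₀ n (hn.trans hZX)
        rw [← hκdef] at this
        exact this) hCle hBC (fun n => (hCle n).1.trans (hdvC κ hκ0 (by linarith) n))
  · have := hNS α hα hαA M (cA P N (hb b) ^ a : ArithmeticFunction ℝ) (cA P N (hb b) ^ a : ArithmeticFunction ℝ)
      Y Y Z ρ L0 C η hC1 hη hη4 hY1 hY1 hρ0 hρ1
      hρA (le_of_eq hZdef.symm) hρ2 hlogY (fun n _ => hAle n) hAle
      (fun n => (hAle n).1.trans (hdvC κ hκ0 (by linarith) n))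
      (fun n => (hAle n).1.trans (hdvC κ hκ0 (by linarith) n))
    linarith
  · have := hNS α hα hαA M (cA P N κ) (cA P N κ) Y Y Z ρ L0 C η hC1 hη hη4 hY1 hY1 hρ0 hρ1
      hρA (le_of_eq hZdef.symm) hρ2 hlogY (fun n _ => hCle n) hCle
      (fun n => (hCle n).1.trans (hdvC κ hκ0 (by linarith) n))
      (fun n => (hCle n).1.trans (hdvC κ hκ0 (by linarith) n))
    linarith

/-- crude norms -/
lemma L_facts {a b : ℕ} (hb1 : 1 ≤ b) {κ : ℝ} (hκ0 : 0 ≤ κ) {J : ℕ} (hJ : κ ≤ J)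
    {P : ℕ} {N X₀ Xf Y : ℝ} (hXf1 : 1 ≤ Xf) (hY1 : 1 ≤ Y) (hYXf : Y ≤ Xf) {E0 : ℕ}
    (hE0 : E0 = 2 * a + 2 * J + 8) :
    l1 (Bq a b P N X₀) Xf * l1 (cA P N κ) Y ≤ Xf ^ E0 ∧
    l1 (cA P N (hb b) ^ a : ArithmeticFunction ℝ) Y *
      l1 (cA P N (hb b) ^ a : ArithmeticFunction ℝ) Y ≤ Xf ^ E0 ∧
    l1 (cA P N κ) Y * l1 (cA P N κ) Y ≤ Xf ^ E0 ∧ l1 (cA P N κ) Y ≤ Y ^ (J + 1) := by
  have hlB : l1 (Bq a b P N X₀) Xf ≤ Xf ^ (a + 3) := l1_PB (PB_Bq a b P hb1 N X₀) hXf1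
  have hlC : l1 (cA P N κ) Y ≤ Y ^ (J + 1) := l1_PB (PB_cA P N hκ0 hJ) hY1
  have hlA : l1 (cA P N (hb b) ^ a : ArithmeticFunction ℝ) Y ≤ Y ^ (a * (0 + 1) + 1) :=
    l1_PB ((PB_cA_one P N (hb_nonneg b) (hb_le_one hb1)).pow a) hY1
  have hYp : ∀ k : ℕ, Y ^ k ≤ Xf ^ k := fun k => pow_le_pow_left₀ (by linarith) hYXf k
  have hXfp : ∀ k : ℕ, k ≤ E0 → Xf ^ k ≤ Xf ^ E0 := fun k hk => pow_le_pow_right₀ hXf1 hk
  refine ⟨?_, ?_, ?_, hlC⟩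
  · calc _ ≤ Xf ^ (a + 3) * Xf ^ (J + 1) :=
          mul_le_mul hlB (hlC.trans (hYp _)) (l1_nonneg _ _) (by positivity)
      _ = Xf ^ (a + 3 + (J + 1)) := by rw [← pow_add]
      _ ≤ _ := hXfp _ (by omega)
  · calc _ ≤ Xf ^ (a * (0 + 1) + 1) * Xf ^ (a * (0 + 1) + 1) :=
          mul_le_mul (hlA.trans (hYp _)) (hlA.trans (hYp _)) (l1_nonneg _ _) (by positivity)
      _ = Xf ^ (a * (0 + 1) + 1 + (a * (0 + 1) + 1)) := by rw [← pow_add]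
      _ ≤ _ := hXfp _ (by omega)
  · calc _ ≤ Xf ^ (J + 1) * Xf ^ (J + 1) :=
          mul_le_mul (hlC.trans (hYp _)) (hlC.trans (hYp _)) (l1_nonneg _ _) (by positivity)
      _ = Xf ^ (J + 1 + (J + 1)) := by rw [← pow_add]
      _ ≤ _ := hXfp _ (by omega)

end
end Pool.Agent.W5h80.AP
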