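import Pool.Agent.W5h80.AP.F

set_option autoImplicit false

/-! One window: the final estimate. -/

namespace Pool.Agent.W5h80.AP

open Finset Filter Topology
open Pool.Agent.H306R2 Pool.Agent.R311.BS

noncomputable section

/-- powers of `N = T^ν` -/
lemma pow_N {T ν η : ℝ} {a J : ℕ} (hT1 : 1 ≤ T) (hνsum : ν * (a * (J + 2) + 2) = η) (hν : 0 < ν) (k : ℕ)
    (hk : (k:ℝ) ≤ a * (J + 2) + 2) : (T ^ ν) ^ k ≤ T ^ η := by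
  rw [← Real.rpow_natCast, ← Real.rpow_mul (by linarith), ← hνsum]
  apply Real.rpow_le_rpow_of_exponent_le hT1
  gcongr

/-- lengths -/
lemma len_facts {a b J P : ℕ} {T ν η N Y Xf : ℝ} {X₀ : ℕ} (hT : 10 ≤ T) (hη : 0 < η)
    (hη64 : η ≤ 1 / 64) (hP : 1 ≤ P)
    (hνsum : ν * (a * (J + 2) + 2) = η) (hν : 0 < ν) (hN : N = T ^ ν) (hY : Y = N ^ a)
    (hX1 : (1:ℝ) ≤ X₀) (hXT : (X₀:ℝ) ≤ 10 * T) (hXf : Xf = N ^ (a - 2 * b) * (P * (X₀:ℝ))) :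
    1 ≤ N ∧ 1 ≤ Y ∧ Y ≤ T ^ η ∧ (X₀:ℝ) ≤ Xf ∧ Xf ≤ 10 * P * T ^ (1 + η) ∧ Xf ≤ 10 * P * T ^ 2 ∧
      N ^ (a - 2 * b) * P * Y ^ (J + 1) ≤ P * T ^ η := by
  have hT0 : 0 < T := by linarith
  have hT1 : 1 ≤ T := by linarith
  have hPr : (1:ℝ) ≤ P := by exact_mod_cast hP
  have hN1 : 1 ≤ N := by rw [hN]; exact Real.one_le_rpow hT1 hν.le
  have hpowN := pow_N (a := a) (J := J) hT1 hνsum hν
  rw [← hN] at hpowN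
  have ha0 : (0:ℝ) ≤ a := Nat.cast_nonneg a
  have hJ0 : (0:ℝ) ≤ J := Nat.cast_nonneg J
  have haJ : (a:ℝ) ≤ a * (J + 2) + 2 := by nlinarith
  have hsub : ((a - 2 * b : ℕ) : ℝ) ≤ a := by exact_mod_cast Nat.sub_le _ _
  have hY1 : 1 ≤ Y := by rw [hY]; exact one_le_pow₀ hN1
  have hYT : Y ≤ T ^ η := by rw [hY]; exact hpowN a haJ
  have hNaT : N ^ (a - 2 * b) ≤ T ^ η := hpowN _ (by linarith)
  have hX0Xf : (X₀:ℝ) ≤ Xf := by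
    rw [hXf]
    have e1 : 1 ≤ N ^ (a - 2 * b) := one_le_pow₀ hN1
    have e2 : (X₀:ℝ) ≤ (P:ℝ) * X₀ := by nlinarith
    have e3 : 0 ≤ (P:ℝ) * X₀ := by positivity
    nlinarith
  have hXfT : Xf ≤ 10 * P * T ^ (1 + η) := by
    rw [hXf]
    calc N ^ (a - 2 * b) * (P * (X₀:ℝ)) ≤ T ^ η * (P * (10 * T)) := by gcongr
      _ = 10 * P * (T ^ (1:ℝ) * T ^ η) := by rw [Real.rpow_one]; ring
      _ = _ := by rw [← Real.rpow_add hT0]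
  have hXfT2 : Xf ≤ 10 * P * T ^ 2 := by
    refine hXfT.trans ?_
    have e1 : T ^ (1 + η) ≤ T ^ (2:ℝ) := Real.rpow_le_rpow_of_exponent_le hT1 (by linarith)
    have e2 : T ^ (2:ℝ) = T ^ 2 := by exact_mod_cast Real.rpow_natCast T 2
    rw [e2] at e1
    gcongr
  refine ⟨hN1, hY1, hYT, hX0Xf, hXfT, hXfT2, ?_⟩
  calc N ^ (a - 2 * b) * P * Y ^ (J + 1) = P * (N ^ (a - 2 * b + a * (J + 1))) := by
        rw [hY, ← pow_mul, pow_add]; ring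
    _ ≤ P * T ^ η := by
        gcongr
        apply hpowN
        push_cast
        nlinarith

/-- far terms -/
lemma far_facts {α A T η H ρ Fr : ℝ} (hα : 0 < α) (hαA : α ≤ A) (hT1 : 1 ≤ T) (hη : 0 < η)
    (hH : H = T ^ (1 / 2 + 8 * η)) (hρ : ρ = T ^ (-(1 / 2 + 6 * η)))
    (hFr : Fr = (1 + A ^ 2) * Lam * Real.exp (-(1 / 8 * T ^ (4 * η)))) :
    far α H ρ ≤ Fr ∧ far α (Real.sqrt 2 * H) ρ ≤ Fr := by
  have hT0 : 0 < T := by linarith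
  have hLam := Lam_ge_one
  have hH1 : 1 ≤ H := by rw [hH]; exact Real.one_le_rpow hT1 (by positivity)
  have hHρ : H ^ 2 * ρ ^ 2 = T ^ (4 * η) := by
    rw [← mul_pow, hH, hρ, ← Real.rpow_add hT0, ← Real.rpow_natCast, ← Real.rpow_mul hT0.le]
    congr 1
    push_cast
    ring
  constructor
  · refine (far_le hα hαA hH1).trans (le_of_eq ?_)
    rw [hFr, hHρ]
    congr 3
    ring
  · have hs2 : (1:ℝ) ≤ Real.sqrt 2 := by rw [Real.one_le_sqrt]; norm_num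
    refine (far_le hα hαA (by nlinarith)).trans ?_
    rw [hFr, mul_pow, Real.sq_sqrt (by norm_num : (0:ℝ) ≤ 2), mul_assoc 2, hHρ]
    have : 0 ≤ T ^ (4 * η) := by positivity
    gcongr
    linarith

lemma RH_fact {T η R H : ℝ} (hT0 : 0 < T) (hR : R = T ^ (1 / 2 + 9 * η)) (hH : H = T ^ (1 / 2 + 8 * η)) :
    Real.exp (-(R ^ 2 / (2 * H ^ 2))) = Real.exp (-(1 / 2 * T ^ (2 * η))) := by
  congr 1
  have hH0 : 0 < H := by rw [hH]; positivity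
  have e1 : R ^ 2 = H ^ 2 * T ^ (2 * η) := by
    rw [hR, hH, ← Real.rpow_natCast, ← Real.rpow_natCast, ← Real.rpow_mul hT0.le,
      ← Real.rpow_mul hT0.le, ← Real.rpow_add hT0]
    congr 1
    push_cast
    ring
  rw [e1]
  field_simp

/-- the error terms -/
lemma err_facts {α A T η H ρ Fr R Xf e₁ Q P : ℝ} {E0 : ℕ} (hT0 : 0 < T) (hXf0 : 0 ≤ Xf) (hP : 1 ≤ P)
    (hXfT2 : Xf ≤ 10 * P * T ^ 2) (hfar : far α H ρ ≤ Fr)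
    (hFr : Fr = (1 + A ^ 2) * Lam * Real.exp (-(1 / 8 * T ^ (4 * η))))
    (h7 : 4 * ((1 + A ^ 2) * Lam) * (10 * P) ^ E0 * (T ^ (2 * E0) * Real.exp (-(1 / 8 * T ^ (4 * η)))) ≤ 1)
    (h8 : 4 * (10 * P) ^ E0 * (T ^ (2 * E0) * Real.exp (-(1 / 2 * T ^ (2 * η)))) ≤ 1)
    (h9 : 2 * (1575 * Real.sqrt 2) * P * T ^ (-(1 / 2 - η)) ≤ 1)
    (hR : R = T ^ (1 / 2 + 9 * η)) (hH : H = T ^ (1 / 2 + 8 * η))
    (he₁ : e₁ = 1575 * (Real.sqrt 2 * T ^ (-(1 / 2) : ℝ))) (hQ : Q = P * T ^ η) :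
    2 * far α H ρ * Xf ^ E0 ≤ 1 ∧ 4 * far α H ρ * Xf ^ E0 ≤ 2 ∧
    Xf ^ E0 * (4 * Real.exp (-(R ^ 2 / (2 * H ^ 2)))) ≤ 1 ∧ 2 * (e₁ * Q) ≤ 1 := by
  have hLam := Lam_ge_one
  have hLT : Xf ^ E0 ≤ (10 * P) ^ E0 * T ^ (2 * E0) := by
    calc Xf ^ E0 ≤ (10 * P * T ^ 2) ^ E0 := by gcongr
      _ = _ := by rw [mul_pow, ← pow_mul]
  have hfarL : far α H ρ * Xf ^ E0 ≤ 1 / 4 := by
    have e1 : far α H ρ * Xf ^ E0 ≤ Fr * ((10 * P) ^ E0 * T ^ (2 * E0)) := by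
      have := far_nonneg α H ρ
      have : 0 ≤ Fr := by rw [hFr]; positivity
      gcongr
    have e2 : 4 * (Fr * ((10 * P) ^ E0 * T ^ (2 * E0))) ≤ 1 := by
      refine le_trans (le_of_eq ?_) h7
      rw [hFr]; ring
    linarith
  refine ⟨by linarith, by linarith, ?_, ?_⟩
  · rw [RH_fact hT0 hR hH]
    refine le_trans ?_ h8
    calc Xf ^ E0 * (4 * Real.exp (-(1 / 2 * T ^ (2 * η)))) ≤
        ((10 * P) ^ E0 * T ^ (2 * E0)) * (4 * Real.exp (-(1 / 2 * T ^ (2 * η)))) := by gcongr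
      _ = _ := by ring
  · refine le_trans (le_of_eq ?_) h9
    have k5 : T ^ (-(1 / 2) : ℝ) * T ^ η = T ^ (-(1 / 2 - η)) := by
      rw [← Real.rpow_add hT0]
      congr 1
      ring
    rw [he₁, hQ, ← k5]
    ring

/-- the window inequality for a given large height -/
lemma window_det {a b : ℕ} (hb1 : 1 ≤ b) (hab : 2 * b ≤ a) {κ A ε c₂ CR μ ν η C K1 cS : ℝ} {J P E0 : ℕ}
    (hκdef : κ = (a:ℝ) / (2 * b)) (hκ0 : 0 ≤ κ) (hJ : κ ≤ J) (hA : 0 < A) (hη : 0 < η) (hη64 : η ≤ 1 / 64)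
    (hCR : 0 < CR) (hc₂ : c₂ = 1 / CR) (hc₂pos : 0 < c₂) (hε1 : ε ≤ 1) (hε2 : ε ≤ c₂ / 16)
    (hNS : NSP κ A ε P) (hP : 1 ≤ P) (hC1 : 1 ≤ C)
    (hdvC : ∀ (θ : ℝ), 0 ≤ θ → θ ≤ κ + 2 → ∀ n : ℕ, dv θ n ≤ C * (n:ℝ) ^ η)
    (hμdef : μ = c₂ / 48) (hνpos : 0 < ν) (hνsum : ν * (a * (J + 2) + 2) = η)
    (hE0 : E0 = 2 * a + 2 * J + 8) (hK1 : K1 = Real.log (10 * P) + 1) {T : ℝ}
    (h1 : cS * (ν * Real.log T) ^ (κ ^ 2) ≤ SP κ P ⌊T ^ ν⌋₊)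
    (h2 : SP κ P ⌊(T ^ ν) ^ a⌋₊ ≤ CR * SP κ P ⌊T ^ ν⌋₊)
    (h3 : 100 ≤ cS * ν ^ (κ ^ 2) * Real.log T ^ (κ ^ 2))
    (h4 : A * K1 + 6 * A / η ≤ T ^ (η / 2))
    (h5 : 4 * C ^ 2 * (160 * P + 2) * T ^ (-η) ≤ 1)
    (h6 : 2 * ((1 + A ^ 2) * Lam) * (T ^ 0 * Real.exp (-(1 / 8 * T ^ (4 * η)))) ≤ 1)
    (h7 : 4 * ((1 + A ^ 2) * Lam) * (10 * P) ^ E0 * (T ^ (2 * E0) * Real.exp (-(1 / 8 * T ^ (4 * η)))) ≤ 1)
    (h8 : 4 * (10 * P) ^ E0 * (T ^ (2 * E0) * Real.exp (-(1 / 2 * T ^ (2 * η)))) ≤ 1)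
    (h9 : 2 * (1575 * Real.sqrt 2) * P * T ^ (-(1 / 2 - η)) ≤ 1)
    (h10 : 4 ≤ T ^ η) (h11 : 1 ≤ η * Real.log T) (h12 : 6 * T ^ (-(1 / 2 - 8 * η)) ≤ 1)
    (h13 : A / Real.pi * T ^ (-(1 / 2 + 6 * η)) ≤ 1) (hT : 10 ≤ T)
    {τ : ℝ} (hτ1 : T ≤ τ) (hτ2 : τ ≤ 3 * T) {α : ℝ} (hα : 0 < α) (hαA : α ≤ A) (β : ℝ) :
    cS * ν ^ (κ ^ 2) / (4 * ((μ⁻¹) ^ ((a:ℝ) / b - 1) * (P:ℝ) ^ ((a:ℝ) / b))) * Real.log T ^ (κ ^ 2) ≤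
        α * ∑ k ∈ KI α β (τ - T ^ (1 / 2 + 9 * η)) (τ + T ^ (1 / 2 + 9 * η)),
          ‖zl (α * k + β)‖ ^ ((a:ℝ) / b) * gw τ (T ^ (1 / 2 + 8 * η)) (α * k + β) := by
  have hT0 : 0 < T := by linarith only [hT]
  have hT1 : 1 ≤ T := by linarith only [hT]
  have hlog : 0 < Real.log T := Real.log_pos (by linarith only [hT])
  have hPr : (1:ℝ) ≤ P := by exact_mod_cast hP
  have hP0 : (0:ℝ) < P := by linarith only [hPr]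
  have hπ := Real.pi_pos
  have hμpos : 0 < μ := by rw [hμdef]; positivity
  obtain ⟨N, hNdef⟩ : ∃ N : ℝ, N = T ^ ν := ⟨_, rfl⟩
  obtain ⟨Y, hY⟩ : ∃ Y : ℝ, Y = N ^ a := ⟨_, rfl⟩
  obtain ⟨X₀, hX₀⟩ : ∃ X₀ : ℕ, X₀ = ⌈3 * τ⌉₊ := ⟨_, rfl⟩
  have hX3 : 3 * τ ≤ X₀ := by rw [hX₀]; exact Nat.le_ceil _
  have hX4 : (X₀:ℝ) ≤ 3 * τ + 1 := by
    rw [hX₀]
    exact (Nat.ceil_lt_add_one (by linarith only [hτ1, hT])).le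
  have hXT : (X₀:ℝ) ≤ 10 * T := by linarith only [hX4, hτ2, hT]
  have hX1 : (1:ℝ) ≤ X₀ := by linarith only [hX3, hτ1, hT]
  obtain ⟨Xf, hXf⟩ : ∃ Xf : ℝ, Xf = N ^ (a - 2 * b) * (P * (X₀:ℝ)) := ⟨_, rfl⟩
  obtain ⟨hN1, hY1, hYT, hX0Xf, hXfT, hXfT2, hQN⟩ :=
    len_facts (b := b) hT hη hη64 hP hνsum hνpos hNdef hY hX1 hXT hXf
  have hXf1 : 1 ≤ Xf := hX1.trans hX0Xf
  obtain ⟨H, hHdef⟩ : ∃ H : ℝ, H = T ^ (1 / 2 + 8 * η) := ⟨_, rfl⟩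
  have hH : 0 < H := by rw [hHdef]; positivity
  obtain ⟨R, hRdef⟩ : ∃ R : ℝ, R = T ^ (1 / 2 + 9 * η) := ⟨_, rfl⟩
  have hR : 0 < R := by rw [hRdef]; positivity
  obtain ⟨ρ, hρdef⟩ : ∃ ρ : ℝ, ρ = T ^ (-(1 / 2 + 6 * η)) := ⟨_, rfl⟩
  have hρ0 : 0 < ρ := by rw [hρdef]; positivity
  have hρ1 : ρ ≤ 1 := by
    rw [hρdef]; exact Real.rpow_le_one_of_one_le_of_nonpos hT1 (by linarith only [hη])
  have hρA : ρ ≤ Real.pi / A := by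
    rw [le_div_iff₀ hA]
    rw [← hρdef] at h13
    have : A / Real.pi * ρ * Real.pi = ρ * A := by field_simp
    rw [← this]
    calc A / Real.pi * ρ * Real.pi ≤ 1 * Real.pi := by gcongr
      _ = Real.pi := one_mul _
  have hρα : 2 * ρ ≤ 2 * Real.pi / α := by
    calc 2 * ρ ≤ 2 * (Real.pi / A) := by linarith only [hρA]
      _ = 2 * Real.pi / A := by ring
      _ ≤ 2 * Real.pi / α := by gcongr
  obtain ⟨L0, hL0⟩ : ∃ L0 : ℝ, L0 = 12 * η * Real.log T := ⟨_, rfl⟩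
  obtain ⟨Z, hZdef⟩ : ∃ Z : ℝ, Z = Y * Real.exp (L0 + 1) := ⟨_, rfl⟩
  obtain ⟨hZT, hYZ, hYZ', hρ2, hlogY⟩ := Z_facts hη hη64 hT1 hρdef hL0 hY1 hYT hZdef h12 h11
  have hZX : Z ≤ X₀ := by linarith only [hZT, hX3, hτ1]
  have hYXf : Y ≤ Xf := (hYZ'.trans hZX).trans hX0Xf
  have hYX0 : N ^ a ≤ (X₀:ℝ) := by rw [← hY]; exact hYZ'.trans hZX
  obtain ⟨M, hMdef⟩ : ∃ M : ℕ, M = ⌈T ^ η⌉₊ := ⟨_, rfl⟩
  have hM1 : T ^ η ≤ M := by rw [hMdef]; exact Nat.le_ceil _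
  have hM2 : (M:ℝ) ≤ 2 * T ^ η := by
    rw [hMdef]
    have := (Nat.ceil_lt_add_one (by positivity : 0 ≤ T ^ η)).le
    linarith only [this, h10]
  have hL1 := L1_small hA hη (by linarith only [hη64]) hT1 hPr hK1 h4 hXf1 hXfT2 hY1 hYT
  have hgap := gap_fact (Xf := Xf) hY1 hYZ hρ0 hρ1 hρ2
  have hM := M_fact (Xf := Xf) (Y := Y) hα hαA hρ1 hL1 hM1 (by positivity)
  obtain ⟨Fr, hFr⟩ : ∃ Fr : ℝ, Fr = (1 + A ^ 2) * Lam * Real.exp (-(1 / 8 * T ^ (4 * η))) := ⟨_, rfl⟩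
  have hFr2 : Fr ≤ 1 / 2 := by
    rw [pow_zero, one_mul] at h6
    have e : 2 * Fr = 2 * ((1 + A ^ 2) * Lam) * Real.exp (-(1 / 8 * T ^ (4 * η))) := by rw [hFr]; ring
    linarith only [h6, e]
  obtain ⟨hfar1, hfar2⟩ := far_facts hα hαA hT1 hη hHdef hρdef hFr
  have hRT : R ≤ T / 4 := by
    rw [hRdef, le_div_iff₀ (by norm_num)]
    calc T ^ (1 / 2 + 9 * η) * 4 ≤ T ^ (1 / 2 + 9 * η) * T ^ η := by gcongr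
      _ = T ^ (1 / 2 + 10 * η) := by rw [← Real.rpow_add hT0]; congr 1; ring
      _ ≤ T ^ (1:ℝ) := Real.rpow_le_rpow_of_exponent_le hT1 (by linarith only [hη64])
      _ = T := Real.rpow_one T
  obtain ⟨e₁, he₁def⟩ : ∃ e₁ : ℝ, e₁ = 1575 * (Real.sqrt 2 * T ^ (-(1 / 2) : ℝ)) := ⟨_, rfl⟩
  have he₁0 : 0 ≤ e₁ := by rw [he₁def]; positivity
  have happ := app_fact hT hτ1 hτ2 hRT hX3 hX4
  rw [← he₁def] at happ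
  obtain ⟨U, hU⟩ : ∃ U : ℝ, U = SP κ P ⌊Y⌋₊ := ⟨_, rfl⟩
  obtain ⟨W, hW⟩ : ∃ W : ℝ, W = 2 * M * (Y * (C * C * (16 * ρ * Xf ^ (1 / 2 + η) + 2 * Real.exp (-(L0 / 4))))) :=
    ⟨_, rfl⟩
  have hW1 : W ≤ 1 := by
    refine le_trans ?_ h5
    rw [hW]
    exact W_small hη hη64 hT1 hPr (by linarith only [hC1]) hρdef (by linarith only [hXf1]) hXfT hL0 hM2
      (by linarith only [hY1]) hYT
  obtain ⟨hV1, hV2, hV3⟩ := V_facts hb1 hab hκdef hNS hC1 hη hη64 hdvC hα hαA (N := N) (X₀ := (X₀:ℝ)) hXf1 hY1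
    hρ0 hρ1 hρA hZdef hρ2 hlogY hZX hYXf hW
  obtain ⟨hLL1, hLL2, hLL3, hlC⟩ := L_facts (P := P) (N := N) (X₀ := (X₀:ℝ)) hb1 hκ0 hJ hXf1 hY1 hYXf hE0
  obtain ⟨Q, hQ⟩ : ∃ Q : ℝ, Q = P * T ^ η := ⟨_, rfl⟩
  have hQ1 : N ^ (a - 2 * b) * P * l1 (cA P N κ) Y ≤ Q := by
    rw [hQ]
    refine le_trans ?_ hQN
    have : 0 ≤ N ^ (a - 2 * b) * P := by positivity
    exact mul_le_mul_of_nonneg_left hlC this
  obtain ⟨hf1, hf4, hf2, hf3⟩ := err_facts hT0 (by linarith only [hXf1]) hPr hXfT2 hfar1 hFr h7 h8 h9 hRdef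
    hHdef he₁def hQ
  have hK : ∀ k ∈ KI α β (τ - R) (τ + R), ‖zl (α * k + β) - zX X₀ (α * k + β)‖ ≤ e₁ := by
    intro k hk
    rw [mem_KI hα] at hk
    exact happ _ hk.1 hk.2
  have hK' : ∀ k : ℤ, k ∉ KI α β (τ - R) (τ + R) → R ≤ |α * k + β - τ| := by
    intro k hk
    rw [mem_KI hα, not_and_or, not_le, not_le] at hk
    rcases hk with h | h
    · rw [abs_of_nonpos (by linarith only [h, hR])]; linarith only [h]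
    · rw [abs_of_nonneg (by linarith only [h, hR])]; linarith only [h]
  rw [hκdef] at hV1 hV2 hV3 hLL1 hLL3 hQ1
  rw [hXf, hY] at hV1 hLL1 hgap hM
  rw [hY] at hV2 hV3 hLL2 hLL3 hQ1
  have hcore := core a b hb1 hab P hP N X₀ ρ τ H R e₁ μ (ε * SP ((a:ℝ) / (2 * b)) P ⌊N ^ a⌋₊ + W) (Xf ^ E0) Q α β M
    (KI α β (τ - R) (τ + R)) hN1 hYX0 hα hH hR.le hρ0.le hρα he₁0 hμpos hgap hM
    (hfar1.trans hFr2) (hfar2.trans hFr2) hV1 hV2 hV3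
    (by rw [hXf]; exact hLL1) hLL2 hLL3 hQ1 hK hK'
  rw [← hκdef, ← hY, ← hU] at hcore
  obtain ⟨S, hS⟩ : ∃ S : ℝ, S = SP κ P ⌊N⌋₊ := ⟨_, rfl⟩
  rw [← hNdef] at h1 h2
  rw [← hS] at h1 h2 hcore
  rw [← hY, ← hU] at h2
  have hmr : (ν * Real.log T) ^ (κ ^ 2) = ν ^ (κ ^ 2) * Real.log T ^ (κ ^ 2) :=
    Real.mul_rpow hνpos.le hlog.le
  have hS100 : 100 ≤ S := by
    refine le_trans ?_ h1
    rw [hmr, ← mul_assoc]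
    exact h3
  have hSU : S ≤ U := by
    rw [hS, hU]
    apply SP_mono
    apply Nat.floor_le_floor
    rw [hY]
    calc N = N ^ 1 := (pow_one N).symm
      _ ≤ N ^ a := pow_le_pow_right₀ hN1 (by omega)
  have hcU : c₂ * U ≤ S := by
    rw [hc₂, one_div, inv_mul_le_iff₀ hCR]
    exact h2
  obtain ⟨G, hG⟩ : ∃ G : ℝ, G = α * ∑ k ∈ KI α β (τ - R) (τ + R),
          ‖zl (α * k + β)‖ ^ ((a:ℝ) / b) * gw τ H (α * k + β) := ⟨_, rfl⟩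
  rw [← hRdef, ← hHdef, ← hG]
  rw [← hG] at hcore
  have hfin := fin_arith2 (f1 := 2 * far α H ρ * Xf ^ E0)
    (f2 := Xf ^ E0 * (4 * Real.exp (-(R ^ 2 / (2 * H ^ 2)))))
    (f3 := 2 * (e₁ * Q)) (f4 := 4 * far α H ρ * Xf ^ E0) hcore rfl hW1 hε2 hε1 (by linarith only [hSU, hS100])
    hμdef hc₂pos hcU hf1 hf2 hf3 hf4 hS100
  have hpos : 0 < 4 * ((μ⁻¹) ^ ((a:ℝ) / b - 1) * (P:ℝ) ^ ((a:ℝ) / b)) := by positivity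
  rw [div_mul_eq_mul_div, div_le_iff₀ hpos]
  calc cS * ν ^ (κ ^ 2) * Real.log T ^ (κ ^ 2) = cS * (ν * Real.log T) ^ (κ ^ 2) := by
        rw [hmr]; ring
    _ ≤ S := h1
    _ = 4 * (S / 4) := by ring
    _ ≤ 4 * ((μ⁻¹) ^ ((a:ℝ) / b - 1) * (P:ℝ) ^ ((a:ℝ) / b) * G) := by gcongr
    _ = _ := by ring

end
end Pool.Agent.W5h80.AP
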