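import Pool.Agent.W5h80.AP.T

set_option autoImplicit false

/-! Resonances: bounds for the near pairs. -/

namespace Pool.Agent.W5h80.AP

open Finset Filter Topology
open Pool.Agent.H306R2 Pool.Agent.R311.BS

noncomputable section

lemma dv_pow_le (j : ℕ) {κ : ℝ} (hκ : 0 ≤ κ) (n : ℕ) : dv κ n ^ (2 ^ j) ≤ dv (κ ^ (2 ^ j)) n := by
  induction j with
  | zero => simp
  | succ j ih =>
    have h0 := dv_nonneg (α := κ) hκ n
    have h1 := dv_nonneg (α := κ ^ (2 ^ j)) (by positivity) n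
    calc dv κ n ^ (2 ^ (j + 1)) = (dv κ n ^ (2 ^ j)) ^ 2 := by rw [← pow_mul, pow_succ]
      _ ≤ (dv (κ ^ (2 ^ j)) n) ^ 2 := by gcongr
      _ ≤ dv ((κ ^ (2 ^ j)) ^ 2) n := dv_sq_le (by positivity) n
      _ = _ := by rw [← pow_mul, ← pow_succ]

theorem dv_eps {κ : ℝ} (hκ : 0 ≤ κ) {e : ℝ} (he : 0 < e) : ∃ C : ℝ, 1 ≤ C ∧ ∀ n : ℕ, dv κ n ≤ C * (n:ℝ) ^ e := by
  obtain ⟨j, hj⟩ := exists_nat_ge (2 / e)
  have hj2 : (j:ℝ) ≤ (2:ℝ) ^ j := by
    exact_mod_cast (Nat.lt_two_pow_self (n := j)).le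
  have hK : 2 ≤ e * (2:ℝ) ^ j := by
    rw [div_le_iff₀ he] at hj
    nlinarith
  obtain ⟨J, hJ⟩ := exists_nat_ge (κ ^ (2 ^ j))
  have hs := dvJ_summable J one_pos
  set C0 := ∑' n : ℕ, dv J n * (n:ℝ) ^ (-1 - 1 : ℝ) with hC0
  have hC00 : 0 ≤ C0 := tsum_nonneg fun n => mul_nonneg (dv_nonneg (Nat.cast_nonneg J) n) (by positivity)
  refine ⟨C0 + 1, by linarith, fun n => ?_⟩
  rcases Nat.eq_zero_or_pos n with hn | hn
  · subst hn
    have : dv κ 0 = 0 := by simp [dv]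
    rw [this]
    positivity
  have hn0 : (0:ℝ) < n := by exact_mod_cast hn
  have hn1 : (1:ℝ) ≤ n := by exact_mod_cast hn
  have h1 : dv κ n ^ (2 ^ j) ≤ C0 * (n:ℝ) ^ 2 := by
    have h2 := dv_pow_le j hκ n
    have h3 : dv (κ ^ (2 ^ j)) n ≤ dv J n := dv_mono (by positivity) hJ n
    have h4 : dv J n * (n:ℝ) ^ (-1 - 1 : ℝ) ≤ C0 :=
      hs.le_tsum n fun m _ => mul_nonneg (dv_nonneg (Nat.cast_nonneg J) m) (by positivity)
    have h5 : (n:ℝ) ^ (-1 - 1 : ℝ) = ((n:ℝ) ^ 2)⁻¹ := by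
      rw [show (-1 - 1 : ℝ) = -((2:ℕ):ℝ) by norm_num, Real.rpow_neg hn0.le, Real.rpow_natCast]
    rw [h5, ← div_eq_mul_inv, div_le_iff₀ (by positivity)] at h4
    linarith
  by_contra hcon
  rw [not_le] at hcon
  have hne : (0:ℝ) < (n:ℝ) ^ e := by positivity
  have h6 : ((C0 + 1) * (n:ℝ) ^ e) ^ (2 ^ j) < dv κ n ^ (2 ^ j) :=
    pow_lt_pow_left₀ hcon (by positivity) (by positivity)
  have h7 : (n:ℝ) ^ 2 ≤ ((n:ℝ) ^ e) ^ (2 ^ j) := by
    rw [← Real.rpow_natCast, ← Real.rpow_natCast ((n:ℝ) ^ e), ← Real.rpow_mul hn0.le]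
    apply Real.rpow_le_rpow_of_exponent_le hn1
    push_cast
    exact hK
  have h8 : C0 + 1 ≤ (C0 + 1) ^ (2 ^ j) := by
    calc C0 + 1 = (C0 + 1) ^ 1 := (pow_one _).symm
      _ ≤ _ := pow_le_pow_right₀ (by linarith) Nat.one_le_two_pow
  rw [mul_pow] at h6
  have h9 : (C0 + 1) * (n:ℝ) ^ 2 ≤ (C0 + 1) ^ (2 ^ j) * ((n:ℝ) ^ e) ^ (2 ^ j) := by gcongr
  have h10 : 0 < (n:ℝ) ^ 2 := by positivity
  linarith

/-- crude bound for the near pairs at a large frequency -/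
theorem NN_crude (f g : ℕ → ℝ) (X Y ρ ω C e : ℝ) (hC : 1 ≤ C) (he : 0 < e) (he4 : e ≤ 1 / 4)
    (hX : 1 ≤ X) (hY : 1 ≤ Y)
    (hρ : 0 < ρ) (hρ1 : ρ ≤ 1) (hω : 1 ≤ ω) (hf : ∀ n, |f n| ≤ C * (n:ℝ) ^ e) (hg : ∀ n, |g n| ≤ C * (n:ℝ) ^ e) :
    NN f g X Y ρ ω ≤ Y * (C * C * (16 * ρ * X ^ (1 / 2 + e) + 2 * Real.exp (-(ω / 4)))) := by
  unfold NN
  rw [sum_comm]
  have hD0 : 0 ≤ C * C * (16 * ρ * X ^ (1 / 2 + e) + 2 * Real.exp (-(ω / 4))) := by positivity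
  have hone : ∀ l ∈ Icc 1 ⌊Y⌋₊, (∑ n ∈ Icc 1 ⌊X⌋₊, if |ω - Real.log n + Real.log l| < ρ then
      (|f n| * (Real.sqrt n)⁻¹) * (|g l| * (Real.sqrt l)⁻¹) else 0) ≤
      C * C * (16 * ρ * X ^ (1 / 2 + e) + 2 * Real.exp (-(ω / 4))) := by
    intro l hl
    rw [mem_Icc] at hl
    have hl0 : (0:ℝ) < l := by exact_mod_cast hl.1
    have hl1 : (1:ℝ) ≤ l := by exact_mod_cast hl.1
    have hgl : |g l| * (Real.sqrt l)⁻¹ ≤ C := by
      have h1 : (l:ℝ) ^ e ≤ Real.sqrt l := by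
        rw [Real.sqrt_eq_rpow]
        exact Real.rpow_le_rpow_of_exponent_le hl1 (by linarith)
      have h2 : 0 < Real.sqrt l := Real.sqrt_pos.mpr hl0
      rw [← div_eq_mul_inv, div_le_iff₀ h2]
      exact (hg l).trans (by gcongr)
    set u := (l:ℝ) * Real.exp (ω - ρ) with hu
    have hu1 : Real.exp (ω - 1) ≤ u := by
      rw [hu]
      have : Real.exp (ω - 1) ≤ Real.exp (ω - ρ) := Real.exp_le_exp.mpr (by linarith)
      nlinarith [Real.exp_pos (ω - ρ)]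
    have hu0 : 1 ≤ u := (Real.one_le_exp (by linarith)).trans hu1
    have hupos : 0 < u := by linarith
    rw [← sum_filter]
    set S := (Icc 1 ⌊X⌋₊).filter (fun n : ℕ => |ω - Real.log n + Real.log l| < ρ) with hS
    rcases S.eq_empty_or_nonempty with h0 | hne
    · rw [h0, sum_empty]; exact hD0
    have hmem : ∀ n ∈ S, 1 ≤ n ∧ (n:ℝ) ≤ X ∧ u < n ∧ (n:ℝ) < u * Real.exp (2 * ρ) := by
      intro n hn
      rw [hS, mem_filter, mem_Icc, abs_lt] at hn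
      obtain ⟨⟨h1, h2⟩, h3, h4⟩ := hn
      have hn0 : (0:ℝ) < n := by exact_mod_cast h1
      refine ⟨h1, (Nat.cast_le.mpr h2).trans (Nat.floor_le (by linarith)), ?_, ?_⟩
      · rw [hu, ← Real.log_lt_log_iff (by positivity) hn0, Real.log_mul hl0.ne' (Real.exp_ne_zero _),
          Real.log_exp]
        linarith
      · rw [hu, mul_assoc, ← Real.exp_add, ← Real.log_lt_log_iff hn0 (by positivity),
          Real.log_mul hl0.ne' (Real.exp_ne_zero _), Real.log_exp]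
        linarith
    have huX : u ≤ X := by
      obtain ⟨n, hn⟩ := hne
      have := hmem n hn
      linarith [this.2.1, this.2.2.1]
    have hcard : (S.card : ℝ) ≤ 16 * ρ * u + 1 := by
      have hsub : S ⊆ Icc (⌊u⌋₊ + 1) ⌊u * Real.exp (2 * ρ)⌋₊ := by
        intro n hn
        have := hmem n hn
        rw [mem_Icc]
        exact ⟨Nat.succ_le_of_lt ((Nat.floor_lt hupos.le).mpr this.2.2.1), Nat.le_floor this.2.2.2.le⟩
      have h1 := card_le_card hsub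
      rw [Nat.card_Icc] at h1
      have h2 : (S.card : ℝ) ≤ (⌊u * Real.exp (2 * ρ)⌋₊ + 1 - (⌊u⌋₊ + 1) : ℕ) := by exact_mod_cast h1
      have h3 : (⌊u⌋₊ : ℕ) ≤ ⌊u * Real.exp (2 * ρ)⌋₊ := by
        apply Nat.floor_le_floor
        have : 1 ≤ Real.exp (2 * ρ) := Real.one_le_exp (by linarith)
        nlinarith
      have h4 : ((⌊u * Real.exp (2 * ρ)⌋₊ + 1 - (⌊u⌋₊ + 1) : ℕ) : ℝ) =
          (⌊u * Real.exp (2 * ρ)⌋₊ : ℝ) - ⌊u⌋₊ := by
        rw [Nat.cast_sub (by omega)]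
        push_cast
        ring
      have h5 : (⌊u * Real.exp (2 * ρ)⌋₊ : ℝ) ≤ u * Real.exp (2 * ρ) := Nat.floor_le (by positivity)
      have h6 := Nat.lt_floor_add_one u
      have h7 : Real.exp (2 * ρ) - 1 ≤ 16 * ρ := by
        have h8 : 1 - 2 * ρ ≤ Real.exp (-(2 * ρ)) := by linarith [Real.add_one_le_exp (-(2 * ρ))]
        have h9 : Real.exp (-(2 * ρ)) * Real.exp (2 * ρ) = 1 := by rw [← Real.exp_add]; simp
        have h10 : Real.exp (2 * ρ) ≤ Real.exp 2 := Real.exp_le_exp.mpr (by linarith)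
        have h11 : Real.exp 2 ≤ 8 := by
          have e1 : Real.exp 2 = Real.exp 1 * Real.exp 1 := by rw [← Real.exp_add]; norm_num
          have e2 := Real.exp_one_lt_d9
          have e3 := Real.exp_pos 1
          rw [e1]; nlinarith
        have h12 : 0 < Real.exp (2 * ρ) := Real.exp_pos _
        nlinarith
      rw [h4] at h2
      have h8 : u * Real.exp (2 * ρ) - u ≤ 16 * ρ * u := by nlinarith
      linarith
    have hterm : ∀ n ∈ S, (|f n| * (Real.sqrt n)⁻¹) * (|g l| * (Real.sqrt l)⁻¹) ≤ C * u ^ (e - 1 / 2) * C := by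
      intro n hn
      obtain ⟨h1, h2, h3, h4⟩ := hmem n hn
      have hn0 : (0:ℝ) < n := by exact_mod_cast h1
      have h5 : |f n| * (Real.sqrt n)⁻¹ ≤ C * (n:ℝ) ^ (e - 1 / 2) := by
        have : (n:ℝ) ^ (e - 1 / 2) = (n:ℝ) ^ e * (Real.sqrt n)⁻¹ := by
          rw [Real.rpow_sub hn0, Real.sqrt_eq_rpow, div_eq_mul_inv]
        rw [this, ← mul_assoc]
        have := hf n
        gcongr
      have h6 : (n:ℝ) ^ (e - 1 / 2) ≤ u ^ (e - 1 / 2) :=
        Real.rpow_le_rpow_of_nonpos hupos h3.le (by linarith)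
      calc _ ≤ (C * (n:ℝ) ^ (e - 1 / 2)) * C := by gcongr
        _ ≤ _ := by gcongr
    calc ∑ n ∈ S, (|f n| * (Real.sqrt n)⁻¹) * (|g l| * (Real.sqrt l)⁻¹) ≤
        ∑ n ∈ S, C * u ^ (e - 1 / 2) * C := sum_le_sum hterm
      _ = S.card * (C * u ^ (e - 1 / 2) * C) := by rw [sum_const, nsmul_eq_mul]
      _ ≤ (16 * ρ * u + 1) * (C * u ^ (e - 1 / 2) * C) := by gcongr
      _ = C * C * (16 * ρ * (u * u ^ (e - 1 / 2)) + u ^ (e - 1 / 2)) := by ring
      _ ≤ C * C * (16 * ρ * X ^ (1 / 2 + e) + 2 * Real.exp (-(ω / 4))) := by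
          have h1 : u * u ^ (e - 1 / 2) = u ^ (1 / 2 + e) := by
            have h2 := Real.rpow_add hupos 1 (e - 1 / 2)
            rw [Real.rpow_one] at h2
            rw [← h2]
            congr 1
            ring
          have h3 : u ^ (1 / 2 + e) ≤ X ^ (1 / 2 + e) := Real.rpow_le_rpow hupos.le huX (by linarith)
          have h4 : u ^ (e - 1 / 2) ≤ 2 * Real.exp (-(ω / 4)) := by
            have h5 : u ^ (e - 1 / 2) ≤ u ^ (-(1 / 4) : ℝ) := Real.rpow_le_rpow_of_exponent_le hu0 (by linarith)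
            have h6 : u ^ (-(1 / 4) : ℝ) ≤ (Real.exp (ω - 1)) ^ (-(1 / 4) : ℝ) :=
              Real.rpow_le_rpow_of_nonpos (Real.exp_pos _) hu1 (by norm_num)
            have h7 : (Real.exp (ω - 1)) ^ (-(1 / 4) : ℝ) = Real.exp (1 / 4) * Real.exp (-(ω / 4)) := by
              rw [← Real.exp_mul, ← Real.exp_add]
              congr 1
              ring
            have h8 : Real.exp (1 / 4) ≤ 2 := by
              have e1 : Real.exp (1 / 4) ^ 4 = Real.exp 1 := by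
                rw [← Real.exp_nat_mul]; norm_num
              have e2 := Real.exp_one_lt_d9
              by_contra hc
              rw [not_le] at hc
              have : (2:ℝ) ^ 4 < Real.exp (1 / 4) ^ 4 := pow_lt_pow_left₀ hc (by norm_num) (by norm_num)
              rw [e1] at this
              linarith
            rw [h7] at h6
            have := Real.exp_pos (-(ω / 4))
            calc _ ≤ Real.exp (1 / 4) * Real.exp (-(ω / 4)) := h5.trans h6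
              _ ≤ _ := by gcongr
          rw [h1]
          gcongr
  calc ∑ l ∈ Icc 1 ⌊Y⌋₊, _ ≤ ∑ _l ∈ Icc 1 ⌊Y⌋₊, C * C * (16 * ρ * X ^ (1 / 2 + e) + 2 * Real.exp (-(ω / 4))) :=
        sum_le_sum hone
    _ = ⌊Y⌋₊ * (C * C * (16 * ρ * X ^ (1 / 2 + e) + 2 * Real.exp (-(ω / 4)))) := by
        rw [sum_const, nsmul_eq_mul, Nat.card_Icc]; simp
    _ ≤ _ := by
        gcongr
        exact Nat.floor_le (by linarith)

lemma NN_neg (f g : ℕ → ℝ) (X Y ρ ω : ℝ) (hY : 1 ≤ Y) (hρ1 : ρ ≤ 1) (hω : ω ≤ -(Real.log Y + 1)) :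
    NN f g X Y ρ ω = 0 := by
  unfold NN
  refine sum_eq_zero fun n hn => sum_eq_zero fun l hl => ?_
  rw [mem_Icc] at hn hl
  rw [if_neg]
  intro h
  rw [abs_lt] at h
  have hn0 : 0 ≤ Real.log n := Real.log_nonneg (by exact_mod_cast hn.1)
  have hlY : (l:ℝ) ≤ Y := (Nat.cast_le.mpr hl.2).trans (Nat.floor_le (by linarith))
  have hl0 : (0:ℝ) < l := by exact_mod_cast hl.1
  have : Real.log l ≤ Real.log Y := Real.log_le_log hl0 hlY
  linarith [h.1]

end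
end Pool.Agent.W5h80.AP
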