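import Pool.Agent.R311.BS.A2

set_option autoImplicit false

/-! Sums over integers prime to `P`: the growth does not depend on `P`. -/

namespace Pool.Agent.W5h80.AP

open Finset Filter Topology
open Pool.Agent.H306R2 Pool.Agent.R311.BS

noncomputable section

lemma SP_mono (κ : ℝ) (P : ℕ) {M N : ℕ} (h : M ≤ N) : SP κ P M ≤ SP κ P N := by
  unfold SP
  refine sum_le_sum_of_subset_of_nonneg ?_ fun v _ _ => by positivity
  exact filter_subset_filter _ (Icc_subset_Icc_right h)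

lemma SP_one (κ : ℝ) (N : ℕ) : SP κ 1 N = ∑ v ∈ Icc 1 N, dv κ v ^ 2 / v := by
  unfold SP
  rw [filter_true_of_mem fun v _ => Nat.coprime_one_right v]

/-- the local factor -/
def Cp1 (κ : ℝ) (p : ℕ) : ℝ := ∑' j : ℕ, lc κ j ^ 2 * (1 / (p:ℝ)) ^ j

lemma Cp1_summable {κ : ℝ} (hκ : 0 < κ) {p : ℕ} (hp : p.Prime) :
    Summable (fun j : ℕ => lc κ j ^ 2 * (1 / (p:ℝ)) ^ j) := by
  have hp' := inv_prime hp
  refine Summable.of_nonneg_of_le (fun j => by have := hp'.1; positivity) (fun j => ?_)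
    (lc_summable (α := κ ^ 2) (by positivity) hp'.1 (by linarith [hp'.2]))
  have := lc_sq_le hκ.le j
  have := hp'.1
  gcongr

lemma Cp1_pos {κ : ℝ} (hκ : 0 < κ) {p : ℕ} (hp : p.Prime) : 0 < Cp1 κ p := by
  have hp' := inv_prime hp
  refine (Cp1_summable hκ hp).tsum_pos (fun j => by have := hp'.1; positivity) 0 ?_
  simp [lc_zero]

lemma SP_up {κ : ℝ} (hκ : 0 < κ) {p : ℕ} (hp : p.Prime) (Q N : ℕ) :
    SP κ Q N ≤ Cp1 κ p * SP κ (Q * p) N := by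
  have hp' := inv_prime hp
  have hsum := Cp1_summable hκ hp
  have h1 : (∑ j ∈ range (N + 1), lc κ j ^ 2 * (1 / (p:ℝ)) ^ j) * SP κ (Q * p) N ≤
      Cp1 κ p * SP κ (Q * p) N :=
    mul_le_mul_of_nonneg_right (hsum.sum_le_tsum _ fun j _ => by have := hp'.1; positivity)
      (SP_nonneg _ _ _)
  refine le_trans ?_ h1
  unfold SP
  rw [sum_mul_sum, ← sum_product']
  have hinj : Set.InjOn (fun v : ℕ => (v.factorization p, v / p ^ (v.factorization p)))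
      ((Icc 1 N).filter (fun v => v.Coprime Q) : Set ℕ) := by
    intro a _ b _ hab
    simp only [Prod.mk.injEq] at hab
    have e1 := Nat.ordProj_mul_ordCompl_eq_self a p
    have e2 := Nat.ordProj_mul_ordCompl_eq_self b p
    rw [← e1, ← e2, hab.2, hab.1]
  have hterm : ∀ v ∈ (Icc 1 N).filter (fun v => v.Coprime Q), dv κ v ^ 2 / (v:ℝ) =
      (fun x : ℕ × ℕ => lc κ x.1 ^ 2 * (1 / (p:ℝ)) ^ x.1 * (dv κ x.2 ^ 2 / (x.2:ℝ)))
        (v.factorization p, v / p ^ (v.factorization p)) := by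
    intro v hv
    rw [mem_filter, mem_Icc] at hv
    have hv0 : v ≠ 0 := by omega
    have e1 : (v:ℝ) = (p:ℝ) ^ (v.factorization p) * ((v / p ^ (v.factorization p) : ℕ) : ℝ) := by
      exact_mod_cast (Nat.ordProj_mul_ordCompl_eq_self v p).symm
    have e2 := dv_split (κ := κ) hp hv0
    simp only
    generalize v.factorization p = j at e1 e2 ⊢
    generalize v / p ^ j = m at e1 e2 ⊢
    rw [e2, e1]
    have hpp : (p:ℝ) ≠ 0 := by exact_mod_cast hp.ne_zero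
    rw [one_div, inv_pow]
    have hpk : (p:ℝ) ^ j ≠ 0 := pow_ne_zero _ hpp
    rw [mul_pow, div_eq_mul_inv, mul_inv, div_eq_mul_inv]
    ring
  rw [sum_congr rfl hterm, ← sum_image (f := fun x : ℕ × ℕ =>
    lc κ x.1 ^ 2 * (1 / (p:ℝ)) ^ x.1 * (dv κ x.2 ^ 2 / (x.2:ℝ))) hinj]
  refine sum_le_sum_of_subset_of_nonneg ?_ fun x _ _ => by have := hp'.1; positivity
  intro x hx
  rw [mem_image] at hx
  obtain ⟨v, hv, rfl⟩ := hx
  rw [mem_filter, mem_Icc] at hv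
  have hv0 : v ≠ 0 := by omega
  rw [mem_product, mem_range, mem_filter, mem_Icc]
  simp only
  refine ⟨?_, ⟨?_, ?_⟩, ?_⟩
  · have := Nat.factorization_lt p hv0
    omega
  · exact Nat.pos_of_ne_zero (Nat.ordCompl_pos p hv0).ne'
  · exact (Nat.ordCompl_le v p).trans hv.1.2
  · refine Nat.Coprime.mul_right ?_ (Nat.coprime_ordCompl hp hv0).symm
    exact Nat.Coprime.coprime_dvd_left (Nat.ordCompl_dvd v p) hv.2

lemma SP_down {κ : ℝ} {p : ℕ} (hp : p.Prime) (Q N k : ℕ) (hQ : p.Coprime Q) :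
    (∑ j ∈ range (k + 1), lc κ j ^ 2 * (1 / (p:ℝ)) ^ j) * SP κ (Q * p) N ≤ SP κ Q (N * p ^ k) := by
  unfold SP
  rw [sum_mul_sum, ← sum_product']
  have hmem : ∀ x ∈ (range (k + 1)) ×ˢ ((Icc 1 N).filter (fun v => v.Coprime (Q * p))),
      x.1 ≤ k ∧ 1 ≤ x.2 ∧ x.2 ≤ N ∧ x.2.Coprime Q ∧ p.Coprime x.2 := by
    intro x hx
    rw [mem_product, mem_range, mem_filter, mem_Icc] at hx
    exact ⟨by omega, hx.2.1.1, hx.2.1.2, Nat.Coprime.coprime_mul_right_right hx.2.2,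
      (Nat.Coprime.coprime_mul_left_right hx.2.2).symm⟩
  have hinj : Set.InjOn (fun x : ℕ × ℕ => p ^ x.1 * x.2)
      ((range (k + 1)) ×ˢ ((Icc 1 N).filter (fun v => v.Coprime (Q * p))) : Finset (ℕ × ℕ)) := by
    intro x hx y hy hxy
    simp only at hxy
    obtain ⟨-, x1, -, -, x2⟩ := hmem x hx
    obtain ⟨-, y1, -, -, y2⟩ := hmem y hy
    have f1 : x.1 = y.1 := by
      have e1 : (p ^ x.1 * x.2).factorization p = x.1 := by
        rw [Nat.factorization_mul (pow_ne_zero _ hp.ne_zero) (by omega), hp.factorization_pow]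
        have : x.2.factorization p = 0 := by
          apply Nat.factorization_eq_zero_of_not_dvd
          exact (Nat.Prime.coprime_iff_not_dvd hp).mp x2
        simp [this]
      have e2 : (p ^ y.1 * y.2).factorization p = y.1 := by
        rw [Nat.factorization_mul (pow_ne_zero _ hp.ne_zero) (by omega), hp.factorization_pow]
        have : y.2.factorization p = 0 := by
          apply Nat.factorization_eq_zero_of_not_dvd
          exact (Nat.Prime.coprime_iff_not_dvd hp).mp y2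
        simp [this]
      rw [← e1, ← e2, hxy]
    have f2 : x.2 = y.2 := by
      rw [f1] at hxy
      exact Nat.eq_of_mul_eq_mul_left (pow_pos hp.pos _) hxy
    exact Prod.ext f1 f2
  have hterm : ∀ x ∈ (range (k + 1)) ×ˢ ((Icc 1 N).filter (fun v => v.Coprime (Q * p))),
      lc κ x.1 ^ 2 * (1 / (p:ℝ)) ^ x.1 * (dv κ x.2 ^ 2 / (x.2:ℝ)) =
      (fun v : ℕ => dv κ v ^ 2 / (v:ℝ)) (p ^ x.1 * x.2) := by
    intro x hx
    obtain ⟨-, x1, -, -, x2⟩ := hmem x hx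
    have h2 := (dA_mult κ).map_mul_of_coprime (Nat.Coprime.pow_left x.1 x2)
    rw [dA_apply, dA_apply, dA_apply, dv_prime_pow κ hp] at h2
    simp only
    rw [h2]
    push_cast
    have hpp : (p:ℝ) ≠ 0 := by exact_mod_cast hp.ne_zero
    have hx0 : (x.2:ℝ) ≠ 0 := by exact_mod_cast (by omega : x.2 ≠ 0)
    rw [one_div, inv_pow]
    field_simp
  rw [sum_congr rfl hterm, ← sum_image (f := fun v : ℕ => dv κ v ^ 2 / (v:ℝ)) hinj]
  refine sum_le_sum_of_subset_of_nonneg ?_ fun x _ _ => by positivity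
  intro v hv
  rw [mem_image] at hv
  obtain ⟨x, hx, rfl⟩ := hv
  obtain ⟨x0, x1, x3, x4, x2⟩ := hmem x hx
  rw [mem_filter, mem_Icc]
  refine ⟨⟨?_, ?_⟩, ?_⟩
  · exact Nat.mul_pos (pow_pos hp.pos _) x1
  · rw [mul_comm]
    exact Nat.mul_le_mul x3 (Nat.pow_le_pow_right hp.pos x0)
  · exact Nat.Coprime.mul_left (Nat.Coprime.pow_left _ hQ) x4

lemma SP_all_up {κ : ℝ} (hκ : 0 < κ) (s : Finset ℕ) (hs : ∀ p ∈ s, p.Prime) (N : ℕ) :
    SP κ 1 N ≤ (∏ p ∈ s, Cp1 κ p) * SP κ (∏ p ∈ s, p) N := by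
  classical
  induction s using Finset.induction_on with
  | empty => simp
  | insert p s hps ih =>
    have hp := hs p (mem_insert_self _ _)
    have h := ih fun q hq => hs q (mem_insert_of_mem hq)
    have hpos : 0 ≤ ∏ q ∈ s, Cp1 κ q :=
      prod_nonneg fun q hq => (Cp1_pos hκ (hs q (mem_insert_of_mem hq))).le
    rw [prod_insert hps, prod_insert hps, mul_comm p]
    calc SP κ 1 N ≤ (∏ q ∈ s, Cp1 κ q) * SP κ (∏ q ∈ s, q) N := h
      _ ≤ (∏ q ∈ s, Cp1 κ q) * (Cp1 κ p * SP κ ((∏ q ∈ s, q) * p) N) := by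
          gcongr; exact SP_up hκ hp _ N
      _ = _ := by ring

lemma SP_all_down {κ : ℝ} (hκ : 0 < κ) (s : Finset ℕ) (hs : ∀ p ∈ s, p.Prime) :
    ∀ θ : ℝ, 0 < θ → θ < 1 → ∃ y : ℕ, 1 ≤ y ∧ ∀ N : ℕ,
      θ * (∏ p ∈ s, Cp1 κ p) * SP κ (∏ p ∈ s, p) N ≤ SP κ 1 (N * y) := by
  classical
  induction s using Finset.induction_on with
  | empty =>
    intro θ h0 h1
    refine ⟨1, le_refl _, fun N => ?_⟩
    simp only [prod_empty, mul_one]
    have := SP_nonneg κ 1 N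
    nlinarith
  | insert p s hps ih =>
    intro θ h0 h1
    have hp := hs p (mem_insert_self _ _)
    obtain ⟨θ', hθ'⟩ : ∃ θ' : ℝ, θ' = (1 + θ) / 2 := ⟨_, rfl⟩
    have hθ0 : 0 < θ' := by rw [hθ']; linarith
    have hθ1 : θ' < 1 := by rw [hθ']; linarith
    have hθθ : θ ≤ θ' * θ' := by rw [hθ']; nlinarith [sq_nonneg (1 - θ)]
    obtain ⟨y, hy1, hy⟩ := ih (fun q hq => hs q (mem_insert_of_mem hq)) θ' hθ0 hθ1
    have hC := Cp1_pos hκ hp
    have hsum := (Cp1_summable hκ hp).hasSum.tendsto_sum_nat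
    have hlt : θ' * Cp1 κ p < Cp1 κ p := by nlinarith
    obtain ⟨k, hk⟩ := (((hsum.comp (tendsto_add_atTop_nat 1)).eventually (lt_mem_nhds hlt))).exists
    simp only [Function.comp_apply] at hk
    refine ⟨p ^ k * y, Nat.mul_pos (pow_pos hp.pos _) hy1, fun N => ?_⟩
    have hcop : p.Coprime (∏ q ∈ s, q) := by
      rw [Nat.coprime_prod_right_iff]
      intro q hq
      rw [Nat.coprime_primes hp (hs q (mem_insert_of_mem hq))]
      rintro rfl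
      exact hps hq
    have h2 := SP_down (κ := κ) hp (∏ q ∈ s, q) N k hcop
    have h3 := hy (N * p ^ k)
    rw [mul_assoc N] at h3
    refine le_trans ?_ h3
    rw [prod_insert hps, prod_insert hps, mul_comm p]
    have hpos : 0 ≤ ∏ q ∈ s, Cp1 κ q :=
      prod_nonneg fun q hq => (Cp1_pos hκ (hs q (mem_insert_of_mem hq))).le
    have hSPn := SP_nonneg κ ((∏ q ∈ s, q) * p) N
    have h4 : θ' * Cp1 κ p * SP κ ((∏ q ∈ s, q) * p) N ≤ SP κ (∏ q ∈ s, q) (N * p ^ k) := by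
      refine le_trans ?_ h2
      exact mul_le_mul_of_nonneg_right hk.le hSPn
    calc θ * (Cp1 κ p * ∏ q ∈ s, Cp1 κ q) * SP κ ((∏ q ∈ s, q) * p) N ≤
        (θ' * θ') * (Cp1 κ p * ∏ q ∈ s, Cp1 κ q) * SP κ ((∏ q ∈ s, q) * p) N := by gcongr
      _ = θ' * (∏ q ∈ s, Cp1 κ q) * (θ' * Cp1 κ p * SP κ ((∏ q ∈ s, q) * p) N) := by ring
      _ ≤ θ' * (∏ q ∈ s, Cp1 κ q) * SP κ (∏ q ∈ s, q) (N * p ^ k) := by gcongr

/-- the growth of the sums is uniform in the excluded primes -/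
theorem SP_ratio {κ : ℝ} (hκ : 1 ≤ κ) (a : ℕ) : ∃ C : ℝ, 0 < C ∧
    ∀ s : Finset ℕ, (∀ p ∈ s, p.Prime) → ∀ᶠ L : ℝ in atTop,
      SP κ (∏ p ∈ s, p) ⌊Real.exp (a * L)⌋₊ ≤ C * SP κ (∏ p ∈ s, p) ⌊Real.exp L⌋₊ := by
  have hκ0 : 0 < κ := by linarith
  obtain ⟨CU, hCU, hUev⟩ := U_upper (κ := κ) hκ0
  obtain ⟨c, hc, hLev⟩ := U_lower hκ
  refine ⟨2 * (CU * ((a:ℝ) + 1) ^ (κ ^ 2) / c), by positivity, fun s hs => ?_⟩
  obtain ⟨y, hy1, hy⟩ := SP_all_down hκ0 s hs (1 / 2) (by norm_num) (by norm_num)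
  have hE : 0 < ∏ p ∈ s, Cp1 κ p := prod_pos fun p hp => Cp1_pos hκ0 (hs p hp)
  have ht : Tendsto (fun L : ℝ => ((a:ℝ) + 1) * L) atTop atTop :=
    tendsto_id.const_mul_atTop (by positivity)
  filter_upwards [ht.eventually hUev, hLev, eventually_ge_atTop (Real.log y), eventually_ge_atTop 0]
    with L h1 h2 h3 h4
  have hyr : (0:ℝ) < y := by exact_mod_cast hy1
  have h5 : ⌊Real.exp (a * L)⌋₊ * y ≤ ⌊Real.exp (((a:ℝ) + 1) * L)⌋₊ := by
    apply Nat.le_floor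
    push_cast
    calc (⌊Real.exp (a * L)⌋₊ : ℝ) * y ≤ Real.exp (a * L) * Real.exp L := by
          have e1 : (⌊Real.exp (a * L)⌋₊ : ℝ) ≤ Real.exp (a * L) := Nat.floor_le (Real.exp_pos _).le
          have e2 : (y:ℝ) ≤ Real.exp L := by
            rw [← Real.exp_log hyr]; exact Real.exp_le_exp.mpr h3
          gcongr
      _ = Real.exp (((a:ℝ) + 1) * L) := by rw [← Real.exp_add]; congr 1; ring
  have h6 := hy ⌊Real.exp (a * L)⌋₊
  have h7 := SP_mono κ 1 h5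
  rw [SP_one κ ⌊Real.exp (((a:ℝ) + 1) * L)⌋₊] at h7
  have h8 := SP_all_up hκ0 s hs ⌊Real.exp L⌋₊
  rw [SP_one] at h8
  have h9 : (((a:ℝ) + 1) * L) ^ (κ ^ 2) = ((a:ℝ) + 1) ^ (κ ^ 2) * L ^ (κ ^ 2) :=
    Real.mul_rpow (by positivity) h4
  rw [h9] at h1
  have hap : (0:ℝ) < ((a:ℝ) + 1) ^ (κ ^ 2) := by positivity
  have h10 : L ^ (κ ^ 2) ≤ (∏ p ∈ s, Cp1 κ p) * SP κ (∏ p ∈ s, p) ⌊Real.exp L⌋₊ / c := by
    rw [le_div_iff₀ hc, mul_comm]
    exact h2.trans h8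
  have h11 : (∏ p ∈ s, Cp1 κ p) * SP κ (∏ p ∈ s, p) ⌊Real.exp (a * L)⌋₊ ≤
      (∏ p ∈ s, Cp1 κ p) * (2 * (CU * ((a:ℝ) + 1) ^ (κ ^ 2) / c) * SP κ (∏ p ∈ s, p) ⌊Real.exp L⌋₊) := by
    calc (∏ p ∈ s, Cp1 κ p) * SP κ (∏ p ∈ s, p) ⌊Real.exp (a * L)⌋₊ =
        2 * (1 / 2 * (∏ p ∈ s, Cp1 κ p) * SP κ (∏ p ∈ s, p) ⌊Real.exp (a * L)⌋₊) := by ring
      _ ≤ 2 * (CU * (((a:ℝ) + 1) ^ (κ ^ 2) * L ^ (κ ^ 2))) := by
          have := h6.trans (h7.trans h1)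
          linarith
      _ ≤ 2 * (CU * (((a:ℝ) + 1) ^ (κ ^ 2) *
          ((∏ p ∈ s, Cp1 κ p) * SP κ (∏ p ∈ s, p) ⌊Real.exp L⌋₊ / c))) := by gcongr
      _ = _ := by field_simp
  exact le_of_mul_le_mul_left h11 hE

end
end Pool.Agent.W5h80.AP
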