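import Pool.Agent.W5h80.AP.N
import Pool.Agent.W5h80.AP.S

set_option autoImplicit false

/-! Coincidences, keeping track of coprimality. -/

namespace Pool.Agent.W5h80.AP

open Finset Filter Topology
open Pool.Agent.H306R2 Pool.Agent.R311.BS

noncomputable section

/-- coincidences: all near pairs have the same ratio -/
theorem near_bound' (κ : ℝ) (hκ : 0 ≤ κ) (hsub : ∀ a b : ℕ, dv κ (a * b) ≤ dv κ a * dv κ b)
    (P : ℕ) (f g : ℕ → ℝ) (X Y Z ρ ω Γ : ℝ) (hY : 1 ≤ Y) (hρ1 : ρ ≤ 1)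
    (hZ : Y * Real.exp (|ω| + 1) ≤ Z) (hρ2 : 2 * ρ ≤ 1 / (Z * Y))
    (hf : ∀ n : ℕ, (n:ℝ) ≤ Z → |f n| ≤ dv κ n ∧ (f n ≠ 0 → n.Coprime P))
    (hg : ∀ l : ℕ, |g l| ≤ dv κ l ∧ (g l ≠ 0 → l.Coprime P))
    (hΓ0 : 0 ≤ Γ)
    (hΓ : ∀ a b : ℕ, 1 ≤ a → 1 ≤ b → a.Coprime b → a.Coprime P → b.Coprime P →
      |ω - Real.log a + Real.log b| < ρ →
      dv κ a * dv κ b * (Real.sqrt a)⁻¹ * (Real.sqrt b)⁻¹ ≤ Γ) :
    NN f g X Y ρ ω ≤ Γ * SP κ P ⌊Y⌋₊ := by
  have hU0 : 0 ≤ SP κ P ⌊Y⌋₊ := SP_nonneg _ _ _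
  unfold NN
  rw [← sum_product']
  set S := ((Icc 1 ⌊X⌋₊) ×ˢ (Icc 1 ⌊Y⌋₊)).filter (fun p : ℕ × ℕ =>
    |ω - Real.log p.1 + Real.log p.2| < ρ ∧ f p.1 ≠ 0 ∧ g p.2 ≠ 0) with hS
  have hmemS : ∀ p ∈ S, 1 ≤ p.1 ∧ 1 ≤ p.2 ∧ (p.2:ℝ) ≤ Y ∧ |ω - Real.log p.1 + Real.log p.2| < ρ ∧
      f p.1 ≠ 0 ∧ g p.2 ≠ 0 ∧ (p.1:ℝ) ≤ Z := by
    intro p hp
    rw [hS, mem_filter, mem_product, mem_Icc, mem_Icc] at hp
    obtain ⟨⟨h1, h2⟩, h3, h4, h5⟩ := hp
    have hpY : (p.2:ℝ) ≤ Y := (Nat.cast_le.mpr h2.2).trans (Nat.floor_le (by linarith))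
    refine ⟨h1.1, h2.1, hpY, h3, h4, h5, ?_⟩
    have hp1 : (0:ℝ) < p.1 := by exact_mod_cast h1.1
    have hp2 : (0:ℝ) < p.2 := by exact_mod_cast h2.1
    rw [abs_lt] at h3
    have h6 : Real.log p.1 ≤ Real.log p.2 + (|ω| + 1) := by
      have := le_abs_self ω
      linarith
    have h7 : (p.1:ℝ) ≤ p.2 * Real.exp (|ω| + 1) := by
      rw [← Real.log_le_log_iff hp1 (by positivity), Real.log_mul hp2.ne' (Real.exp_ne_zero _),
        Real.log_exp]
      exact h6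
    calc (p.1:ℝ) ≤ p.2 * Real.exp (|ω| + 1) := h7
      _ ≤ Y * Real.exp (|ω| + 1) := by gcongr
      _ ≤ Z := hZ
  have e1 : ∑ p ∈ (Icc 1 ⌊X⌋₊) ×ˢ (Icc 1 ⌊Y⌋₊), (if |ω - Real.log p.1 + Real.log p.2| < ρ then
      (|f p.1| * (Real.sqrt p.1)⁻¹) * (|g p.2| * (Real.sqrt p.2)⁻¹) else 0) =
      ∑ p ∈ S, (|f p.1| * (Real.sqrt p.1)⁻¹) * (|g p.2| * (Real.sqrt p.2)⁻¹) := by
    rw [hS, sum_filter]
    refine sum_congr rfl fun p _ => ?_
    by_cases h1 : |ω - Real.log p.1 + Real.log p.2| < ρ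
    · by_cases h2 : f p.1 = 0
      · simp [h2]
      · by_cases h3 : g p.2 = 0
        · simp [h3]
        · rw [if_pos h1, if_pos ⟨h1, h2, h3⟩]
    · rw [if_neg h1, if_neg (fun h => h1 h.1)]
  rw [e1]
  rcases S.eq_empty_or_nonempty with h0 | ⟨p0, hp0⟩
  · rw [h0, sum_empty]; positivity
  obtain ⟨a1, a2, a3, a4, a5, a6, a7⟩ := hmemS p0 hp0
  -- the reduced ratio
  set d := Nat.gcd p0.1 p0.2 with hd
  have hd0 : 0 < d := Nat.gcd_pos_of_pos_left _ (by omega)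
  set a := p0.1 / d with ha
  set b := p0.2 / d with hb
  have hda : p0.1 = d * a := (Nat.mul_div_cancel' (Nat.gcd_dvd_left _ _)).symm
  have hdb : p0.2 = d * b := (Nat.mul_div_cancel' (Nat.gcd_dvd_right _ _)).symm
  have hab : a.Coprime b := Nat.coprime_div_gcd_div_gcd hd0
  have ha0 : 1 ≤ a := by
    rcases Nat.eq_zero_or_pos a with h | h
    · rw [h] at hda; omega
    · exact h
  have hb0 : 1 ≤ b := by
    rcases Nat.eq_zero_or_pos b with h | h
    · rw [h] at hdb; omega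
    · exact h
  have haP : a.Coprime P := by
    have := (hf p0.1 a7).2 a5
    rw [hda] at this
    exact Nat.Coprime.coprime_dvd_left (Dvd.intro_left d rfl) this
  have hbP : b.Coprime P := by
    have := (hg p0.2).2 a6
    rw [hdb] at this
    exact Nat.Coprime.coprime_dvd_left (Dvd.intro_left d rfl) this
  have hnear : |ω - Real.log a + Real.log b| < ρ := by
    have e2 : ω - Real.log a + Real.log b = ω - Real.log p0.1 + Real.log p0.2 := by
      rw [hda, hdb]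
      push_cast
      have hd' : (d:ℝ) ≠ 0 := by exact_mod_cast hd0.ne'
      have ha' : (a:ℝ) ≠ 0 := by exact_mod_cast (by omega : a ≠ 0)
      have hb' : (b:ℝ) ≠ 0 := by exact_mod_cast (by omega : b ≠ 0)
      rw [Real.log_mul hd' ha', Real.log_mul hd' hb']
      ring
    rw [e2]
    exact a4
  have hG := hΓ a b ha0 hb0 hab haP hbP hnear
  -- every near pair is a multiple
  have hmult : ∀ p ∈ S, ∃ v : ℕ, 1 ≤ v ∧ p.1 = a * v ∧ p.2 = b * v := by
    intro p hp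
    obtain ⟨b1, b2, b3, b4, b5, b6, b7⟩ := hmemS p hp
    have heq : p.1 * p0.2 = p0.1 * p.2 := by
      by_contra hne
      have hz0 : 0 < Z := by
        have : (0:ℝ) < p.1 := by exact_mod_cast b1
        linarith
      have g1 := log_gap (u := p.1 * p0.2) (v := p0.1 * p.2) (Nat.mul_pos b1 a2) (Nat.mul_pos a1 b2) hne (Z * Y)
        (by push_cast; gcongr) (by push_cast; gcongr)
      have : (0:ℝ) < p.1 := by exact_mod_cast b1
      have : (0:ℝ) < p.2 := by exact_mod_cast b2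
      have : (0:ℝ) < p0.1 := by exact_mod_cast a1
      have : (0:ℝ) < p0.2 := by exact_mod_cast a2
      push_cast at g1
      rw [Real.log_mul (by positivity) (by positivity), Real.log_mul (by positivity) (by positivity)] at g1
      have g2 : |Real.log p.1 + Real.log p0.2 - (Real.log p0.1 + Real.log p.2)| < 2 * ρ := by
        rw [abs_lt] at a4 b4 ⊢
        constructor <;> linarith
      linarith
    have h1 : p.1 * b = a * p.2 := by
      rw [hda, hdb] at heq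
      have : d * (p.1 * b) = d * (a * p.2) := by
        calc d * (p.1 * b) = p.1 * (d * b) := by ring
          _ = d * a * p.2 := heq
          _ = d * (a * p.2) := by ring
      exact Nat.eq_of_mul_eq_mul_left hd0 this
    have h2 : a ∣ p.1 := by
      have : a ∣ p.1 * b := ⟨p.2, h1⟩
      exact hab.dvd_of_dvd_mul_right this
    obtain ⟨v, hv⟩ := h2
    refine ⟨v, ?_, hv, ?_⟩
    · rcases Nat.eq_zero_or_pos v with h | h
      · rw [h] at hv; omega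
      · exact h
    · rw [hv] at h1
      have : a * p.2 = a * (b * v) := by rw [← h1]; ring
      exact Nat.eq_of_mul_eq_mul_left (by omega) this
  -- bound termwise
  have hterm : ∀ p ∈ S, (|f p.1| * (Real.sqrt p.1)⁻¹) * (|g p.2| * (Real.sqrt p.2)⁻¹) ≤
      Γ * (dv κ (p.2 / b) ^ 2 / ((p.2 / b : ℕ) : ℝ)) := by
    intro p hp
    obtain ⟨b1, b2, b3, b4, b5, b6, b7⟩ := hmemS p hp
    obtain ⟨v, hv0, hv1, hv2⟩ := hmult p hp
    have e3 : p.2 / b = v := by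
      rw [hv2]; exact Nat.mul_div_cancel_left v (by omega)
    rw [e3]
    have f1 : |f p.1| ≤ dv κ a * dv κ v := by
      refine ((hf p.1 b7).1).trans ?_
      rw [hv1]
      exact hsub a v
    have f2 : |g p.2| ≤ dv κ b * dv κ v := by
      refine ((hg p.2).1).trans ?_
      rw [hv2]
      exact hsub b v
    have hv' : (0:ℝ) < v := by exact_mod_cast hv0
    have s1 : (Real.sqrt p.1)⁻¹ = (Real.sqrt a)⁻¹ * (Real.sqrt v)⁻¹ := by
      rw [hv1]; push_cast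
      rw [Real.sqrt_mul (by positivity), mul_inv]
    have s2 : (Real.sqrt p.2)⁻¹ = (Real.sqrt b)⁻¹ * (Real.sqrt v)⁻¹ := by
      rw [hv2]; push_cast
      rw [Real.sqrt_mul (by positivity), mul_inv]
    have s3 : (Real.sqrt v)⁻¹ * (Real.sqrt v)⁻¹ = 1 / (v:ℝ) := by
      rw [← mul_inv, Real.mul_self_sqrt hv'.le, one_div]
    rw [s1, s2]
    have k1 := dv_nonneg hκ a
    have k2 := dv_nonneg hκ b
    have k3 := dv_nonneg hκ v
    calc (|f p.1| * ((Real.sqrt a)⁻¹ * (Real.sqrt v)⁻¹)) * (|g p.2| * ((Real.sqrt b)⁻¹ * (Real.sqrt v)⁻¹))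
        ≤ ((dv κ a * dv κ v) * ((Real.sqrt a)⁻¹ * (Real.sqrt v)⁻¹)) *
          ((dv κ b * dv κ v) * ((Real.sqrt b)⁻¹ * (Real.sqrt v)⁻¹)) := by gcongr
      _ = (dv κ a * dv κ b * (Real.sqrt a)⁻¹ * (Real.sqrt b)⁻¹) *
          (dv κ v ^ 2 * ((Real.sqrt v)⁻¹ * (Real.sqrt v)⁻¹)) := by ring
      _ = (dv κ a * dv κ b * (Real.sqrt a)⁻¹ * (Real.sqrt b)⁻¹) * (dv κ v ^ 2 / v) := by
          rw [s3]; ring
      _ ≤ Γ * (dv κ v ^ 2 / v) := by gcongr
  refine (sum_le_sum hterm).trans ?_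
  rw [← mul_sum]
  refine mul_le_mul_of_nonneg_left ?_ hΓ0
  unfold SP
  have hinj : Set.InjOn (fun p : ℕ × ℕ => p.2 / b) (S : Set (ℕ × ℕ)) := by
    intro p hp q hq hpq
    obtain ⟨v, hv0, hv1, hv2⟩ := hmult p hp
    obtain ⟨w, hw0, hw1, hw2⟩ := hmult q hq
    have e3 : p.2 / b = v := by
      rw [hv2]; exact Nat.mul_div_cancel_left v (by omega)
    have e4 : q.2 / b = w := by
      rw [hw2]; exact Nat.mul_div_cancel_left w (by omega)
    simp only [e3, e4] at hpq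
    ext
    · rw [hv1, hw1, hpq]
    · rw [hv2, hw2, hpq]
  rw [← sum_image (f := fun v : ℕ => dv κ v ^ 2 / (v:ℝ)) hinj]
  refine sum_le_sum_of_subset_of_nonneg ?_ fun v _ _ => by positivity
  intro v hv
  rw [mem_image] at hv
  obtain ⟨p, hp, rfl⟩ := hv
  obtain ⟨v, hv0, hv1, hv2⟩ := hmult p hp
  obtain ⟨b1, b2, b3, b4, b5, b6, b7⟩ := hmemS p hp
  have e3 : p.2 / b = v := by
    rw [hv2]; exact Nat.mul_div_cancel_left v (by omega)
  rw [e3, mem_filter, mem_Icc]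
  refine ⟨⟨hv0, ?_⟩, ?_⟩
  · apply Nat.le_floor
    refine le_trans ?_ b3
    have : v ≤ p.2 := by rw [hv2]; exact Nat.le_mul_of_pos_left v hb0
    exact_mod_cast this
  · have h9 := (hf p.1 b7).2 b5
    rw [hv1] at h9
    exact Nat.Coprime.coprime_mul_left h9

end
end Pool.Agent.W5h80.AP
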