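import Pool.Agent.R311.BS.W

set_option autoImplicit false

/-! Gaussian averages of exponentials over arithmetic progressions of heights. -/

namespace Pool.Agent.W5h80.AP

open Finset Filter Topology
open Pool.Agent.H306R2 Pool.Agent.R311.BS

noncomputable section

/-- terms of the dual sum -/
def du (α β τ H x : ℝ) (n : ℤ) : ℂ :=
  ex (2 * Real.pi * n / α) β * ex (x - 2 * Real.pi * n / α) τ * (gq H (x - 2 * Real.pi * n / α) : ℂ)

theorem poisson (α β τ H x : ℝ) (hα : 0 < α) (hH : 0 < H) :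
    (α : ℂ) * ∑' k : ℤ, ex x (α * k + β) * (gw τ H (α * k + β) : ℂ) = ∑' n : ℤ, du α β τ H x n := by
  have hπ := Real.pi_pos
  set a : ℝ := α ^ 2 / (Real.pi * H ^ 2) with ha
  have ha0 : 0 < a := by positivity
  set b : ℂ := (-(2 * α * (β - τ) / H ^ 2 : ℝ) + (x * α : ℝ) * Complex.I) / (2 * Real.pi : ℝ) with hb
  set c0 : ℂ := (-((β - τ) ^ 2 / H ^ 2) : ℝ) + (x * β : ℝ) * Complex.I with hc0
  have hcπ : (Real.pi : ℂ) ≠ 0 := by exact_mod_cast hπ.ne'
  have hcH : (H : ℂ) ≠ 0 := by exact_mod_cast hH.ne'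
  have hcα : (α : ℂ) ≠ 0 := by exact_mod_cast hα.ne'
  have hP := Complex.tsum_exp_neg_quadratic (a := (a : ℂ)) (by simpa using ha0) b
  have e1 : ∀ k : ℤ, ex x (α * k + β) * (gw τ H (α * k + β) : ℂ) =
      (((H * Real.sqrt Real.pi)⁻¹ : ℝ) : ℂ) * Complex.exp c0 *
        Complex.exp (-Real.pi * (a : ℂ) * (k : ℂ) ^ 2 + 2 * Real.pi * b * k) := by
    intro k
    unfold ex gw
    rw [div_eq_mul_inv]
    push_cast
    have aux : ∀ A B C E F : ℂ, A + B = E + F → Complex.exp A * (Complex.exp B * C) =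
        C * Complex.exp E * Complex.exp F := by
      intro A B C E F h
      rw [mul_assoc, ← Complex.exp_add, ← h, Complex.exp_add]
      ring
    refine aux _ _ _ _ _ ?_
    rw [hc0, hb, ha]
    push_cast
    field_simp
    ring
  simp only [e1]
  rw [tsum_mul_left, hP, ← mul_assoc, ← mul_assoc, ← tsum_mul_left]
  have ea : (a : ℂ) ^ (1 / 2 : ℂ) = ((α / (Real.sqrt Real.pi * H) : ℝ) : ℂ) := by
    have h1 : a ^ (1 / 2 : ℝ) = α / (Real.sqrt Real.pi * H) := by
      rw [← Real.sqrt_eq_rpow, ha, Real.sqrt_div (by positivity), Real.sqrt_mul hπ.le,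
        Real.sqrt_sq hα.le, Real.sqrt_sq hH.le]
    rw [← h1, Complex.ofReal_cpow ha0.le]
    norm_num
  refine tsum_congr fun n => ?_
  rw [ea]
  have hs : (Real.sqrt Real.pi : ℂ) ≠ 0 := by
    exact_mod_cast (Real.sqrt_pos.mpr hπ).ne'
  have e2 : (α : ℂ) * ((((H * Real.sqrt Real.pi)⁻¹ : ℝ) : ℂ) * Complex.exp c0) *
      (1 / ((α / (Real.sqrt Real.pi * H) : ℝ) : ℂ)) = Complex.exp c0 := by
    push_cast
    field_simp
  rw [e2, ← Complex.exp_add]
  unfold du ex gq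
  push_cast
  rw [← Complex.exp_add, ← Complex.exp_add]
  congr 1
  rw [hc0, hb, ha]
  push_cast
  have hI : Complex.I ^ 2 = -1 := Complex.I_sq
  field_simp
  ring_nf
  simp only [hI, show Complex.I ^ 3 = -Complex.I by rw [pow_succ, hI]; ring, show Complex.I ^ 4 = 1 by rw [show (4:ℕ) = 2 * 2 by norm_num, pow_mul, hI]; norm_num]
  ring


lemma gauss_lam (c y : ℝ) (hc : 0 < c) (n : ℤ) :
    Real.exp (-(c * (y - n) ^ 2)) ≤ (1 + 4 / c) * lam (n - round y) := by
  have h4 : 0 < 4 / c := by positivity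
  by_cases h : n - round y = 0
  · rw [h]
    have e1 : lam 0 = 1 := by unfold lam; simp
    rw [e1]
    have : Real.exp (-(c * (y - n) ^ 2)) ≤ 1 := by
      rw [Real.exp_le_one_iff]
      have : 0 ≤ c * (y - n) ^ 2 := by positivity
      linarith
    linarith
  · have e1 : lam (n - round y) = 1 / ((n - round y : ℤ) : ℝ) ^ 2 := by
      unfold lam; rw [if_neg h]
    rw [e1]
    have h1 : |y - round y| ≤ 1 / 2 := abs_sub_round y
    have h2 : (1:ℝ) ≤ |((n - round y : ℤ) : ℝ)| := by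
      rw [← Int.cast_abs]
      exact_mod_cast Int.one_le_abs h
    have h3 : |((n - round y : ℤ) : ℝ)| ≤ |y - n| + |y - round y| := by
      have : ((n - round y : ℤ) : ℝ) = (y - round y) - (y - n) := by push_cast; ring
      rw [this]
      have := abs_sub (y - round y) (y - n)
      linarith
    have h5 : |((n - round y : ℤ) : ℝ)| / 2 ≤ |y - n| := by linarith
    have h6 : ((n - round y : ℤ) : ℝ) ^ 2 / 4 ≤ (y - n) ^ 2 := by
      rw [← sq_abs ((n - round y : ℤ) : ℝ), ← sq_abs (y - n)]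
      nlinarith [abs_nonneg (y - n), abs_nonneg ((n - round y : ℤ) : ℝ)]
    have h7 : 0 < ((n - round y : ℤ) : ℝ) ^ 2 := by
      rw [← sq_abs]; nlinarith
    have h8 : 0 < (y - n) ^ 2 := by linarith [h6, (by positivity : 0 < ((n - round y : ℤ) : ℝ) ^ 2 / 4)]
    have h9 : Real.exp (-(c * (y - n) ^ 2)) ≤ 1 / (c * (y - n) ^ 2) := by
      rw [Real.exp_neg, ← one_div]
      exact one_div_le_one_div_of_le (by positivity) (by linarith [Real.add_one_le_exp (c * (y - n) ^ 2)])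
    have h10 : 1 / (c * (y - n) ^ 2) ≤ 1 / (c * (((n - round y : ℤ) : ℝ) ^ 2 / 4)) :=
      one_div_le_one_div_of_le (by positivity) (by gcongr)
    have h11 : 1 / (c * (((n - round y : ℤ) : ℝ) ^ 2 / 4)) = 4 / c * (1 / ((n - round y : ℤ) : ℝ) ^ 2) := by
      field_simp
    have h12 : 0 ≤ 1 / ((n - round y : ℤ) : ℝ) ^ 2 := by positivity
    calc _ ≤ 4 / c * (1 / ((n - round y : ℤ) : ℝ) ^ 2) := by rw [← h11]; exact h9.trans h10
      _ ≤ _ := by nlinarith

lemma lam_shift_summable (m : ℤ) : Summable fun n : ℤ => lam (n - m) :=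
  lam_summable.comp_injective (i := fun n : ℤ => n - m) (fun a b h => by simpa using h)

lemma lam_shift_tsum (m : ℤ) : ∑' n : ℤ, lam (n - m) = Lam :=
  (Equiv.subRight m).tsum_eq lam

lemma gw_summable (α β τ H : ℝ) (hα : 0 < α) (hH : 0 < H) :
    Summable fun k : ℤ => gw τ H (α * k + β) := by
  refine Summable.of_nonneg_of_le (fun k => ?_) (fun k => ?_)
    ((lam_shift_summable (round ((τ - β) / α))).mul_left ((1 + 4 / (α ^ 2 / H ^ 2)) / (H * Real.sqrt Real.pi)))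
  · unfold gw; positivity
  · have h := gauss_lam (α ^ 2 / H ^ 2) ((τ - β) / α) (by positivity) k
    unfold gw
    have e : -((α * k + β - τ) ^ 2 / H ^ 2) = -(α ^ 2 / H ^ 2 * ((τ - β) / α - k) ^ 2) := by
      field_simp
      ring
    have hd : 0 ≤ H * Real.sqrt Real.pi := by positivity
    have h2 := div_le_div_of_nonneg_right h hd
    rw [e]
    refine h2.trans (le_of_eq ?_)
    ring

lemma exgw_summable (α β τ H x : ℝ) (hα : 0 < α) (hH : 0 < H) :
    Summable fun k : ℤ => ex x (α * k + β) * (gw τ H (α * k + β) : ℂ) := by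
  refine Summable.of_norm ((gw_summable α β τ H hα hH).congr fun k => ?_)
  rw [norm_mul, ex_norm, one_mul, Complex.norm_real, Real.norm_of_nonneg]
  unfold gw; positivity

/-- the contribution of the far frequencies -/
def far (α H ρ : ℝ) : ℝ :=
  Real.exp (-(H ^ 2 * ρ ^ 2 / 8)) * ((1 + 4 / (H ^ 2 * (2 * Real.pi / α) ^ 2 / 8)) * Lam)

lemma Lam_nonneg : 0 ≤ Lam := tsum_nonneg fun m => lam_nonneg m

lemma far_nonneg (α H ρ : ℝ) : 0 ≤ far α H ρ := by
  unfold far
  have := Lam_nonneg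
  positivity

lemma du_norm (α β τ H x : ℝ) (n : ℤ) : ‖du α β τ H x n‖ = gq H (x - 2 * Real.pi * n / α) := by
  unfold du
  rw [norm_mul, norm_mul, ex_norm, ex_norm, one_mul, one_mul, Complex.norm_real,
    Real.norm_of_nonneg (gq_nonneg _ _)]

lemma gq_far_lam (α H ρ x : ℝ) (hα : 0 < α) (hH : 0 < H) (hρ : 0 ≤ ρ) (n : ℤ)
    (hn : ρ ≤ |x - 2 * Real.pi * n / α|) :
    gq H (x - 2 * Real.pi * n / α) ≤ Real.exp (-(H ^ 2 * ρ ^ 2 / 8)) *
      ((1 + 4 / (H ^ 2 * (2 * Real.pi / α) ^ 2 / 8)) * lam (n - round (x / (2 * Real.pi / α)))) := by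
  have hπ := Real.pi_pos
  have h := gauss_lam (H ^ 2 * (2 * Real.pi / α) ^ 2 / 8) (x / (2 * Real.pi / α)) (by positivity) n
  have e1 : H ^ 2 * (2 * Real.pi / α) ^ 2 / 8 * (x / (2 * Real.pi / α) - n) ^ 2 =
      H ^ 2 * (x - 2 * Real.pi * n / α) ^ 2 / 8 := by
    field_simp
  rw [e1] at h
  have h2 : ρ ^ 2 ≤ (x - 2 * Real.pi * n / α) ^ 2 := by
    rw [← sq_abs (x - _)]
    exact pow_le_pow_left₀ hρ hn 2
  unfold gq
  have e2 : -(H ^ 2 * (x - 2 * Real.pi * n / α) ^ 2 / 4) = -(H ^ 2 * (x - 2 * Real.pi * n / α) ^ 2 / 8) +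
      -(H ^ 2 * (x - 2 * Real.pi * n / α) ^ 2 / 8) := by ring
  rw [e2, Real.exp_add]
  refine mul_le_mul ?_ h (Real.exp_pos _).le (Real.exp_pos _).le
  apply Real.exp_le_exp.mpr
  have : 0 ≤ H ^ 2 := by positivity
  nlinarith

lemma gq_any_lam (α H x : ℝ) (hα : 0 < α) (hH : 0 < H) (n : ℤ) :
    gq H (x - 2 * Real.pi * n / α) ≤
      (1 + 4 / (H ^ 2 * (2 * Real.pi / α) ^ 2 / 8)) * lam (n - round (x / (2 * Real.pi / α))) := by
  have h := gq_far_lam α H 0 x hα hH le_rfl n (abs_nonneg _)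
  simpa using h

lemma du_norm_summable (α β τ H x : ℝ) (hα : 0 < α) (hH : 0 < H) :
    Summable fun n : ℤ => ‖du α β τ H x n‖ := by
  refine Summable.of_nonneg_of_le (fun n => norm_nonneg _) (fun n => ?_)
    ((lam_shift_summable (round (x / (2 * Real.pi / α)))).mul_left
      (1 + 4 / (H ^ 2 * (2 * Real.pi / α) ^ 2 / 8)))
  rw [du_norm]
  exact gq_any_lam α H x hα hH n

/-- all frequencies are far except possibly `n₁` -/
lemma rest_le (α β τ H ρ x : ℝ) (hα : 0 < α) (hH : 0 < H) (hρ : 0 ≤ ρ) (n₁ : ℤ)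
    (h : ∀ n : ℤ, n ≠ n₁ → ρ ≤ |x - 2 * Real.pi * n / α|) :
    ‖(∑' n : ℤ, du α β τ H x n) - du α β τ H x n₁‖ ≤ far α H ρ := by
  have hs := (du_norm_summable α β τ H x hα hH).of_norm
  rw [hs.tsum_eq_add_tsum_ite n₁, add_sub_cancel_left]
  have hL := lam_shift_summable (round (x / (2 * Real.pi / α)))
  have hb : ∀ n : ℤ, ‖if n = n₁ then (0:ℂ) else du α β τ H x n‖ ≤
      Real.exp (-(H ^ 2 * ρ ^ 2 / 8)) * ((1 + 4 / (H ^ 2 * (2 * Real.pi / α) ^ 2 / 8)) *
        lam (n - round (x / (2 * Real.pi / α)))) := by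
    intro n
    split_ifs with hn
    · rw [norm_zero]
      have := lam_nonneg (n - round (x / (2 * Real.pi / α)))
      positivity
    · rw [du_norm]
      exact gq_far_lam α H ρ x hα hH hρ n (h n hn)
  have hS := (hL.mul_left (1 + 4 / (H ^ 2 * (2 * Real.pi / α) ^ 2 / 8))).mul_left
    (Real.exp (-(H ^ 2 * ρ ^ 2 / 8)))
  refine (tsum_of_norm_bounded hS.hasSum hb).trans (le_of_eq ?_)
  rw [tsum_mul_left, tsum_mul_left, lam_shift_tsum]
  rfl

/-- the normalised sum of an exponential over the progression -/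
def SA (α β τ H x : ℝ) : ℂ := (α : ℂ) * ∑' k : ℤ, ex x (α * k + β) * (gw τ H (α * k + β) : ℂ)

theorem SA_far (α β τ H ρ x : ℝ) (hα : 0 < α) (hH : 0 < H) (hρ : 0 ≤ ρ)
    (h : ∀ n : ℤ, ρ ≤ |x - 2 * Real.pi * n / α|) : ‖SA α β τ H x‖ ≤ 2 * far α H ρ := by
  unfold SA
  rw [poisson α β τ H x hα hH]
  have h1 := rest_le α β τ H ρ x hα hH hρ 0 fun n _ => h n
  have h2 : ‖du α β τ H x 0‖ ≤ far α H ρ := by
    rw [du_norm]
    refine (gq_far_lam α H ρ x hα hH hρ 0 (h 0)).trans ?_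
    unfold far
    have hl : lam (0 - round (x / (2 * Real.pi / α))) ≤ Lam := by
      rw [← lam_shift_tsum (round (x / (2 * Real.pi / α)))]
      exact (lam_shift_summable _).le_tsum 0 fun m _ => lam_nonneg _
    gcongr
  have h3 := norm_add_le ((∑' n : ℤ, du α β τ H x n) - du α β τ H x 0) (du α β τ H x 0)
  rw [sub_add_cancel] at h3
  linarith

theorem SA_any (α β τ H ρ x : ℝ) (hα : 0 < α) (hH : 0 < H) (hρ : 0 ≤ ρ) (hρα : 2 * ρ ≤ 2 * Real.pi / α) :
    ‖SA α β τ H x‖ ≤ 1 + 2 * far α H ρ := by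
  by_cases h : ∀ n : ℤ, ρ ≤ |x - 2 * Real.pi * n / α|
  · have := SA_far α β τ H ρ x hα hH hρ h
    linarith
  · push Not at h
    obtain ⟨n₁, hn₁⟩ := h
    unfold SA
    rw [poisson α β τ H x hα hH]
    have h1 := rest_le α β τ H ρ x hα hH hρ n₁ fun n hn => by
      by_contra hc
      rw [not_le] at hc
      have hd : |2 * Real.pi * n / α - 2 * Real.pi * n₁ / α| < 2 * ρ := by
        have := abs_sub (x - 2 * Real.pi * n₁ / α) (x - 2 * Real.pi * n / α)
        have e : 2 * Real.pi * n / α - 2 * Real.pi * n₁ / α =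
          (x - 2 * Real.pi * n₁ / α) - (x - 2 * Real.pi * n / α) := by ring
        rw [e]
        linarith
      have e : 2 * Real.pi * n / α - 2 * Real.pi * n₁ / α = (2 * Real.pi / α) * ((n - n₁ : ℤ) : ℝ) := by
        push_cast; ring
      rw [e, abs_mul] at hd
      have h5 : (1:ℝ) ≤ |((n - n₁ : ℤ) : ℝ)| := by
        rw [← Int.cast_abs]
        exact_mod_cast Int.one_le_abs (sub_ne_zero.mpr hn)
      have h6 : 0 < 2 * Real.pi / α := by have := Real.pi_pos; positivity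
      rw [abs_of_pos h6] at hd
      nlinarith
    have h2 : ‖du α β τ H x n₁‖ ≤ 1 := by rw [du_norm]; exact gq_le_one _ _
    have h3 := norm_add_le ((∑' n : ℤ, du α β τ H x n) - du α β τ H x n₁) (du α β τ H x n₁)
    rw [sub_add_cancel] at h3
    have := far_nonneg α H ρ
    linarith

theorem SA_zero (α β τ H ρ : ℝ) (hα : 0 < α) (hH : 0 < H) (hρ : 0 ≤ ρ) (hρα : ρ ≤ 2 * Real.pi / α) :
    ‖SA α β τ H 0 - 1‖ ≤ far α H ρ := by
  unfold SA
  rw [poisson α β τ H 0 hα hH]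
  have h1 := rest_le α β τ H ρ 0 hα hH hρ 0 fun n hn => by
    have h6 : 0 < 2 * Real.pi / α := by have := Real.pi_pos; positivity
    have e : (0:ℝ) - 2 * Real.pi * n / α = -((2 * Real.pi / α) * (n : ℝ)) := by ring
    rw [e, abs_neg, abs_mul, abs_of_pos h6]
    have h5 : (1:ℝ) ≤ |(n : ℝ)| := by
      rw [← Int.cast_abs]
      exact_mod_cast Int.one_le_abs hn
    nlinarith
  have e : du α β τ H 0 0 = 1 := by
    unfold du ex gq
    simp
  rw [e] at h1
  exact h1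

end
end Pool.Agent.W5h80.AP
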