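import Pool.Agent.W5h80.AP.P

set_option autoImplicit false

/-! Gaussian averages of products of Dirichlet polynomials over arithmetic progressions of heights. -/

namespace Pool.Agent.W5h80.AP

open Finset Filter Topology
open Pool.Agent.H306R2 Pool.Agent.R311.BS

noncomputable section

/-- the Gaussian average over the progression -/
def DS (α β τ H : ℝ) (F : ℝ → ℂ) : ℂ := (α : ℂ) * ∑' k : ℤ, F (α * k + β) * (gw τ H (α * k + β) : ℂ)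

lemma SA_pair (α β τ H ρ Z : ℝ) (M : ℕ) (hα : 0 < α) (hH : 0 < H) (hρ : 0 ≤ ρ)
    (hρα : 2 * ρ ≤ 2 * Real.pi / α) (n l : ℕ) (hn : 1 ≤ n) (hl : 1 ≤ l)
    (hgap : n ≠ l → ρ ≤ |Real.log n - Real.log l|)
    (hM : ∀ m : ℤ, m ∉ Icc (-(M:ℤ)) M → ρ ≤ |2 * Real.pi * m / α - Real.log n + Real.log l|) :
    ‖SA α β τ H (-Real.log n + Real.log l) - (if n = l then 1 else 0)‖ ≤ 2 * far α H ρ +
      (1 + 2 * far α H ρ) * ∑ m ∈ (Icc (-(M:ℤ)) M).erase 0,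
        (if |2 * Real.pi * m / α - Real.log n + Real.log l| < ρ then (1:ℝ) else 0) := by
  have hfar := far_nonneg α H ρ
  have hS0 : 0 ≤ ∑ m ∈ (Icc (-(M:ℤ)) M).erase 0,
        (if |2 * Real.pi * m / α - Real.log n + Real.log l| < ρ then (1:ℝ) else 0) :=
    sum_nonneg fun m _ => by split_ifs <;> norm_num
  by_cases h : n = l
  · subst h
    rw [if_pos rfl]
    have e : -Real.log n + Real.log n = 0 := by ring
    rw [e]
    have := SA_zero α β τ H ρ hα hH hρ (by linarith)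
    nlinarith [mul_nonneg hfar hS0]
  · rw [if_neg h, sub_zero]
    by_cases h2 : ∀ m : ℤ, ρ ≤ |-Real.log n + Real.log l - 2 * Real.pi * m / α|
    · have := SA_far α β τ H ρ _ hα hH hρ h2
      nlinarith [mul_nonneg hfar hS0]
    · push Not at h2
      obtain ⟨m, hm⟩ := h2
      have hm' : |2 * Real.pi * ((-m : ℤ) : ℝ) / α - Real.log n + Real.log l| < ρ := by
        have e : 2 * Real.pi * ((-m : ℤ) : ℝ) / α - Real.log n + Real.log l =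
          -Real.log n + Real.log l - 2 * Real.pi * m / α := by push_cast; ring
        rw [e]; exact hm
      have hmem : (-m) ∈ (Icc (-(M:ℤ)) M).erase 0 := by
        rw [mem_erase]
        constructor
        · intro h0
          rw [h0] at hm'
          have e : 2 * Real.pi * ((0 : ℤ) : ℝ) / α - Real.log n + Real.log l = -(Real.log n - Real.log l) := by
            push_cast; ring
          rw [e, abs_neg] at hm'
          have := hgap h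
          linarith
        · by_contra hc
          have := hM (-m) hc
          linarith
      have h1 : (1:ℝ) ≤ ∑ m ∈ (Icc (-(M:ℤ)) M).erase 0,
        (if |2 * Real.pi * m / α - Real.log n + Real.log l| < ρ then (1:ℝ) else 0) := by
        have h3 := single_le_sum (f := fun m : ℤ =>
          (if |2 * Real.pi * m / α - Real.log n + Real.log l| < ρ then (1:ℝ) else 0))
          (fun m _ => by split_ifs <;> norm_num) hmem
        rw [if_pos hm'] at h3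
        exact h3
      have h4 := SA_any α β τ H ρ (-Real.log n + Real.log l) hα hH hρ hρα
      nlinarith

/-- the near pairs -/
def NS (α ρ : ℝ) (M : ℕ) (f g : ℕ → ℝ) (X Y : ℝ) : ℝ :=
  ∑ m ∈ (Icc (-(M:ℤ)) M).erase 0, NN f g X Y ρ (2 * Real.pi * m / α)

lemma NS_nonneg (α ρ : ℝ) (M : ℕ) (f g : ℕ → ℝ) (X Y : ℝ) : 0 ≤ NS α ρ M f g X Y := by
  refine sum_nonneg fun m _ => sum_nonneg fun n _ => sum_nonneg fun l _ => ?_
  split_ifs
  · positivity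
  · exact le_refl _

theorem DS_expand (α β τ H ρ X Y : ℝ) (M : ℕ) (f g : ℕ → ℝ) (hα : 0 < α) (hH : 0 < H) (hρ : 0 ≤ ρ)
    (hρα : 2 * ρ ≤ 2 * Real.pi / α) (hYX : Y ≤ X)
    (hgap : ∀ n l : ℕ, 1 ≤ n → (n:ℝ) ≤ X → 1 ≤ l → (l:ℝ) ≤ Y → n ≠ l → ρ ≤ |Real.log n - Real.log l|)
    (hM : ∀ m : ℤ, m ∉ Icc (-(M:ℤ)) M → ∀ n l : ℕ, 1 ≤ n → (n:ℝ) ≤ X → 1 ≤ l → (l:ℝ) ≤ Y →
      ρ ≤ |2 * Real.pi * m / α - Real.log n + Real.log l|) :
    (Summable fun k : ℤ => (Dp f X (1 / 2 + (α * k + β : ℝ) * Complex.I) *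
      (starRingEnd ℂ) (Dp g Y (1 / 2 + (α * k + β : ℝ) * Complex.I))) * (gw τ H (α * k + β) : ℂ)) ∧
    ‖DS α β τ H (fun t => Dp f X (1 / 2 + t * Complex.I) * (starRingEnd ℂ) (Dp g Y (1 / 2 + t * Complex.I))) -
      ((∑ n ∈ Icc 1 ⌊Y⌋₊, f n * g n / n : ℝ) : ℂ)‖ ≤
      (1 + 2 * far α H ρ) * NS α ρ M f g X Y + 2 * far α H ρ * (l1 f X * l1 g Y) := by
  have hfar := far_nonneg α H ρ
  have hmem : ∀ {U : ℝ} {n : ℕ}, n ∈ Icc 1 ⌊U⌋₊ → 1 ≤ n ∧ (n:ℝ) ≤ U := by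
    intro U n hn
    rw [mem_Icc] at hn
    refine ⟨hn.1, ?_⟩
    have h0 : 0 < ⌊U⌋₊ := by omega
    exact (Nat.cast_le.mpr hn.2).trans (Nat.floor_le (Nat.floor_pos.mp h0 |>.trans' zero_le_one))
  have hexp : ∀ t : ℝ, (Dp f X (1 / 2 + t * Complex.I) *
      (starRingEnd ℂ) (Dp g Y (1 / 2 + t * Complex.I))) * (gw τ H t : ℂ) =
      ∑ n ∈ Icc 1 ⌊X⌋₊, ∑ l ∈ Icc 1 ⌊Y⌋₊,
      (((f n * (Real.sqrt n)⁻¹ : ℝ) : ℂ) * ((g l * (Real.sqrt l)⁻¹ : ℝ) : ℂ)) *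
        (ex (-Real.log n + Real.log l) t * (gw τ H t : ℂ)) := by
    intro t
    rw [Dp_line, Dp_line_conj, sum_mul_sum, sum_mul]
    refine sum_congr rfl fun n _ => ?_
    rw [sum_mul]
    refine sum_congr rfl fun l _ => ?_
    rw [ex_add]
    ring
  have hsum : ∀ n ∈ Icc 1 ⌊X⌋₊, ∀ l ∈ Icc 1 ⌊Y⌋₊, Summable fun k : ℤ =>
      (((f n * (Real.sqrt n)⁻¹ : ℝ) : ℂ) * ((g l * (Real.sqrt l)⁻¹ : ℝ) : ℂ)) *
        (ex (-Real.log n + Real.log l) (α * k + β) * (gw τ H (α * k + β) : ℂ)) := fun n _ l _ =>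
    (exgw_summable α β τ H _ hα hH).mul_left _
  constructor
  · simp only [hexp]
    exact summable_sum fun n hn => summable_sum fun l hl => hsum n hn l hl
  · unfold DS
    simp only [hexp]
    rw [Summable.tsum_finsetSum fun n hn => summable_sum fun l hl => hsum n hn l hl]
    have e1 : ∀ n ∈ Icc 1 ⌊X⌋₊, ∑' k : ℤ, ∑ l ∈ Icc 1 ⌊Y⌋₊,
        (((f n * (Real.sqrt n)⁻¹ : ℝ) : ℂ) * ((g l * (Real.sqrt l)⁻¹ : ℝ) : ℂ)) *
        (ex (-Real.log n + Real.log l) (α * k + β) * (gw τ H (α * k + β) : ℂ)) =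
        ∑ l ∈ Icc 1 ⌊Y⌋₊, (((f n * (Real.sqrt n)⁻¹ : ℝ) : ℂ) * ((g l * (Real.sqrt l)⁻¹ : ℝ) : ℂ)) *
          ∑' k : ℤ, (ex (-Real.log n + Real.log l) (α * k + β) * (gw τ H (α * k + β) : ℂ)) := by
      intro n hn
      rw [Summable.tsum_finsetSum fun l hl => hsum n hn l hl]
      exact sum_congr rfl fun l _ => tsum_mul_left
    rw [sum_congr rfl e1, mul_sum]
    have e2 : ((∑ n ∈ Icc 1 ⌊Y⌋₊, f n * g n / n : ℝ) : ℂ) =
        ∑ n ∈ Icc 1 ⌊X⌋₊, ∑ l ∈ Icc 1 ⌊Y⌋₊,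
          (((f n * (Real.sqrt n)⁻¹ : ℝ) : ℂ) * ((g l * (Real.sqrt l)⁻¹ : ℝ) : ℂ)) * (if n = l then 1 else 0) := by
      rw [sum_comm]
      push_cast
      refine sum_congr rfl fun l hl => ?_
      have hl' := hmem hl
      have hlX : l ∈ Icc 1 ⌊X⌋₊ := by
        rw [mem_Icc] at hl ⊢
        exact ⟨hl.1, hl.2.trans (Nat.floor_le_floor hYX)⟩
      have e3 : ∀ n ∈ Icc 1 ⌊X⌋₊, ((f n : ℂ) * ((Real.sqrt n)⁻¹ : ℂ)) * ((g l : ℂ) * ((Real.sqrt l)⁻¹ : ℂ)) *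
          (if n = l then (1:ℂ) else 0) = if n = l then ((f n : ℂ) * ((Real.sqrt n)⁻¹ : ℂ)) *
            ((g l : ℂ) * ((Real.sqrt l)⁻¹ : ℂ)) else 0 := by
        intro n _
        split_ifs <;> simp
      rw [sum_congr rfl e3, sum_ite_eq' (Icc 1 ⌊X⌋₊) l, if_pos hlX]
      have hl0 : (0:ℝ) < l := by exact_mod_cast hl'.1
      have s3 : ((Real.sqrt l)⁻¹ : ℂ) * ((Real.sqrt l)⁻¹ : ℂ) = 1 / (l:ℂ) := by
        have : (Real.sqrt l)⁻¹ * (Real.sqrt l)⁻¹ = 1 / (l:ℝ) := by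
          rw [← mul_inv, Real.mul_self_sqrt hl0.le, one_div]
        have h' := congrArg (fun x : ℝ => (x : ℂ)) this
        push_cast at h'
        exact h'
      calc (f l : ℂ) * (g l : ℂ) / (l : ℂ) = (f l : ℂ) * (g l : ℂ) * (1 / (l:ℂ)) := by ring
        _ = _ := by rw [← s3]; ring
    have hR : (1 + 2 * far α H ρ) * NS α ρ M f g X Y + 2 * far α H ρ * (l1 f X * l1 g Y) =
        ∑ n ∈ Icc 1 ⌊X⌋₊, ∑ l ∈ Icc 1 ⌊Y⌋₊, ((1 + 2 * far α H ρ) *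
          (∑ m ∈ (Icc (-(M:ℤ)) M).erase 0, if |2 * Real.pi * m / α - Real.log n + Real.log l| < ρ then
            (|f n| * (Real.sqrt n)⁻¹) * (|g l| * (Real.sqrt l)⁻¹) else 0) +
          2 * far α H ρ * (|f n| * |g l|)) := by
      unfold NS NN l1
      simp only [sum_add_distrib, ← mul_sum]
      congr 1
      · congr 1
        rw [sum_comm]
        refine sum_congr rfl fun n _ => ?_
        rw [sum_comm]
      · rw [sum_mul]
    rw [hR, e2, ← sum_sub_distrib]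
    refine norm_sum_le_of_le _ fun n hn => ?_
    rw [mul_sum, ← sum_sub_distrib]
    refine norm_sum_le_of_le _ fun l hl => ?_
    have hn' := hmem hn
    have hl' := hmem hl
    have hp := SA_pair α β τ H ρ 0 M hα hH hρ hρα n l hn'.1 hl'.1
      (hgap n l hn'.1 hn'.2 hl'.1 hl'.2) (fun m hm => hM m hm n l hn'.1 hn'.2 hl'.1 hl'.2)
    have e4 : (α : ℂ) * ((((f n * (Real.sqrt n)⁻¹ : ℝ) : ℂ) * ((g l * (Real.sqrt l)⁻¹ : ℝ) : ℂ)) *
          ∑' k : ℤ, (ex (-Real.log n + Real.log l) (α * k + β) * (gw τ H (α * k + β) : ℂ))) -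
        (((f n * (Real.sqrt n)⁻¹ : ℝ) : ℂ) * ((g l * (Real.sqrt l)⁻¹ : ℝ) : ℂ)) * (if n = l then 1 else 0) =
        (((f n * (Real.sqrt n)⁻¹ : ℝ) : ℂ) * ((g l * (Real.sqrt l)⁻¹ : ℝ) : ℂ)) *
          (SA α β τ H (-Real.log n + Real.log l) - (if n = l then 1 else 0)) := by
      unfold SA
      ring
    rw [e4, norm_mul]
    have h1 : ‖((f n * (Real.sqrt n)⁻¹ : ℝ) : ℂ) * ((g l * (Real.sqrt l)⁻¹ : ℝ) : ℂ)‖ =
        (|f n| * (Real.sqrt n)⁻¹) * (|g l| * (Real.sqrt l)⁻¹) := by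
      rw [norm_mul, Complex.norm_real, Complex.norm_real, Real.norm_eq_abs, Real.norm_eq_abs, abs_mul,
        abs_mul, abs_inv, abs_inv, abs_of_nonneg (Real.sqrt_nonneg _), abs_of_nonneg (Real.sqrt_nonneg _)]
    rw [h1]
    have h2 : 0 ≤ (|f n| * (Real.sqrt n)⁻¹) * (|g l| * (Real.sqrt l)⁻¹) := by positivity
    have h3 : (|f n| * (Real.sqrt n)⁻¹) * (|g l| * (Real.sqrt l)⁻¹) ≤ |f n| * |g l| := by
      have a1 := inv_sqrt_le_one hn'.1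
      have a2 := inv_sqrt_le_one hl'.1
      calc _ ≤ (|f n| * 1) * (|g l| * 1) := by gcongr
        _ = _ := by ring
    refine (mul_le_mul_of_nonneg_left hp h2).trans ?_
    have h5 : (|f n| * (Real.sqrt n)⁻¹) * (|g l| * (Real.sqrt l)⁻¹) * (∑ m ∈ (Icc (-(M:ℤ)) M).erase 0,
        (if |2 * Real.pi * m / α - Real.log n + Real.log l| < ρ then (1:ℝ) else 0)) =
        ∑ m ∈ (Icc (-(M:ℤ)) M).erase 0, if |2 * Real.pi * m / α - Real.log n + Real.log l| < ρ then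
            (|f n| * (Real.sqrt n)⁻¹) * (|g l| * (Real.sqrt l)⁻¹) else 0 := by
      rw [mul_sum]
      refine sum_congr rfl fun m _ => ?_
      split_ifs <;> simp
    obtain ⟨cc, hcc⟩ : ∃ cc : ℝ, cc = (|f n| * (Real.sqrt n)⁻¹) * (|g l| * (Real.sqrt l)⁻¹) := ⟨_, rfl⟩
    rw [← hcc] at h2 h3 h5 ⊢
    rw [← h5]
    have h6 : cc * (2 * far α H ρ) ≤ (|f n| * |g l|) * (2 * far α H ρ) := by gcongr
    have h7 : cc * (2 * far α H ρ + (1 + 2 * far α H ρ) * ∑ m ∈ (Icc (-(M:ℤ)) M).erase 0,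
        (if |2 * Real.pi * m / α - Real.log n + Real.log l| < ρ then (1:ℝ) else 0)) =
        (1 + 2 * far α H ρ) * (cc * ∑ m ∈ (Icc (-(M:ℤ)) M).erase 0,
        (if |2 * Real.pi * m / α - Real.log n + Real.log l| < ρ then (1:ℝ) else 0)) +
        cc * (2 * far α H ρ) := by ring
    rw [h7]
    linarith

/-- the mean square of a Dirichlet polynomial over the progression -/
theorem DS_sq (α β τ H ρ Y : ℝ) (M : ℕ) (f : ℕ → ℝ) (hα : 0 < α) (hH : 0 < H) (hρ : 0 ≤ ρ)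
    (hρα : 2 * ρ ≤ 2 * Real.pi / α)
    (hgap : ∀ n l : ℕ, 1 ≤ n → (n:ℝ) ≤ Y → 1 ≤ l → (l:ℝ) ≤ Y → n ≠ l → ρ ≤ |Real.log n - Real.log l|)
    (hM : ∀ m : ℤ, m ∉ Icc (-(M:ℤ)) M → ∀ n l : ℕ, 1 ≤ n → (n:ℝ) ≤ Y → 1 ≤ l → (l:ℝ) ≤ Y →
      ρ ≤ |2 * Real.pi * m / α - Real.log n + Real.log l|) :
    (Summable fun k : ℤ => ‖Dp f Y (1 / 2 + (α * k + β : ℝ) * Complex.I)‖ ^ 2 * gw τ H (α * k + β)) ∧
    α * ∑' k : ℤ, ‖Dp f Y (1 / 2 + (α * k + β : ℝ) * Complex.I)‖ ^ 2 * gw τ H (α * k + β) ≤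
      (∑ n ∈ Icc 1 ⌊Y⌋₊, f n ^ 2 / n) + (1 + 2 * far α H ρ) * NS α ρ M f f Y Y +
        2 * far α H ρ * (l1 f Y * l1 f Y) := by
  obtain ⟨h1, h2⟩ := DS_expand α β τ H ρ Y Y M f f hα hH hρ hρα le_rfl hgap hM
  have e0 : ∀ t : ℝ, (Dp f Y (1 / 2 + t * Complex.I) * (starRingEnd ℂ) (Dp f Y (1 / 2 + t * Complex.I))) *
      (gw τ H t : ℂ) = ((‖Dp f Y (1 / 2 + t * Complex.I)‖ ^ 2 * gw τ H t : ℝ) : ℂ) := by
    intro t
    rw [Complex.mul_conj, Complex.normSq_eq_norm_sq]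
    push_cast
    rfl
  simp only [e0] at h1
  have h1' : Summable fun k : ℤ => ‖Dp f Y (1 / 2 + (α * k + β : ℝ) * Complex.I)‖ ^ 2 * gw τ H (α * k + β) :=
    Complex.summable_ofReal.mp h1
  refine ⟨h1', ?_⟩
  unfold DS at h2
  simp only [e0] at h2
  rw [← Complex.ofReal_tsum, ← Complex.ofReal_mul, ← Complex.ofReal_sub, Complex.norm_real,
    Real.norm_eq_abs] at h2
  have h3 := (abs_le.mp h2).2
  have e1 : ∑ n ∈ Icc 1 ⌊Y⌋₊, f n * f n / (n:ℝ) = ∑ n ∈ Icc 1 ⌊Y⌋₊, f n ^ 2 / (n:ℝ) :=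
    sum_congr rfl fun n _ => by rw [sq]
  rw [e1] at h3
  linarith

end
end Pool.Agent.W5h80.AP
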