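import Pool.Agent.W5h80.AP.G

set_option autoImplicit false

/-! Averaging over the windows. -/

namespace Pool.Agent.W5h80.AP

open Finset Filter Topology MeasureTheory
open Pool.Agent.H306R2 Pool.Agent.R311.BS

noncomputable section

theorem window (a b : ℕ) (hb1 : 1 ≤ b) (hab : 2 * b ≤ a) {A : ℝ} (hA : 0 < A) {η : ℝ} (hη : 0 < η)
    (hη64 : η ≤ 1 / 64) :
    ∃ c : ℝ, 0 < c ∧ ∀ᶠ T : ℝ in atTop, ∀ τ : ℝ, T ≤ τ → τ ≤ 3 * T → ∀ α : ℝ, 0 < α → α ≤ A → ∀ β : ℝ,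
      c * Real.log T ^ (((a:ℝ) / (2 * b)) ^ 2) ≤
        α * ∑ k ∈ KI α β (τ - T ^ (1 / 2 + 9 * η)) (τ + T ^ (1 / 2 + 9 * η)),
          ‖zl (α * k + β)‖ ^ ((a:ℝ) / b) * gw τ (T ^ (1 / 2 + 8 * η)) (α * k + β) := by
  obtain ⟨κ, hκdef⟩ : ∃ κ : ℝ, κ = (a:ℝ) / (2 * b) := ⟨_, rfl⟩
  have hbr : (0:ℝ) < b := by exact_mod_cast (by omega : 0 < b)
  have har : (2:ℝ) * b ≤ a := by exact_mod_cast hab
  have hκ : 1 ≤ κ := by rw [hκdef, le_div_iff₀ (by positivity)]; linarith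
  have hκ0 : 0 ≤ κ := by linarith
  have hπ := Real.pi_pos
  obtain ⟨J, hJ⟩ := exists_nat_ge κ
  have hJ0 : (0:ℝ) ≤ J := Nat.cast_nonneg J
  have hLam := Lam_ge_one
  obtain ⟨CR, hCR, hRat⟩ := SP_ratio hκ a
  obtain ⟨c₂, hc₂⟩ : ∃ c₂ : ℝ, c₂ = 1 / CR := ⟨_, rfl⟩
  have hc₂pos : 0 < c₂ := by rw [hc₂]; positivity
  obtain ⟨ε, hεdef⟩ : ∃ ε : ℝ, ε = min 1 (c₂ / 16) := ⟨_, rfl⟩
  have hεpos : 0 < ε := by rw [hεdef]; exact lt_min one_pos (by positivity)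
  have hε1 : ε ≤ 1 := by rw [hεdef]; exact min_le_left _ _
  have hε2 : ε ≤ c₂ / 16 := by rw [hεdef]; exact min_le_right _ _
  obtain ⟨s, hs, hNS⟩ := NS_bound hκ hA hεpos
  obtain ⟨P, hPdef⟩ : ∃ P : ℕ, P = ∏ p ∈ s, p := ⟨_, rfl⟩
  obtain ⟨cS, hcS, hSev⟩ := SP_lower hκ s hs
  have hRat' := hRat s hs
  rw [← hPdef] at hSev hRat' hNS
  have hNSP : NSP κ A ε P := hNS
  have hP : 1 ≤ P := by
    rw [hPdef]
    exact Nat.pos_of_ne_zero (prod_ne_zero_iff.mpr fun p hp => (hs p hp).ne_zero)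
  have hPr : (1:ℝ) ≤ P := by exact_mod_cast hP
  obtain ⟨C5, hC5, hdv⟩ := dv_eps (κ := κ + 2) (by linarith) hη
  have hdvC : ∀ (θ : ℝ), 0 ≤ θ → θ ≤ κ + 2 → ∀ n : ℕ, dv θ n ≤ C5 * (n:ℝ) ^ η := by
    intro θ hθ0 hθ n
    exact (dv_mono hθ0 hθ n).trans (hdv n)
  obtain ⟨μ, hμdef⟩ : ∃ μ : ℝ, μ = c₂ / 48 := ⟨_, rfl⟩
  have hμpos : 0 < μ := by rw [hμdef]; positivity
  obtain ⟨ν, hν⟩ : ∃ ν : ℝ, ν = η / (a * (J + 2) + 2) := ⟨_, rfl⟩
  have hνpos : 0 < ν := by rw [hν]; positivity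
  have hνsum : ν * (a * (J + 2) + 2) = η := by
    rw [hν]; field_simp
  obtain ⟨E0, hE0⟩ : ∃ E0 : ℕ, E0 = 2 * a + 2 * J + 8 := ⟨_, rfl⟩
  obtain ⟨K1, hK1⟩ : ∃ K1 : ℝ, K1 = Real.log (10 * P) + 1 := ⟨_, rfl⟩
  have hP0 : (0:ℝ) < P := by linarith
  refine ⟨cS * ν ^ (κ ^ 2) / (4 * ((μ⁻¹) ^ ((a:ℝ) / b - 1) * (P:ℝ) ^ ((a:ℝ) / b))), by positivity, ?_⟩
  have ev1 : ∀ᶠ T : ℝ in atTop, cS * (ν * Real.log T) ^ (κ ^ 2) ≤ SP κ P ⌊T ^ ν⌋₊ := by
    have h1 : Tendsto (fun T : ℝ => ν * Real.log T) atTop atTop :=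
      Real.tendsto_log_atTop.const_mul_atTop hνpos
    filter_upwards [h1.eventually hSev, eventually_gt_atTop 0] with T hT hT0
    rw [Real.rpow_def_of_pos hT0, mul_comm (Real.log T)]
    exact hT
  have ev2 : ∀ᶠ T : ℝ in atTop, SP κ P ⌊(T ^ ν) ^ a⌋₊ ≤ CR * SP κ P ⌊T ^ ν⌋₊ := by
    have h1 : Tendsto (fun T : ℝ => ν * Real.log T) atTop atTop :=
      Real.tendsto_log_atTop.const_mul_atTop hνpos
    filter_upwards [h1.eventually hRat', eventually_gt_atTop 0] with T hT hT0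
    have e1 : (T ^ ν) ^ a = Real.exp (a * (ν * Real.log T)) := by
      rw [← Real.rpow_natCast, ← Real.rpow_mul hT0.le, Real.rpow_def_of_pos hT0]
      congr 1; ring
    rw [e1, Real.rpow_def_of_pos hT0, mul_comm (Real.log T)]
    exact hT
  have ev3 := ev_log_rpow_ge 100 (cS * ν ^ (κ ^ 2)) (κ ^ 2) (by positivity) (by positivity)
  have ev4 := ev_rpow_ge (A * K1 + 6 * A / η) (η / 2) (by positivity)
  have ev5 := ev_pow (4 * C5 ^ 2 * (160 * P + 2)) η hη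
  have ev6 := ev_small 0 (1 / 8) (4 * η) (2 * ((1 + A ^ 2) * Lam)) (by norm_num) (by positivity)
  have ev7 := ev_small (2 * E0) (1 / 8) (4 * η) (4 * ((1 + A ^ 2) * Lam) * (10 * P) ^ E0) (by norm_num)
    (by positivity)
  have ev8 := ev_small (2 * E0) (1 / 2) (2 * η) (4 * (10 * P) ^ E0) (by norm_num) (by positivity)
  have ev9 := ev_pow (2 * (1575 * Real.sqrt 2) * P) (1 / 2 - η) (by linarith)
  have ev10 := ev_rpow_ge 4 η hη
  have ev11 : ∀ᶠ T : ℝ in atTop, 1 ≤ η * Real.log T :=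
    (Real.tendsto_log_atTop.const_mul_atTop hη).eventually (eventually_ge_atTop 1)
  have ev12 := ev_pow 6 (1 / 2 - 8 * η) (by linarith)
  have ev13 := ev_pow (A / Real.pi) (1 / 2 + 6 * η) (by positivity)
  filter_upwards [ev1, ev2, ev3, ev4, ev5, ev6, ev7, ev8, ev9, ev10, ev11, ev12, ev13,
    eventually_ge_atTop 10] with T h1 h2 h3 h4 h5 h6 h7 h8 h9 h10 h11 h12 h13 hT τ hτ1 hτ2 α hα hαA β
  rw [← hκdef]
  exact window_det hb1 hab hκdef hκ0 hJ hA hη hη64 hCR hc₂ hc₂pos hε1 hε2 hNSP hP hC5 hdvC hμdef hνpos hνsum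
    hE0 hK1 h1 h2 h3 h4 h5 h6 h7 h8 h9 h10 h11 h12 h13 hT hτ1 hτ2 hα hαA β

/-- averaging over the centre of the window -/
lemma average {ι : Type*} (K : Finset ι) (F t : ι → ℝ) (hF : ∀ k, 0 ≤ F k) {H u v α J : ℝ} (hH : 0 < H)
    (huv : u ≤ v) (hα : 0 < α)
    (h : ∀ τ ∈ Set.Icc u v, J ≤ α * ∑ k ∈ K, F k * gw τ H (t k)) :
    (v - u) * J ≤ α * ∑ k ∈ K, F k := by
  have hint : ∀ x : ℝ, Integrable (fun τ => gw τ H x) := by
    intro x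
    have e : (fun τ => gw τ H x) = gw x H := by funext τ; exact gw_symm τ H x
    rw [e]
    exact gw_integrable x H hH
  have h1 : ∫ _τ in Set.Icc u v, J = (v - u) * J := by
    rw [setIntegral_const, smul_eq_mul]
    congr 1
    rw [Measure.real, Real.volume_Icc, ENNReal.toReal_ofReal (by linarith)]
  have hG : IntegrableOn (fun τ => α * ∑ k ∈ K, F k * gw τ H (t k)) (Set.Icc u v) :=
    ((integrable_finsetSum K fun k _ => (hint (t k)).const_mul (F k)).const_mul α).integrableOn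
  have h2 : ∫ _τ in Set.Icc u v, J ≤ ∫ τ in Set.Icc u v, α * ∑ k ∈ K, F k * gw τ H (t k) := by
    refine setIntegral_mono_on (integrableOn_const (by simp)) hG measurableSet_Icc h
  rw [h1, integral_const_mul, integral_finsetSum K fun k _ => ((hint (t k)).const_mul (F k)).integrableOn] at h2
  refine h2.trans ?_
  apply mul_le_mul_of_nonneg_left _ hα.le
  refine sum_le_sum fun k _ => ?_
  rw [integral_const_mul]
  have h3 : ∫ τ in Set.Icc u v, gw τ H (t k) ≤ 1 := by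
    have e : (fun τ => gw τ H (t k)) = gw (t k) H := by funext τ; exact gw_symm τ H (t k)
    rw [e, ← gw_integral (t k) H hH]
    exact setIntegral_le_integral (gw_integrable _ _ hH) (Eventually.of_forall fun τ => gw_nonneg _ _ _ hH)
  calc F k * ∫ τ in Set.Icc u v, gw τ H (t k) ≤ F k * 1 := mul_le_mul_of_nonneg_left h3 (hF k)
    _ = F k := mul_one _

theorem main (a b : ℕ) (hb1 : 1 ≤ b) (hab : 2 * b ≤ a) {A : ℝ} (hA : 0 < A) {ε : ℝ} (hε : 0 < ε) :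
    ∃ c : ℝ, 0 < c ∧ ∀ᶠ T : ℝ in atTop, ∀ H : ℝ, T ^ (1 / 2 + ε) ≤ H → H ≤ T →
      ∀ α : ℝ, 0 < α → α ≤ A → ∀ β : ℝ,
      c * H * Real.log T ^ (((a:ℝ) / b) ^ 2 / 4) ≤
        α * ∑ k ∈ Icc ⌈(T - β) / α⌉ ⌊(T + H - β) / α⌋,
          ‖riemannZeta (1 / 2 + ((α * k + β : ℝ) : ℂ) * Complex.I)‖ ^ ((a:ℝ) / b) := by
  obtain ⟨η, hηdef⟩ : ∃ η : ℝ, η = min (1 / 64) (ε / 10) := ⟨_, rfl⟩
  have hη : 0 < η := by rw [hηdef]; exact lt_min (by norm_num) (by positivity)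
  have hη64 : η ≤ 1 / 64 := by rw [hηdef]; exact min_le_left _ _
  have hηε : 10 * η ≤ ε := by
    have : η ≤ ε / 10 := by rw [hηdef]; exact min_le_right _ _
    linarith
  obtain ⟨c, hc, hev⟩ := window a b hb1 hab hA hη hη64
  refine ⟨c / 2, by positivity, ?_⟩
  filter_upwards [hev, ev_rpow_ge 4 η hη, eventually_ge_atTop 1] with T hT h4 hT1 H hH1 hH2 α hα hαA β
  have hT0 : 0 < T := by linarith
  have hlog : 0 ≤ Real.log T := Real.log_nonneg hT1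
  obtain ⟨R, hR⟩ : ∃ R : ℝ, R = T ^ (1 / 2 + 9 * η) := ⟨_, rfl⟩
  have hR0 : 0 < R := by rw [hR]; positivity
  have hRH : 4 * R ≤ H := by
    refine le_trans ?_ hH1
    calc 4 * R ≤ T ^ η * T ^ (1 / 2 + 9 * η) := by rw [hR]; gcongr
      _ = T ^ (1 / 2 + 10 * η) := by
          rw [← Real.rpow_add hT0]
          congr 1
          ring
      _ ≤ T ^ (1 / 2 + ε) := Real.rpow_le_rpow_of_exponent_le hT1 (by linarith)
  have hH0 : 0 < H := by linarith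
  have hg0 : 0 < T ^ (1 / 2 + 8 * η) := by positivity
  rw [← hR] at hT
  have hκe : ((a:ℝ) / (2 * b)) ^ 2 = ((a:ℝ) / b) ^ 2 / 4 := by
    have : (a:ℝ) / (2 * b) = (a:ℝ) / b / 2 := by rw [div_div, mul_comm]
    rw [this]; ring
  have hav := average (KI α β T (T + H)) (fun k : ℤ => ‖zl (α * k + β)‖ ^ ((a:ℝ) / b))
    (fun k : ℤ => α * k + β) (fun k => by positivity) (u := T + R) (v := T + H - R)
    (J := c * Real.log T ^ (((a:ℝ) / (2 * b)) ^ 2)) hg0 (by linarith) hα (by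
      intro τ hτ
      refine (hT τ (by linarith [hτ.1]) (by linarith [hτ.2]) α hα hαA β).trans ?_
      apply mul_le_mul_of_nonneg_left _ hα.le
      refine sum_le_sum_of_subset_of_nonneg ?_ fun k _ _ =>
        mul_nonneg (by positivity) (gw_nonneg _ _ _ hg0)
      intro k hk
      rw [mem_KI hα] at hk ⊢
      constructor
      · linarith [hk.1, hτ.1]
      · linarith [hk.2, hτ.2])
  have e : (∑ k ∈ KI α β T (T + H), ‖zl (α * k + β)‖ ^ ((a:ℝ) / b)) =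
      ∑ k ∈ Icc ⌈(T - β) / α⌉ ⌊(T + H - β) / α⌋,
          ‖riemannZeta (1 / 2 + ((α * k + β : ℝ) : ℂ) * Complex.I)‖ ^ ((a:ℝ) / b) := rfl
  rw [e] at hav
  refine le_trans ?_ hav
  rw [hκe]
  have hp : 0 ≤ c * Real.log T ^ (((a:ℝ) / b) ^ 2 / 4) := by positivity
  calc c / 2 * H * Real.log T ^ (((a:ℝ) / b) ^ 2 / 4) = (H / 2) * (c * Real.log T ^ (((a:ℝ) / b) ^ 2 / 4)) := by
        ring
    _ ≤ (T + H - R - (T + R)) * (c * Real.log T ^ (((a:ℝ) / b) ^ 2 / 4)) := by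
        gcongr
        linarith

end
end Pool.Agent.W5h80.AP
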